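import Pool.Agent.X886.INV.Core

/-!
# The event that the base at a place is determined
-/

namespace Pool.Agent.X886.INV

/-- the base at the place `n` is determined -/
def cdet (ω : ℕ → Bool) (e : ℕ → ℕ) (K n : ℕ) : Prop :=
  (n / 2 % 3 = 1 → known ω e K (n / 6)) ∧
  (n / 2 % 3 = 2 → ∀ i < 2 ^ (padicValNat 2 (n / 6) + 1),
    known ω e K (gm (padicValNat 2 (n / 6)) (n / 6 / 2 ^ (padicValNat 2 (n / 6) + 1)) i))

end Pool.Agent.X886.INV
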