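import Mathlib

/-!
# A basic sequence which can be recovered from its random digits: definitions
-/

namespace Pool.Agent.X886.INV

open Filter MeasureTheory Topology

/-- marker bit of the cell `a` -/
def tb (a : ℕ) : Bool := decide (padicValNat 2 a % 2 = 1)

/-- `M_0 = 1`, `M_(k+1) = 2^(k+1) M_k` -/
def MM : ℕ → ℕ
  | 0 => 1
  | k + 1 => 2 ^ (k + 1) * MM k

/-- `i`-th member of the group of cells with number `b` of level `k` -/
def gm (k b i : ℕ) : ℕ := b % MM k + i * MM k + (b / MM k) * MM (k + 1)

/-- number of the group of level `k` which contains the cell `a` -/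
def gb (k a : ℕ) : ℕ := a % MM k + (a / MM (k + 1)) * MM k

/-- cell with the parity of the group of level `k` which contains `a` -/
def pc (k a : ℕ) : ℕ := 2 ^ (k + 1) * gb k a + 2 ^ k

/-- exclusive or of `g 0, ..., g (n-1)` -/
def xs (n : ℕ) (g : ℕ → Bool) : Bool := decide ((∑ i ∈ Finset.range n, (g i).toNat) % 2 = 1)

/-- parity bit of the cell `p` -/
def pb (ω : ℕ → Bool) (p : ℕ) : Bool :=
  xs (2 ^ (padicValNat 2 p + 1)) (fun i => ω (gm (padicValNat 2 p) (p / 2 ^ (padicValNat 2 p + 1)) i))

/-- the bit coded by the `i`-th pair of bases -/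
def bt (ω : ℕ → Bool) (i : ℕ) : Bool :=
  if i % 3 = 0 then tb (i / 3) else if i % 3 = 1 then ω (i / 3) else pb ω (i / 3)

/-- lower base of the `i`-th pair -/
def lo (i : ℕ) : ℕ := if i % 3 = 0 then 64 else 2

/-- higher base of the `i`-th pair -/
def hi (i : ℕ) : ℕ := if i % 3 = 0 then 128 else 32

/-- the sequence of bases; the `i`-th pair consists of the places `2 i` and `2 i + 1`, the higher base
is at `2 i` if the bit is `false` and at `2 i + 1` if it is `true` -/
def Qf (ω : ℕ → Bool) (n : ℕ) : ℕ := if (bt ω (n / 2)).toNat = n % 2 then hi (n / 2) else lo (n / 2)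

/-- the bit of the `i`-th pair can be seen from the digits `e` -/
def vis (ω : ℕ → Bool) (e : ℕ → ℕ) (i : ℕ) : Prop := lo i ≤ e (2 * i + (bt ω i).toNat)

/-- the information bit of the cell `a` is known at level `k` from the digits `e` -/
def known (ω : ℕ → Bool) (e : ℕ → ℕ) : ℕ → ℕ → Prop
  | 0, a => vis ω e (3 * a + 1)
  | k + 1, a => known ω e k a ∨ (vis ω e (3 * pc k a + 2) ∧
      ∀ i < 2 ^ (k + 1), gm k (gb k a) i ≠ a → known ω e k (gm k (gb k a) i))

/-- independent uniform digits for the bases `q` -/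
noncomputable def dm (q : ℕ → ℕ) : Measure (ℕ → ℕ) :=
  Measure.infinitePi (fun n => ProbabilityTheory.uniformOn (Set.Iio (q n)))

/-- probability of the block `V` of digits at the place `n` -/
noncomputable def w8 (q : ℕ → ℕ) {L : ℕ} (V : Fin L → ℕ) (n : ℕ) : ℝ :=
  ∏ i : Fin L, if V i < q (n + i) then ((q (n + i) : ℕ) : ℝ)⁻¹ else 0

open Classical in
/-- number of the `n < N` with the property `P` -/
noncomputable def cnt (P : ℕ → Prop) (N : ℕ) : ℕ := ((Finset.range N).filter P).card

open Classical in
/-- sum of `g n` over the `n < N` with the property `P` -/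
noncomputable def sm (P : ℕ → Prop) (g : ℕ → ℝ) (N : ℕ) : ℝ :=
  ∑ n ∈ (Finset.range N).filter P, g n

end Pool.Agent.X886.INV
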