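import Mathlib

/-!
# Cantor series expansions: normality, distribution normality, uniform normality,
dynamically generated basic sequences of positive entropy
-/

namespace Pool.Agent.X886.INV

open Filter MeasureTheory Topology

/-! ## Cantor series -/

/-- a basic sequence `q_1, q_2, ...` (the value `Q 0` is not used) -/
def IsBasic (Q : ℕ → ℕ) : Prop := ∀ n, 1 ≤ n → 2 ≤ Q n

/-- `q_1 q_2 ... q_n x mod 1` -/
noncomputable def orb (Q : ℕ → ℕ) (x : ℝ) (n : ℕ) : ℝ :=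
  Int.fract (((∏ i ∈ Finset.Icc 1 n, Q i : ℕ) : ℝ) * x)

/-- the `n`-th digit (`n ≥ 1`) of the `Q`-Cantor series expansion of `x` -/
noncomputable def dig (Q : ℕ → ℕ) (x : ℝ) (n : ℕ) : ℕ := ⌊(Q n : ℝ) * orb Q x (n - 1)⌋₊

/-- `I_j(D) / (q_j ... q_(j+ℓ-1))` -/
noncomputable def wt (Q : ℕ → ℕ) {ℓ : ℕ} (D : Fin ℓ → ℕ) (j : ℕ) : ℝ :=
  ∏ i : Fin ℓ, if D i < Q (j + i) then ((Q (j + i) : ℕ) : ℝ)⁻¹ else 0

/-- `Q_n(D)` -/
noncomputable def QQ (Q : ℕ → ℕ) {ℓ : ℕ} (D : Fin ℓ → ℕ) (n : ℕ) : ℝ :=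
  ∑ j ∈ Finset.Icc 1 n, wt Q D j

open Classical in
/-- `N_n(D, x)`, the number of occurrences of the block `D` at places `1, ..., n` -/
noncomputable def NN (Q : ℕ → ℕ) {ℓ : ℕ} (D : Fin ℓ → ℕ) (x : ℝ) (n : ℕ) : ℕ :=
  ((Finset.Icc 1 n).filter (fun j => ∀ i : Fin ℓ, dig Q x (j + i) = D i)).card

/-- the set `N(Q)` of `Q`-normal numbers -/
def NormalSet (Q : ℕ → ℕ) : Set ℝ :=
  {x | x ∈ Set.Ico (0 : ℝ) 1 ∧ ∀ (ℓ : ℕ) (D : Fin ℓ → ℕ), Tendsto (QQ Q D) atTop atTop →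
    Tendsto (fun n => (NN Q D x n : ℝ) / QQ Q D n) atTop (𝓝 1)}

open Classical in
/-- the set `DN(Q)` of `Q`-distribution normal numbers -/
def DistNormalSet (Q : ℕ → ℕ) : Set ℝ :=
  {x | x ∈ Set.Ico (0 : ℝ) 1 ∧ ∀ a b : ℝ, 0 ≤ a → a < b → b ≤ 1 →
    Tendsto (fun n : ℕ => (((Finset.Icc 1 n).filter (fun k => orb Q x k ∈ Set.Ico a b)).card : ℝ) / n)
      atTop (𝓝 (b - a))}

open Classical in
/-- `Q_n(D, B)` -/
noncomputable def QQB (Q : ℕ → ℕ) {ℓ : ℕ} (D B : Fin ℓ → ℕ) (n : ℕ) : ℝ :=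
  ∑ j ∈ (Finset.Icc 1 n).filter (fun j => ∀ i : Fin ℓ, Q (j + i) = B i), wt Q D j

open Classical in
/-- `N_n(D, B, x)` -/
noncomputable def NNB (Q : ℕ → ℕ) {ℓ : ℕ} (D B : Fin ℓ → ℕ) (x : ℝ) (n : ℕ) : ℕ :=
  ((Finset.Icc 1 n).filter (fun j => (∀ i : Fin ℓ, Q (j + i) = B i) ∧
    ∀ i : Fin ℓ, dig Q x (j + i) = D i)).card

/-- the set `UN(Q)` of uniformly `Q`-normal numbers -/
def UniformNormalSet (Q : ℕ → ℕ) : Set ℝ :=
  {x | x ∈ Set.Ico (0 : ℝ) 1 ∧ ∀ (ℓ : ℕ) (D B : Fin ℓ → ℕ), Tendsto (QQB Q D B) atTop atTop →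
    Tendsto (fun n => (NNB Q D B x n : ℝ) / QQB Q D B n) atTop (𝓝 1)}

/-! ## Dynamically generated basic sequences -/

/-- Shannon entropy of the partition into the sets where `g, g ∘ T, ..., g ∘ T^(n-1)` have given
values -/
noncomputable def Hn {X : Type} [MeasurableSpace X] (μ : Measure X) (T : X → X) {k : ℕ}
    (g : X → Fin k) (n : ℕ) : ℝ :=
  ∑ w : Fin n → Fin k, Real.negMulLog (μ.real {x | ∀ i : Fin n, g (T^[i] x) = w i})

/-- Kolmogorov-Sinai entropy -/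
noncomputable def ksEntropy {X : Type} [MeasurableSpace X] (μ : Measure X) (T : X → X) : EReal :=
  ⨆ (k : ℕ) (g : X → Fin k) (_ : Measurable g),
    limsup (fun n : ℕ => ((Hn μ T g n / n : ℝ) : EReal)) atTop

/-- the data `(X, μ, T, f, x)` generate the basic sequence `Q` dynamically -/
structure Generates {X : Type} [MetricSpace X] [CompleteSpace X] [TopologicalSpace.SeparableSpace X]
    [MeasurableSpace X] [BorelSpace X] (μ : Measure X) (T : X → X) (f : X → ℕ) (x : X)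
    (Q : ℕ → ℕ) : Prop where
  prob : IsProbabilityMeasure μ
  pos : ∀ U : Set X, IsOpen U → U.Nonempty → 0 < μ U
  contT : Continuous T
  inv : MeasurePreserving T μ μ
  contf : Continuous f
  two : ∀ y, 2 ≤ f y
  gen : (inferInstance : TopologicalSpace X) =
    TopologicalSpace.generateFrom {U | ∃ (n : ℕ) (S : Set ℕ), U = {y | f (T^[n] y) ∈ S}}
  generic : ∀ F : X → ℝ, Continuous F → Integrable F μ →
    Tendsto (fun N : ℕ => (∑ n ∈ Finset.Icc 1 N, F (T^[n] x)) / N) atTop (𝓝 (∫ y, F y ∂μ))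
  eq : ∀ n, 1 ≤ n → Q n = f (T^[n] x)

/-- `Q` is dynamically generated and non-deterministic -/
def NonDet (Q : ℕ → ℕ) : Prop :=
  ∃ (X : Type) (_ : MetricSpace X) (_ : CompleteSpace X) (_ : TopologicalSpace.SeparableSpace X)
    (_ : MeasurableSpace X) (_ : BorelSpace X) (μ : Measure X) (T : X → X) (f : X → ℕ) (x : X),
    Generates μ T f x Q ∧ 0 < ksEntropy μ T

end Pool.Agent.X886.INV
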