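import Pool.Agent.X886.INV.Core

/-!
# arithmetic of groups
-/

namespace Pool.Agent.X886.INV

open Filter MeasureTheory Topology

theorem MM_pos (k : ℕ) : 0 < MM k := by
  induction k with
  | zero => exact Nat.one_pos
  | succ k ih => exact Nat.mul_pos (Nat.pow_pos (by norm_num)) ih


theorem MM_pow (K : ℕ) : ∃ R, MM K = 2 ^ R ∧ K ≤ R := by
  induction K with
  | zero => exact ⟨0, rfl, le_refl _⟩
  | succ k ih =>
    obtain ⟨R, h1, h2⟩ := ih
    refine ⟨k + 1 + R, ?_, by omega⟩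
    rw [pow_add, ← h1]
    rfl


theorem MM_dvd {k K : ℕ} (h : k ≤ K) : MM k ∣ MM K := by
  induction K, h using Nat.le_induction with
  | base => exact dvd_refl _
  | succ n _ ih => exact ih.trans ⟨2 ^ (n + 1), by rw [mul_comm]; rfl⟩


theorem MM_succ (k : ℕ) : MM (k + 1) = 2 ^ (k + 1) * MM k := rfl

theorem gb_mod (k a : ℕ) : gb k a % MM k = a % MM k := by
  unfold gb
  rw [Nat.add_mul_mod_self_right, Nat.mod_mod]

theorem gb_div (k a : ℕ) : gb k a / MM k = a / MM (k + 1) := by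
  unfold gb
  rw [Nat.add_mul_div_right _ _ (MM_pos k), Nat.div_eq_of_lt (Nat.mod_lt _ (MM_pos k)), zero_add]

theorem gm_eq (k a i : ℕ) : gm k (gb k a) i = a % MM k + i * MM k + (a / MM (k + 1)) * MM (k + 1) := by
  unfold gm
  rw [gb_mod, gb_div]

theorem pc_val (k a : ℕ) : padicValNat 2 (pc k a) = k := by
  have h1 : pc k a = 2 ^ k * (2 * gb k a + 1) := by
    unfold pc
    ring
  have h2 : padicValNat 2 (2 * gb k a + 1) = 0 := padicValNat.eq_zero_of_not_dvd (by omega)
  rw [h1, padicValNat.mul (by positivity) (by omega), padicValNat.prime_pow, h2, add_zero]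


theorem pc_div (k a : ℕ) : pc k a / 2 ^ (k + 1) = gb k a := by
  unfold pc
  rw [Nat.mul_add_div (Nat.pow_pos (by norm_num)), Nat.div_eq_of_lt (Nat.pow_lt_pow_right (by norm_num)
    (Nat.lt_succ_self k)), add_zero]


theorem pc_block (k a : ℕ) : pc k a / MM (k + 1) = a / MM (k + 1) := by
  have h0 : 0 < MM (k + 1) := MM_pos _
  have h1 : pc k a = (2 ^ (k + 1) * (a % MM k) + 2 ^ k) + (a / MM (k + 1)) * MM (k + 1) := by
    unfold pc gb
    generalize a / MM (k + 1) = q
    rw [MM_succ]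
    ring
  have h2 : 2 ^ (k + 1) * (a % MM k) + 2 ^ k < MM (k + 1) := by
    have h3 : a % MM k + 1 ≤ MM k := Nat.mod_lt _ (MM_pos k)
    have h4 : 2 ^ (k + 1) * (a % MM k + 1) ≤ MM (k + 1) := Nat.mul_le_mul_left _ h3
    have h5 : 2 ^ k < 2 ^ (k + 1) := Nat.pow_lt_pow_right (by norm_num) (Nat.lt_succ_self k)
    rw [mul_add, mul_one] at h4
    omega
  rw [h1, Nat.add_mul_div_right _ _ h0, Nat.div_eq_of_lt h2, zero_add]


/-- `a` is a member of its group -/
theorem gm_self (k a : ℕ) : gm k (gb k a) (a / MM k % 2 ^ (k + 1)) = a := by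
  rw [gm_eq]
  have h1 : a / MM (k + 1) = a / MM k / 2 ^ (k + 1) := by
    rw [Nat.div_div_eq_div_mul, MM_succ, mul_comm]
  rw [h1, MM_succ]
  have h2 := Nat.div_add_mod a (MM k)
  have h3 := Nat.div_add_mod (a / MM k) (2 ^ (k + 1))
  generalize a / MM k / 2 ^ (k + 1) = q at *
  generalize a / MM k % 2 ^ (k + 1) = r at *
  rw [← h3] at h2
  conv_rhs => rw [← h2]
  ring


/-- the members are in the block of level `k + 1` of `a` -/
theorem gm_block (k a i : ℕ) (hi : i < 2 ^ (k + 1)) :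
    gm k (gb k a) i / MM (k + 1) = a / MM (k + 1) := by
  rw [gm_eq, Nat.add_mul_div_right _ _ (MM_pos _)]
  have h2 : a % MM k + i * MM k < MM (k + 1) := by
    have h3 : a % MM k < MM k := Nat.mod_lt _ (MM_pos k)
    have h4 : (i + 1) * MM k ≤ 2 ^ (k + 1) * MM k := Nat.mul_le_mul_right _ hi
    rw [MM_succ]
    rw [add_mul, one_mul] at h4
    omega
  rw [Nat.div_eq_of_lt h2, zero_add]


/-- the members are in different blocks of level `k` -/
theorem gm_inj (k a i i' : ℕ) (hi : i < 2 ^ (k + 1)) (hi' : i' < 2 ^ (k + 1))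
    (h : gm k (gb k a) i / MM k = gm k (gb k a) i' / MM k) : i = i' := by
  have key : ∀ j, gm k (gb k a) j / MM k = j + (a / MM (k + 1)) * 2 ^ (k + 1) := by
    intro j
    rw [gm_eq]
    generalize a / MM (k + 1) = q
    have h1 : a % MM k + j * MM k + q * MM (k + 1) = a % MM k + (j + q * 2 ^ (k + 1)) * MM k := by
      rw [MM_succ]
      ring
    rw [h1, Nat.add_mul_div_right _ _ (MM_pos k), Nat.div_eq_of_lt (Nat.mod_lt _ (MM_pos k)), zero_add]
  rw [key, key] at h
  omega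


theorem pb_pc (ω : ℕ → Bool) (k a : ℕ) :
    pb ω (pc k a) = xs (2 ^ (k + 1)) (fun i => ω (gm k (gb k a) i)) := by
  unfold pb
  rw [pc_val, pc_div]


end Pool.Agent.X886.INV
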