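import Pool.Agent.X886.INV.Core

/-!
# transfer to joint frequencies
-/

namespace Pool.Agent.X886.INV

open Filter MeasureTheory Topology

/-! auxiliary lemmas -/

theorem one_digit (m : ℕ) (h2 : 2 ≤ m) (h : m ≤ 128) :
    ∑ v ∈ Finset.range 128, (if v < m then ((m : ℕ) : ℝ)⁻¹ else 0) = 1 := by
  rw [← Finset.sum_filter]
  have : (Finset.range 128).filter (fun v => v < m) = Finset.range m := by
    ext v
    simp only [Finset.mem_filter, Finset.mem_range]
    omega
  rw [this, Finset.sum_const, Finset.card_range, nsmul_eq_mul]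
  have : (m : ℝ) ≠ 0 := by
    have : m ≠ 0 := by omega
    exact_mod_cast this
  field_simp

theorem w8_nonneg (q : ℕ → ℕ) {L : ℕ} (V : Fin L → ℕ) (n : ℕ) : 0 ≤ w8 q V n := by
  unfold w8
  refine Finset.prod_nonneg fun i _ => ?_
  split_ifs <;> positivity

theorem w8_le_one (q : ℕ → ℕ) {L : ℕ} (V : Fin L → ℕ) (n : ℕ) : w8 q V n ≤ 1 := by
  unfold w8
  refine Finset.prod_le_one (fun i _ => ?_) fun i _ => ?_
  · split_ifs <;> positivity
  · split_ifs with h
    · have : (1 : ℝ) ≤ (q (n + i) : ℕ) := by exact_mod_cast (by omega : 1 ≤ q (n + i))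
      exact inv_le_one_of_one_le₀ this
    · exact zero_le_one

theorem w8_pos_lt (q : ℕ → ℕ) {L : ℕ} (V : Fin L → ℕ) (n : ℕ) (h : w8 q V n ≠ 0) (i : Fin L) :
    V i < q (n + i) := by
  by_contra h1
  apply h
  unfold w8
  refine Finset.prod_eq_zero (Finset.mem_univ i) ?_
  rw [if_neg h1]

theorem w8_zero (q : ℕ → ℕ) {L : ℕ} (V : Fin L → ℕ) (n : ℕ) (i : Fin L) (h1 : ¬ V i < q (n + i)) :
    w8 q V n = 0 := by
  by_contra h
  exact h1 (w8_pos_lt q V n h i)

/-- all blocks of digits -/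
noncomputable def AV (L m : ℕ) : Finset (Fin L → ℕ) := Fintype.piFinset fun _ => Finset.range m

theorem w8_sum (q : ℕ → ℕ) (hq2 : ∀ n, 2 ≤ q n) (hq : ∀ n, q n ≤ 128) (L n : ℕ) :
    ∑ V ∈ AV L 128, w8 q V n = 1 := by
  unfold w8 AV
  rw [← Finset.prod_univ_sum (fun _ => Finset.range 128)
    (fun (i : Fin L) (v : ℕ) => if v < q (n + i) then ((q (n + i) : ℕ) : ℝ)⁻¹ else 0)]
  exact Finset.prod_eq_one fun i _ => one_digit _ (hq2 _) (hq _)

theorem w8_mid (q : ℕ → ℕ) (hq2 : ∀ n, 2 ≤ q n) (hq : ∀ n, q n ≤ 128) (L ℓ W n : ℕ)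
    (e : Fin ℓ → Fin L) (he : ∀ i, ((e i : Fin L) : ℕ) = W + i) (D : Fin ℓ → ℕ)
    (hD : ∀ i, D i < 128) :
    ∑ V ∈ (AV L 128).filter (fun V => ∀ j, V (e j) = D j), w8 q V n = w8 q D (n + W) := by
  have einj : Function.Injective e := by
    intro i j h
    have h1 := he i
    have h2 := he j
    rw [h] at h1
    apply Fin.ext
    omega
  have h1 : (AV L 128).filter (fun V => ∀ j, V (e j) = D j) =
      Fintype.piFinset (fun i : Fin L => (Finset.range 128).filter
        (fun v => ∀ j : Fin ℓ, e j = i → v = D j)) := by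
    ext V
    simp only [AV, Finset.mem_filter, Fintype.mem_piFinset]
    constructor
    · rintro ⟨h1, h2⟩ i
      exact ⟨h1 i, fun j hj => by rw [← hj]; exact h2 j⟩
    · intro h
      exact ⟨fun i => (h i).1, fun j => (h (e j)).2 j rfl⟩
  rw [h1]
  unfold w8
  rw [← Finset.prod_univ_sum (fun i : Fin L => (Finset.range 128).filter
        (fun v => ∀ j : Fin ℓ, e j = i → v = D j))
    (fun (i : Fin L) (v : ℕ) => if v < q (n + i) then ((q (n + i) : ℕ) : ℝ)⁻¹ else 0)]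
  symm
  refine Fintype.prod_of_injective e einj _ _ ?_ ?_
  · intro i hi
    have : (Finset.range 128).filter (fun v => ∀ j : Fin ℓ, e j = i → v = D j) =
        Finset.range 128 := by
      refine Finset.filter_true_of_mem fun v _ j hj => ?_
      exact absurd ⟨j, hj⟩ hi
    rw [this]
    exact one_digit _ (hq2 _) (hq _)
  · intro i
    have : (Finset.range 128).filter (fun v => ∀ j : Fin ℓ, e j = e i → v = D j) =
        {D i} := by
      ext v
      simp only [Finset.mem_filter, Finset.mem_range, Finset.mem_singleton]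
      constructor
      · rintro ⟨_, h⟩
        exact h i rfl
      · rintro rfl
        exact ⟨hD i, fun j hj => by rw [einj hj]⟩
    rw [this, Finset.sum_singleton, he i]
    have e1 : n + W + (i : ℕ) = n + (W + i) := by omega
    rw [e1]

theorem shift_bd (f : ℕ → ℝ) (h0 : ∀ n, 0 ≤ f n) (h1 : ∀ n, f n ≤ 1) (W N : ℕ) :
    ∑ n ∈ Finset.range N, f (n + W) ≤ ∑ n ∈ Finset.range N, f n + W ∧
    ∑ n ∈ Finset.range N, f n - W ≤ ∑ n ∈ Finset.range N, f (n + W) := by
  have a1 : ∑ n ∈ Finset.range (W + N), f n =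
      ∑ n ∈ Finset.range W, f n + ∑ n ∈ Finset.range N, f (n + W) := by
    rw [Finset.sum_range_add]
    congr 1
    exact Finset.sum_congr rfl fun n _ => by rw [add_comm]
  have a2 : ∑ n ∈ Finset.range (W + N), f n =
      ∑ n ∈ Finset.range N, f n + ∑ n ∈ Finset.range W, f (N + n) := by
    rw [add_comm W N, Finset.sum_range_add]
  have b1 : 0 ≤ ∑ n ∈ Finset.range W, f n := Finset.sum_nonneg fun n _ => h0 n
  have b2 : ∑ n ∈ Finset.range W, f n ≤ W := by
    refine (Finset.sum_le_sum fun n _ => h1 n).trans ?_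
    simp
  have b3 : 0 ≤ ∑ n ∈ Finset.range W, f (N + n) := Finset.sum_nonneg fun n _ => h0 _
  have b4 : ∑ n ∈ Finset.range W, f (N + n) ≤ W := by
    refine (Finset.sum_le_sum fun n _ => h1 (N + n)).trans ?_
    simp
  constructor <;> linarith

open Classical in
/-- indicator of a proposition -/
noncomputable def ind (P : Prop) : ℝ := if P then 1 else 0

theorem ind_pos {P : Prop} (h : P) : ind P = 1 := if_pos h
theorem ind_neg {P : Prop} (h : ¬ P) : ind P = 0 := if_neg h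
theorem ind_nonneg (P : Prop) : 0 ≤ ind P := by
  unfold ind; split_ifs <;> norm_num
theorem ind_le_one (P : Prop) : ind P ≤ 1 := by
  unfold ind; split_ifs <;> norm_num

open Classical in
theorem cnt_eq (P : ℕ → Prop) (N : ℕ) :
    (cnt P N : ℝ) = ∑ n ∈ Finset.range N, ind (P n) := by
  unfold cnt ind
  rw [← Finset.sum_filter, Finset.sum_const, nsmul_eq_mul, mul_one]

open Classical in
theorem sm_eq (P : ℕ → Prop) (g : ℕ → ℝ) (N : ℕ) :
    sm P g N = ∑ n ∈ Finset.range N, ind (P n) * g n := by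
  unfold sm ind
  rw [Finset.sum_filter]
  exact Finset.sum_congr rfl fun n _ => by split_ifs <;> simp

open Classical in
/-- pointwise comparison -/
theorem ptw (q : ℕ → ℕ) (hq2 : ∀ n, 2 ≤ q n) (hq : ∀ n, q n ≤ 128)
    (ℓ W L : ℕ) (G : Finset (Fin L → ℕ)) (out : (Fin L → ℕ) → Fin ℓ → ℕ) (hWL : W + ℓ ≤ L)
    (hs : ∀ n, ∀ V ∈ G, (∀ i : Fin L, V i < q (n + i)) → ∀ i : Fin ℓ, q (n + W + i) = out V i)
    (B D : Fin ℓ → ℕ) (n : ℕ) :
    ind (∀ i : Fin ℓ, q (n + W + i) = B i) * w8 q D (n + W) -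
      (1 - ∑ V ∈ G, w8 q V n) ≤
    ∑ V ∈ G.filter (fun V => out V = B ∧ ∀ j : Fin ℓ, V ⟨W + j, by omega⟩ = D j), w8 q V n := by
  have hG : ∑ V ∈ (AV L 128).filter (· ∈ G), w8 q V n = ∑ V ∈ G, w8 q V n := by
    have : (AV L 128).filter (· ∈ G) ⊆ G := fun V hV => (Finset.mem_filter.1 hV).2
    refine Finset.sum_subset this fun V hV hV2 => ?_
    by_contra h
    apply hV2
    refine Finset.mem_filter.2 ⟨?_, hV⟩
    unfold AV
    refine Fintype.mem_piFinset.2 fun i => Finset.mem_range.2 ?_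
    exact lt_of_lt_of_le (w8_pos_lt q V n h i) (hq _)
  have hsplit := Finset.sum_filter_add_sum_filter_not (AV L 128) (· ∈ G) (fun V => w8 q V n)
  rw [w8_sum q hq2 hq, hG] at hsplit
  have hnn : 0 ≤ ∑ V ∈ (AV L 128).filter (fun V => ¬ V ∈ G), w8 q V n :=
    Finset.sum_nonneg fun V _ => w8_nonneg q V n
  have hnn2 : 0 ≤ ∑ V ∈ G.filter (fun V => out V = B ∧ ∀ j : Fin ℓ, V ⟨W + j, by omega⟩ = D j),
      w8 q V n := Finset.sum_nonneg fun V _ => w8_nonneg q V n
  by_cases hB : ∀ i : Fin ℓ, q (n + W + i) = B i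
  · rw [ind_pos hB, one_mul]
    by_cases hD : ∀ i, D i < 128
    · rw [← w8_mid q hq2 hq L ℓ W n (fun j => ⟨W + j, by omega⟩) (fun _ => rfl) D hD]
      have h2 := Finset.sum_filter_add_sum_filter_not
        ((AV L 128).filter (fun V => ∀ j : Fin ℓ, V ⟨W + j, by omega⟩ = D j)) (· ∈ G)
        (fun V => w8 q V n)
      have h3 : ∑ V ∈ ((AV L 128).filter (fun V => ∀ j : Fin ℓ, V ⟨W + j, by omega⟩ = D j)).filter
          (fun V => ¬ V ∈ G), w8 q V n ≤ ∑ V ∈ (AV L 128).filter (fun V => ¬ V ∈ G), w8 q V n := by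
        refine Finset.sum_le_sum_of_subset_of_nonneg ?_ fun V _ _ => w8_nonneg q V n
        exact Finset.filter_subset_filter _ (Finset.filter_subset _ _)
      have h4 : ∑ V ∈ ((AV L 128).filter (fun V => ∀ j : Fin ℓ, V ⟨W + j, by omega⟩ = D j)).filter
          (· ∈ G), w8 q V n ≤
          ∑ V ∈ G.filter (fun V => out V = B ∧ ∀ j : Fin ℓ, V ⟨W + j, by omega⟩ = D j),
            w8 q V n := by
        rw [← Finset.sum_filter_ne_zero]
        refine Finset.sum_le_sum_of_subset_of_nonneg ?_ fun V _ _ => w8_nonneg q V n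
        intro V hV
        rw [Finset.mem_filter, Finset.mem_filter, Finset.mem_filter] at hV
        obtain ⟨⟨⟨_, hm⟩, hVG⟩, hne⟩ := hV
        refine Finset.mem_filter.2 ⟨hVG, ?_, hm⟩
        have h5 := hs n V hVG (fun i => w8_pos_lt q V n hne i)
        funext i
        rw [← h5 i, hB i]
      linarith
    · push Not at hD
      obtain ⟨i, hi⟩ := hD
      rw [w8_zero q D (n + W) i (by have := hq (n + W + i); omega)]
      linarith
  · rw [ind_neg hB, zero_mul]
    linarith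

open Classical in
theorem lower (q d : ℕ → ℕ) (hq2 : ∀ n, 2 ≤ q n) (hq : ∀ n, q n ≤ 128) (hd : ∀ n, d n < q n)
    (hN : ∀ (L : ℕ) (V : Fin L → ℕ), Tendsto (fun N : ℕ =>
      ((cnt (fun n => ∀ i : Fin L, d (n + i) = V i) N : ℝ) -
        ∑ n ∈ Finset.range N, w8 q V n) / N) atTop (𝓝 0))
    (hR : ∀ ε : ℝ, 0 < ε → ∀ ℓ : ℕ,
      ∃ (W L : ℕ) (G : Finset (Fin L → ℕ)) (out : (Fin L → ℕ) → Fin ℓ → ℕ), W + ℓ ≤ L ∧
      (∀ n, ∀ V ∈ G, (∀ i : Fin L, V i < q (n + i)) → ∀ i : Fin ℓ, q (n + W + i) = out V i) ∧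
      ∀ᶠ N : ℕ in atTop, ∑ n ∈ Finset.range N, (1 - ∑ V ∈ G, w8 q V n) ≤ ε * N)
    (ℓ : ℕ) (B D : Fin ℓ → ℕ) (ε : ℝ) (hε : 0 < ε) :
    ∀ᶠ N : ℕ in atTop, sm (fun n => ∀ i : Fin ℓ, q (n + i) = B i) (w8 q D) N - ε * N ≤
      (cnt (fun n => (∀ i : Fin ℓ, q (n + i) = B i) ∧ ∀ i : Fin ℓ, d (n + i) = D i) N : ℝ) := by
  obtain ⟨W, L, G, out, hWL, hs, hG⟩ := hR (ε / 3) (by positivity) ℓ
  set G' := G.filter (fun V => out V = B ∧ ∀ j : Fin ℓ, V ⟨W + j, by omega⟩ = D j) with hG'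
  set δ : ℝ := ε / (6 * (G'.card + 1)) with hδ
  have hδ0 : 0 < δ := by positivity
  have hNV : ∀ᶠ N : ℕ in atTop, ∀ V ∈ G', ∑ n ∈ Finset.range N, w8 q V n - δ * N ≤
      (cnt (fun n => ∀ i : Fin L, d (n + i) = V i) N : ℝ) := by
    rw [Filter.eventually_all_finset]
    intro V _
    have h1 := (hN L V).eventually (Ioi_mem_nhds (show -δ < 0 by linarith))
    filter_upwards [h1, eventually_gt_atTop 0] with N hN1 hN0
    have hN0' : (0 : ℝ) < N := by exact_mod_cast hN0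
    have h2 : -δ < ((cnt (fun n => ∀ i : Fin L, d (n + i) = V i) N : ℝ) -
        ∑ n ∈ Finset.range N, w8 q V n) / N := hN1
    rw [lt_div_iff₀ hN0'] at h2
    linarith
  have hlarge : ∀ᶠ N : ℕ in atTop, (2 : ℝ) * W ≤ ε / 3 * N := by
    have := tendsto_natCast_atTop_atTop (R := ℝ)
    have h3 := this.eventually_ge_atTop (2 * W / (ε / 3))
    filter_upwards [h3] with N h3
    rw [div_le_iff₀ (by positivity)] at h3
    linarith
  filter_upwards [hG, hNV, hlarge] with N h1 h2 h3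
  -- the sum over `G'`
  have hA : ∑ V ∈ G', (cnt (fun n => ∀ i : Fin L, d (n + i) = V i) N : ℝ) ≤
      ∑ n ∈ Finset.range N, ind ((∀ i : Fin ℓ, q (n + W + i) = B i) ∧
        ∀ i : Fin ℓ, d (n + W + i) = D i) := by
    simp only [cnt_eq]
    rw [Finset.sum_comm]
    refine Finset.sum_le_sum fun n _ => ?_
    by_cases hex : ∃ V ∈ G', ∀ i : Fin L, d (n + i) = V i
    · obtain ⟨V, hV, hdV⟩ := hex
      have huni : ∑ V ∈ G', ind (∀ i : Fin L, d (n + i) = V i) = 1 := by
        rw [Finset.sum_eq_single V]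
        · rw [ind_pos hdV]
        · intro V' _ hne
          rw [ind_neg]
          intro h
          exact hne (funext fun i => by rw [← h i, hdV i])
        · intro h
          exact absurd hV h
      rw [huni, ind_pos]
      rw [hG', Finset.mem_filter] at hV
      obtain ⟨hVG, hout, hmid⟩ := hV
      refine ⟨fun i => ?_, fun i => ?_⟩
      · rw [hs n V hVG (fun i => by rw [← hdV i]; exact hd _) i, hout]
      · rw [← hmid i, ← hdV ⟨W + i, by omega⟩]
        congr 1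
        show n + W + (i : ℕ) = n + (W + i)
        omega
    · have : ∑ V ∈ G', ind (∀ i : Fin L, d (n + i) = V i) = 0 := by
        refine Finset.sum_eq_zero fun V hV => ?_
        rw [ind_neg]
        exact fun h => hex ⟨V, hV, h⟩
      rw [this]
      exact ind_nonneg _
  have hB := (shift_bd (fun n => ind ((∀ i : Fin ℓ, q (n + i) = B i) ∧
        ∀ i : Fin ℓ, d (n + i) = D i)) (fun n => ind_nonneg _) (fun n => ind_le_one _) W N).1
  have hC := (shift_bd (fun n => ind (∀ i : Fin ℓ, q (n + i) = B i) * w8 q D n)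
        (fun n => mul_nonneg (ind_nonneg _) (w8_nonneg q D n))
        (fun n => mul_le_one₀ (ind_le_one _) (w8_nonneg q D n) (w8_le_one q D n)) W N).2
  have hP : ∑ n ∈ Finset.range N, (ind (∀ i : Fin ℓ, q (n + W + i) = B i) *
      w8 q D (n + W) - (1 - ∑ V ∈ G, w8 q V n)) ≤
      ∑ n ∈ Finset.range N, ∑ V ∈ G', w8 q V n :=
    Finset.sum_le_sum fun n _ => ptw q hq2 hq ℓ W L G out hWL hs B D n
  rw [Finset.sum_sub_distrib, Finset.sum_comm (s := Finset.range N) (t := G')] at hP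
  have hQ : ∑ V ∈ G', ∑ n ∈ Finset.range N, w8 q V n - (G'.card : ℝ) * (δ * N) ≤
      ∑ V ∈ G', (cnt (fun n => ∀ i : Fin L, d (n + i) = V i) N : ℝ) := by
    have := Finset.sum_le_sum h2
    rw [Finset.sum_sub_distrib, Finset.sum_const, nsmul_eq_mul] at this
    exact this
  have hR2 : (G'.card : ℝ) * (δ * N) ≤ ε / 3 * N := by
    rw [← mul_assoc]
    refine mul_le_mul_of_nonneg_right ?_ (Nat.cast_nonneg N)
    rw [hδ, mul_div_assoc', div_le_iff₀ (by positivity)]
    have : (0 : ℝ) ≤ G'.card := Nat.cast_nonneg _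
    nlinarith
  rw [sm_eq, cnt_eq]
  linarith

open Classical in
theorem tot_cnt (q d : ℕ → ℕ) (hq : ∀ n, q n ≤ 128) (hd : ∀ n, d n < q n) (ℓ N : ℕ) :
    ∑ p ∈ AV ℓ 129 ×ˢ AV ℓ 128,
      (cnt (fun n => (∀ i : Fin ℓ, q (n + i) = p.1 i) ∧ ∀ i : Fin ℓ, d (n + i) = p.2 i) N : ℝ) =
      N := by
  simp only [cnt_eq]
  rw [Finset.sum_comm]
  have : ∀ n ∈ Finset.range N, ∑ p ∈ AV ℓ 129 ×ˢ AV ℓ 128,
      ind ((∀ i : Fin ℓ, q (n + i) = p.1 i) ∧ ∀ i : Fin ℓ, d (n + i) = p.2 i) =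
      1 := by
    intro n _
    rw [Finset.sum_eq_single ((fun i : Fin ℓ => q (n + i)), (fun i : Fin ℓ => d (n + i)))]
    · rw [ind_pos]
      exact ⟨fun i => rfl, fun i => rfl⟩
    · rintro ⟨B', D'⟩ _ hne
      rw [ind_neg]
      rintro ⟨h1, h2⟩
      apply hne
      rw [Prod.mk.injEq]
      exact ⟨funext fun i => (h1 i).symm, funext fun i => (h2 i).symm⟩
    · intro h
      exfalso
      apply h
      rw [Finset.mem_product]
      unfold AV
      refine ⟨Fintype.mem_piFinset.2 fun i => Finset.mem_range.2 ?_,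
        Fintype.mem_piFinset.2 fun i => Finset.mem_range.2 ?_⟩
      · have := hq (n + i)
        show q (n + i) < 129
        omega
      · have := hq (n + i)
        have := hd (n + i)
        show d (n + i) < 128
        omega
  rw [Finset.sum_congr rfl this]
  simp

open Classical in
theorem tot_sm (q : ℕ → ℕ) (hq2 : ∀ n, 2 ≤ q n) (hq : ∀ n, q n ≤ 128) (ℓ N : ℕ) :
    ∑ p ∈ AV ℓ 129 ×ˢ AV ℓ 128,
      sm (fun n => ∀ i : Fin ℓ, q (n + i) = p.1 i) (w8 q p.2) N = N := by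
  simp only [sm_eq]
  rw [Finset.sum_comm]
  have : ∀ n ∈ Finset.range N, ∑ p ∈ AV ℓ 129 ×ˢ AV ℓ 128,
      ind (∀ i : Fin ℓ, q (n + i) = p.1 i) * w8 q p.2 n = 1 := by
    intro n _
    rw [Finset.sum_product]
    rw [Finset.sum_eq_single (fun i : Fin ℓ => q (n + i))]
    · have : ∀ x ∈ AV ℓ 128, ind (∀ i : Fin ℓ, q (n + i) = q (n + i)) * w8 q x n =
          w8 q x n := fun x _ => by rw [ind_pos (fun i => rfl), one_mul]
      exact (Finset.sum_congr rfl this).trans (w8_sum q hq2 hq ℓ n)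
    · intro B' _ hne
      refine Finset.sum_eq_zero fun x _ => ?_
      rw [ind_neg, zero_mul]
      intro h
      exact hne (funext fun i => (h i).symm)
    · intro h
      exfalso
      apply h
      unfold AV
      refine Fintype.mem_piFinset.2 fun i => Finset.mem_range.2 ?_
      have := hq (n + i)
      show q (n + i) < 129
      omega
  rw [Finset.sum_congr rfl this]
  simp

theorem transfer (q d : ℕ → ℕ) (hq2 : ∀ n, 2 ≤ q n) (hq : ∀ n, q n ≤ 128) (hd : ∀ n, d n < q n)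
    (hN : ∀ (L : ℕ) (V : Fin L → ℕ), Tendsto (fun N : ℕ =>
      ((cnt (fun n => ∀ i : Fin L, d (n + i) = V i) N : ℝ) -
        ∑ n ∈ Finset.range N, w8 q V n) / N) atTop (𝓝 0))
    (hR : ∀ ε : ℝ, 0 < ε → ∀ ℓ : ℕ,
      ∃ (W L : ℕ) (G : Finset (Fin L → ℕ)) (out : (Fin L → ℕ) → Fin ℓ → ℕ), W + ℓ ≤ L ∧
      (∀ n, ∀ V ∈ G, (∀ i : Fin L, V i < q (n + i)) → ∀ i : Fin ℓ, q (n + W + i) = out V i) ∧
      ∀ᶠ N : ℕ in atTop, ∑ n ∈ Finset.range N, (1 - ∑ V ∈ G, w8 q V n) ≤ ε * N)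
    (ℓ : ℕ) (B D : Fin ℓ → ℕ) :
    Tendsto (fun N : ℕ =>
      ((cnt (fun n => (∀ i : Fin ℓ, q (n + i) = B i) ∧ ∀ i : Fin ℓ, d (n + i) = D i) N : ℝ) -
        sm (fun n => ∀ i : Fin ℓ, q (n + i) = B i) (w8 q D) N) / N)
      atTop (𝓝 0) := by
  classical
  rw [Metric.tendsto_nhds]
  intro ε hε
  have hlow := lower q d hq2 hq hd hN hR ℓ
  set P := AV ℓ 129 ×ˢ AV ℓ 128 with hP
  set η : ℝ := ε / (2 * (P.card + 1)) with hη
  have hη0 : 0 < η := by positivity
  have hall : ∀ᶠ N : ℕ in atTop, ∀ p ∈ P,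
      sm (fun n => ∀ i : Fin ℓ, q (n + i) = p.1 i) (w8 q p.2) N - η * N ≤
      (cnt (fun n => (∀ i : Fin ℓ, q (n + i) = p.1 i) ∧ ∀ i : Fin ℓ, d (n + i) = p.2 i) N : ℝ) := by
    rw [Filter.eventually_all_finset]
    intro p _
    exact hlow p.1 p.2 η hη0
  filter_upwards [hall, hlow B D η hη0, eventually_gt_atTop 0] with N h1 h2 h3
  have hN0 : (0 : ℝ) < N := by exact_mod_cast h3
  rw [Real.dist_eq, sub_zero, abs_div, abs_of_pos hN0, div_lt_iff₀ hN0]
  have hηε : η * N ≤ ε / 2 * N := by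
    refine mul_le_mul_of_nonneg_right ?_ hN0.le
    rw [hη]
    refine div_le_div_of_nonneg_left hε.le (by norm_num) ?_
    have : (0 : ℝ) ≤ P.card := Nat.cast_nonneg _
    linarith
  have hPη : (P.card : ℝ) * (η * N) ≤ ε / 2 * N := by
    rw [← mul_assoc]
    refine mul_le_mul_of_nonneg_right ?_ hN0.le
    rw [hη, mul_div_assoc', div_le_iff₀ (by positivity)]
    have : (0 : ℝ) ≤ P.card := Nat.cast_nonneg _
    nlinarith
  have hεN : 0 < ε * N := by positivity
  rw [abs_lt]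
  refine ⟨by linarith, ?_⟩
  by_cases hBD : (B, D) ∈ P
  · have t1 := tot_cnt q d hq hd ℓ N
    have t2 := tot_sm q hq2 hq ℓ N
    rw [← hP, ← Finset.add_sum_erase P _ hBD] at t1 t2
    have t3 := Finset.sum_le_sum (fun p (hp : p ∈ P.erase (B, D)) => h1 p (Finset.mem_of_mem_erase hp))
    rw [Finset.sum_sub_distrib, Finset.sum_const, nsmul_eq_mul] at t3
    have t4 : ((P.erase (B, D)).card : ℝ) * (η * N) ≤ (P.card : ℝ) * (η * N) := by
      refine mul_le_mul_of_nonneg_right ?_ (by positivity)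
      exact_mod_cast Finset.card_le_card (Finset.erase_subset _ _)
    simp only at t1 t2
    linarith
  · -- both are zero
    have e1 : (cnt (fun n => (∀ i : Fin ℓ, q (n + i) = B i) ∧ ∀ i : Fin ℓ, d (n + i) = D i) N : ℝ) =
        0 := by
      rw [cnt_eq]
      refine Finset.sum_eq_zero fun n _ => ind_neg ?_
      rintro ⟨h4, h5⟩
      apply hBD
      rw [hP, Finset.mem_product]
      unfold AV
      refine ⟨Fintype.mem_piFinset.2 fun i => Finset.mem_range.2 ?_,
        Fintype.mem_piFinset.2 fun i => Finset.mem_range.2 ?_⟩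
      · have := hq (n + i)
        have := h4 i
        show B i < 129
        omega
      · have := hq (n + i)
        have := hd (n + i)
        have := h5 i
        show D i < 128
        omega
    have e2 : 0 ≤ sm (fun n => ∀ i : Fin ℓ, q (n + i) = B i) (w8 q D) N := by
      rw [sm_eq]
      exact Finset.sum_nonneg fun n _ => mul_nonneg (ind_nonneg _) (w8_nonneg q D n)
    rw [e1]
    linarith

end Pool.Agent.X886.INV
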