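import Pool.Agent.X886.INV.Core

/-!
# distribution normality
-/

namespace Pool.Agent.X886.INV

open Filter MeasureTheory Topology

/-- value of a block of digits -/
noncomputable def svv : (m : ℕ) → (Fin m → ℕ) → (Fin m → ℕ) → ℝ
  | 0, _, _ => 0
  | m + 1, B, D => ((D 0 : ℝ) + svv m (fun i => B i.succ) (fun i => D i.succ)) / (B 0 : ℝ)

open Classical in
/-- expected frequency of values below `c` -/
noncomputable def EEE (q : ℕ → ℕ) (m n : ℕ) (c : ℝ) : ℝ :=
  ∑ D : Fin m → Fin 129, (if svv m (fun i => q (n + i)) (fun i => (D i : ℕ)) < c then 1 else 0) *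
    w8 q (fun i => (D i : ℕ)) n

lemma EEE_zero (q : ℕ → ℕ) (n : ℕ) (c : ℝ) : EEE q 0 n c = if 0 < c then 1 else 0 := by
  classical
  unfold EEE
  by_cases h : 0 < c <;> simp [svv, w8, h]

lemma w8_succ (q : ℕ → ℕ) (m : ℕ) (V : Fin (m + 1) → ℕ) (n : ℕ) :
    w8 q V n = (if V 0 < q n then ((q n : ℕ) : ℝ)⁻¹ else 0) * w8 q (fun i => V i.succ) (n + 1) := by
  unfold w8
  rw [Fin.prod_univ_succ]
  congr 1
  apply Finset.prod_congr rfl
  intro i _
  have : n + ((i.succ : Fin (m + 1)) : ℕ) = n + 1 + (i : ℕ) := by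
    rw [Fin.val_succ]; ring
  rw [this]

lemma EEE_succ (q : ℕ → ℕ) (hq2 : ∀ n, 2 ≤ q n) (hq : ∀ n, q n ≤ 128) (m n : ℕ) (c : ℝ) :
    EEE q (m + 1) n c = (1 / (q n : ℝ)) * ∑ j ∈ Finset.range (q n), EEE q m (n + 1) (q n * c - j) := by
  classical
  have hb : (0 : ℝ) < q n := by
    have := hq2 n
    have : 0 < q n := by omega
    exact_mod_cast this
  unfold EEE
  rw [← Equiv.sum_comp (Fin.consEquiv (fun _ : Fin (m + 1) => Fin 129)), Fintype.sum_prod_type]
  have h1 : ∀ j : Fin 129, (∑ D' : Fin m → Fin 129,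
      (if svv (m + 1) (fun i => q (n + i)) (fun i => ((Fin.consEquiv (fun _ : Fin (m + 1) => Fin 129)) (j, D') i : ℕ)) < c then 1 else 0) *
        w8 q (fun i => ((Fin.consEquiv (fun _ : Fin (m + 1) => Fin 129)) (j, D') i : ℕ)) n) =
      if (j : ℕ) < q n then (1 / (q n : ℝ)) * (∑ D : Fin m → Fin 129,
        (if svv m (fun i => q (n + 1 + i)) (fun i => (D i : ℕ)) < q n * c - (j : ℕ) then 1 else 0) * w8 q (fun i => (D i : ℕ)) (n + 1)) else 0 := by
    intro j
    by_cases hj : (j : ℕ) < q n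
    · rw [if_pos hj, Finset.mul_sum]
      apply Finset.sum_congr rfl
      intro D' _
      rw [w8_succ]
      have e1 : svv (m + 1) (fun i => q (n + i)) (fun i => ((Fin.consEquiv (fun _ : Fin (m + 1) => Fin 129)) (j, D') i : ℕ)) =
          ((j : ℕ) + svv m (fun i => q (n + 1 + i)) (fun i => (D' i : ℕ))) / (q n : ℝ) := by
        rw [svv]
        congr 2
        · congr 1
          ext i
          show q (n + ((i.succ : Fin (m + 1)) : ℕ)) = q (n + 1 + i)
          have : n + ((i.succ : Fin (m + 1)) : ℕ) = n + 1 + (i : ℕ) := by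
            rw [Fin.val_succ]; ring
          rw [this]
      rw [e1]
      have e2 : (((j : ℕ) + svv m (fun i => q (n + 1 + i)) (fun i => (D' i : ℕ))) / (q n : ℝ) < c) ↔
          (svv m (fun i => q (n + 1 + i)) (fun i => (D' i : ℕ)) < q n * c - (j : ℕ)) := by
        rw [div_lt_iff₀ hb]
        constructor <;> intro h <;> linarith
      have e3 : ((Fin.consEquiv (fun _ : Fin (m + 1) => Fin 129)) (j, D') 0 : ℕ) = (j : ℕ) := rfl
      have e4 : (fun i : Fin m => ((Fin.consEquiv (fun _ : Fin (m + 1) => Fin 129)) (j, D') i.succ : ℕ)) = fun i => (D' i : ℕ) := rfl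
      rw [if_congr e2 rfl rfl, e4]
      simp only [e3, if_pos hj]
      ring
    · rw [if_neg hj]
      apply Finset.sum_eq_zero
      intro D' _
      rw [w8_succ]
      have e3 : ((Fin.consEquiv (fun _ : Fin (m + 1) => Fin 129)) (j, D') 0 : ℕ) = (j : ℕ) := rfl
      simp only [e3, if_neg hj]
      ring
  rw [Finset.sum_congr rfl (fun j _ => h1 j)]
  rw [Finset.mul_sum]
  have h2 := Fin.sum_univ_eq_sum_range (fun j : ℕ => if j < q n then (1 / (q n : ℝ)) * (∑ D : Fin m → Fin 129,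
        (if svv m (fun i => q (n + 1 + i)) (fun i => (D i : ℕ)) < q n * c - (j : ℕ) then 1 else 0) * w8 q (fun i => (D i : ℕ)) (n + 1)) else 0) 129
  rw [h2, ← Finset.sum_filter]
  apply Finset.sum_congr
  · ext j
    have := hq n
    simp only [Finset.mem_filter, Finset.mem_range]
    omega
  · intro j _
    rfl

lemma EEE_bd (q : ℕ → ℕ) (hq2 : ∀ n, 2 ≤ q n) (hq : ∀ n, q n ≤ 128) (m : ℕ) :
    ∀ (n : ℕ) (c : ℝ), (c ≤ 0 → EEE q m n c = 0) ∧ (1 ≤ c → EEE q m n c = 1) ∧
      (0 ≤ c → c ≤ 1 → |EEE q m n c - c| ≤ (1 / 2) ^ m) := by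
  induction m with
  | zero =>
    intro n c
    rw [EEE_zero]
    refine ⟨fun h => if_neg (not_lt.2 h), fun h => if_pos (by linarith), fun h0 h1 => ?_⟩
    rw [pow_zero]
    split_ifs with h
    · rw [abs_le]; constructor <;> linarith
    · rw [abs_le]; constructor <;> linarith
  | succ m ih =>
    intro n c
    have hb : (2 : ℝ) ≤ q n := by exact_mod_cast hq2 n
    have hb0 : (0 : ℝ) < q n := by linarith
    rw [EEE_succ q hq2 hq]
    refine ⟨fun h => ?_, fun h => ?_, fun h0 h1 => ?_⟩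
    · rw [Finset.sum_eq_zero, mul_zero]
      intro j _
      apply (ih (n + 1) _).1
      have : (0 : ℝ) ≤ j := by positivity
      nlinarith
    · rw [Finset.sum_congr rfl (g := fun _ => (1 : ℝ))]
      · rw [Finset.sum_const, Finset.card_range, nsmul_eq_mul]
        field_simp
      · intro j hj
        apply (ih (n + 1) _).2.1
        have : (j : ℝ) + 1 ≤ q n := by
          exact_mod_cast (Finset.mem_range.1 hj)
        nlinarith
    · by_cases hc1 : c = 1
      · subst hc1
        rw [Finset.sum_congr rfl (g := fun _ => (1 : ℝ))]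
        · rw [Finset.sum_const, Finset.card_range, nsmul_eq_mul]
          have : 1 / (q n : ℝ) * (q n * 1) - 1 = 0 := by field_simp; ring
          rw [this, abs_zero]
          positivity
        · intro j hj
          apply (ih (n + 1) _).2.1
          have : (j : ℝ) + 1 ≤ q n := by
            exact_mod_cast (Finset.mem_range.1 hj)
          nlinarith
      · have hc1' : c < 1 := lt_of_le_of_ne h1 hc1
        have hbc : 0 ≤ (q n : ℝ) * c := by positivity
        set k := ⌊(q n : ℝ) * c⌋₊ with hk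
        have hk1 : (k : ℝ) ≤ q n * c := Nat.floor_le hbc
        have hk2 : (q n : ℝ) * c < k + 1 := Nat.lt_floor_add_one _
        have hkb : k < q n := by
          have : (k : ℝ) < q n := by nlinarith
          exact_mod_cast this
        have hs : ∑ j ∈ Finset.range (q n), EEE q m (n + 1) (q n * c - j) = k + EEE q m (n + 1) (q n * c - k) := by
          have h3 : q n = k + 1 + (q n - (k + 1)) := by omega
          rw [h3, Finset.sum_range_add, ← h3, Finset.sum_range_succ]
          have h4 : ∑ j ∈ Finset.range k, EEE q m (n + 1) (q n * c - j) = k := by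
            rw [Finset.sum_congr rfl (g := fun _ => (1 : ℝ))]
            · simp
            · intro j hj
              apply (ih (n + 1) _).2.1
              have : (j : ℝ) + 1 ≤ k := by exact_mod_cast (Finset.mem_range.1 hj)
              linarith
          have h5 : ∑ x ∈ Finset.range (q n - (k + 1)), EEE q m (n + 1) (q n * c - ((k + 1 + x : ℕ) : ℝ)) = 0 := by
            apply Finset.sum_eq_zero
            intro x _
            apply (ih (n + 1) _).1
            push_cast
            have : (0 : ℝ) ≤ x := by positivity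
            linarith
          rw [h4, h5]
          ring
        rw [hs]
        have h6 := (ih (n + 1) (q n * c - k)).2.2 (by linarith) (by linarith)
        have h7 : 1 / (q n : ℝ) * (k + EEE q m (n + 1) (q n * c - k)) - c =
            (1 / (q n : ℝ)) * (EEE q m (n + 1) (q n * c - k) - (q n * c - k)) := by
          field_simp
          ring
        rw [h7, abs_mul, abs_of_pos (by positivity : (0 : ℝ) < 1 / q n), pow_succ, mul_comm]
        apply mul_le_mul h6 _ (by positivity) (by positivity)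
        rw [div_le_div_iff₀ hb0 (by norm_num)]
        linarith

lemma svv_T (q d : ℕ → ℕ) (hq2 : ∀ n, 2 ≤ q n) (T : ℕ → ℝ) (hT : ∀ n, T n ∈ Set.Ico (0 : ℝ) 1)
    (hT' : ∀ n, T n = (d n + T (n + 1)) / q n) (m : ℕ) :
    ∀ n, svv m (fun i => q (n + i)) (fun i => d (n + i)) ≤ T n ∧
      T n < svv m (fun i => q (n + i)) (fun i => d (n + i)) + (1 / 2) ^ m := by
  induction m with
  | zero =>
    intro n
    simp only [svv, pow_zero]
    exact ⟨(hT n).1, by linarith [(hT n).2]⟩
  | succ m ih =>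
    intro n
    have hb : (2 : ℝ) ≤ q n := by exact_mod_cast hq2 n
    have hb0 : (0 : ℝ) < q n := by linarith
    have e1 : svv (m + 1) (fun i => q (n + i)) (fun i => d (n + i)) =
        ((d n : ℝ) + svv m (fun i => q (n + 1 + i)) (fun i => d (n + 1 + i))) / (q n : ℝ) := by
      rw [svv]
      congr 2
      have h1 : ∀ i : Fin m, n + ((i.succ : Fin (m + 1)) : ℕ) = n + 1 + (i : ℕ) := by
        intro i; rw [Fin.val_succ]; ring
      simp only [h1]
    rw [e1]
    obtain ⟨h1, h2⟩ := ih (n + 1)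
    have hTn := hT' n
    constructor
    · rw [hTn]
      gcongr
    · rw [hTn, pow_succ, div_add' _ _ _ hb0.ne']
      apply (div_lt_div_iff_of_pos_right hb0).2
      have : (0 : ℝ) < (1 / 2) ^ m := by positivity
      nlinarith

open Classical in
lemma cnt_eq_j11 (P : ℕ → Prop) (N : ℕ) : (cnt P N : ℝ) = ∑ n ∈ Finset.range N, if P n then (1 : ℝ) else 0 := by
  unfold cnt
  rw [Finset.sum_ite, Finset.sum_const_zero, add_zero, Finset.sum_const, nsmul_eq_mul, mul_one]

open Classical in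
lemma sm_eq_j11 (P : ℕ → Prop) (g : ℕ → ℝ) (N : ℕ) : sm P g N = ∑ n ∈ Finset.range N, if P n then g n else 0 := by
  unfold sm
  rw [Finset.sum_filter]

lemma lim_svv (q d : ℕ → ℕ) (hq : ∀ n, q n ≤ 128) (hd : ∀ n, d n < q n)
    (hJ : ∀ (ℓ : ℕ) (B D : Fin ℓ → ℕ), Tendsto (fun N : ℕ =>
      ((cnt (fun n => (∀ i : Fin ℓ, q (n + i) = B i) ∧ ∀ i : Fin ℓ, d (n + i) = D i) N : ℝ) -
        sm (fun n => ∀ i : Fin ℓ, q (n + i) = B i) (w8 q D) N) / N)
      atTop (𝓝 0)) (m : ℕ) (c : ℝ) :
    Tendsto (fun N : ℕ => ((cnt (fun n => svv m (fun i => q (n + i)) (fun i => d (n + i)) < c) N : ℝ) -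
      ∑ n ∈ Finset.range N, EEE q m n c) / N) atTop (𝓝 0) := by
  classical
  have e1 : ∀ N : ℕ, (cnt (fun n => svv m (fun i => q (n + i)) (fun i => d (n + i)) < c) N : ℝ) =
      ∑ B : Fin m → Fin 129, ∑ D : Fin m → Fin 129, (if svv m (fun i => (B i : ℕ)) (fun i => (D i : ℕ)) < c then (1 : ℝ) else 0) *
        (cnt (fun n => (∀ i : Fin m, q (n + i) = (B i : ℕ)) ∧ ∀ i : Fin m, d (n + i) = (D i : ℕ)) N : ℝ) := by
    intro N
    simp_rw [cnt_eq_j11, Finset.mul_sum]
    refine Eq.symm ?_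
    refine (Finset.sum_congr rfl (fun B _ => Finset.sum_comm)).trans ?_
    rw [Finset.sum_comm]
    refine Eq.symm ?_
    apply Finset.sum_congr rfl
    intro n _
    have hB : ∀ i : Fin m, q (n + i) < 129 := fun i => by have := hq (n + i); omega
    have hD : ∀ i : Fin m, d (n + i) < 129 := fun i => by have := hq (n + i); have := hd (n + i); omega
    rw [Finset.sum_eq_single (fun i : Fin m => (⟨q (n + i), hB i⟩ : Fin 129))]
    · rw [Finset.sum_eq_single (fun i : Fin m => (⟨d (n + i), hD i⟩ : Fin 129))]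
      · simp
      · intro D _ hne
        refine mul_eq_zero_of_right _ (if_neg ?_)
        rintro ⟨-, h⟩
        apply hne
        ext i
        simp [h i]
      · simp
    · intro B _ hne
      apply Finset.sum_eq_zero
      intro D _
      rw [if_neg (c := (∀ i : Fin m, q (n + i) = (B i : ℕ)) ∧ ∀ i : Fin m, d (n + i) = (D i : ℕ)), mul_zero]
      rintro ⟨h, -⟩
      apply hne
      ext i
      simp [h i]
    · simp
  have e2 : ∀ N : ℕ, ∑ n ∈ Finset.range N, EEE q m n c =
      ∑ B : Fin m → Fin 129, ∑ D : Fin m → Fin 129, (if svv m (fun i => (B i : ℕ)) (fun i => (D i : ℕ)) < c then (1 : ℝ) else 0) *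
        sm (fun n => ∀ i : Fin m, q (n + i) = (B i : ℕ)) (w8 q (fun i => (D i : ℕ))) N := by
    intro N
    simp_rw [sm_eq_j11, Finset.mul_sum]
    refine Eq.symm ?_
    refine (Finset.sum_congr rfl (fun B _ => Finset.sum_comm)).trans ?_
    rw [Finset.sum_comm]
    refine Eq.symm ?_
    apply Finset.sum_congr rfl
    intro n _
    have hB : ∀ i : Fin m, q (n + i) < 129 := fun i => by have := hq (n + i); omega
    rw [Finset.sum_eq_single (fun i : Fin m => (⟨q (n + i), hB i⟩ : Fin 129))]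
    · unfold EEE
      simp
    · intro B _ hne
      apply Finset.sum_eq_zero
      intro D _
      rw [if_neg (c := (∀ i : Fin m, q (n + i) = (B i : ℕ))), mul_zero]
      intro h
      apply hne
      ext i
      simp [h i]
    · simp
  have e3 : (fun N : ℕ => ((cnt (fun n => svv m (fun i => q (n + i)) (fun i => d (n + i)) < c) N : ℝ) -
      ∑ n ∈ Finset.range N, EEE q m n c) / N) = fun N : ℕ =>
      ∑ B : Fin m → Fin 129, ∑ D : Fin m → Fin 129, (if svv m (fun i => (B i : ℕ)) (fun i => (D i : ℕ)) < c then (1 : ℝ) else 0) *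
        (((cnt (fun n => (∀ i : Fin m, q (n + i) = (B i : ℕ)) ∧ ∀ i : Fin m, d (n + i) = (D i : ℕ)) N : ℝ) -
          sm (fun n => ∀ i : Fin m, q (n + i) = (B i : ℕ)) (w8 q (fun i => (D i : ℕ))) N) / N) := by
    ext N
    rw [e1, e2, ← Finset.sum_sub_distrib, Finset.sum_div]
    apply Finset.sum_congr rfl
    intro B _
    rw [← Finset.sum_sub_distrib, Finset.sum_div]
    apply Finset.sum_congr rfl
    intro D _
    ring
  rw [e3]
  have h0 : (∑ B : Fin m → Fin 129, ∑ D : Fin m → Fin 129, (if svv m (fun i => (B i : ℕ)) (fun i => (D i : ℕ)) < c then (1 : ℝ) else 0) * 0) = 0 := by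
    simp
  have h : Tendsto (fun N : ℕ =>
      ∑ B : Fin m → Fin 129, ∑ D : Fin m → Fin 129, (if svv m (fun i => (B i : ℕ)) (fun i => (D i : ℕ)) < c then (1 : ℝ) else 0) *
        (((cnt (fun n => (∀ i : Fin m, q (n + i) = (B i : ℕ)) ∧ ∀ i : Fin m, d (n + i) = (D i : ℕ)) N : ℝ) -
          sm (fun n => ∀ i : Fin m, q (n + i) = (B i : ℕ)) (w8 q (fun i => (D i : ℕ))) N) / N)) atTop
      (𝓝 (∑ B : Fin m → Fin 129, ∑ D : Fin m → Fin 129, (if svv m (fun i => (B i : ℕ)) (fun i => (D i : ℕ)) < c then (1 : ℝ) else 0) * 0)) := by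
    apply tendsto_finsetSum
    intro B _
    apply tendsto_finsetSum
    intro D _
    exact (hJ m (fun i => (B i : ℕ)) (fun i => (D i : ℕ))).const_mul _
  rw [h0] at h
  exact h

lemma cnt_mono {P Q : ℕ → Prop} (h : ∀ n, P n → Q n) (N : ℕ) : (cnt P N : ℝ) ≤ cnt Q N := by
  classical
  unfold cnt
  exact_mod_cast Finset.card_le_card (Finset.monotone_filter_right _ (fun n _ hn => h n hn))

lemma dist_below (q d : ℕ → ℕ) (hq2 : ∀ n, 2 ≤ q n) (hq : ∀ n, q n ≤ 128)
    (hd : ∀ n, d n < q n)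
    (hJ : ∀ (ℓ : ℕ) (B D : Fin ℓ → ℕ), Tendsto (fun N : ℕ =>
      ((cnt (fun n => (∀ i : Fin ℓ, q (n + i) = B i) ∧ ∀ i : Fin ℓ, d (n + i) = D i) N : ℝ) -
        sm (fun n => ∀ i : Fin ℓ, q (n + i) = B i) (w8 q D) N) / N)
      atTop (𝓝 0))
    (T : ℕ → ℝ) (hT : ∀ n, T n ∈ Set.Ico (0 : ℝ) 1) (hT' : ∀ n, T n = (d n + T (n + 1)) / q n)
    (c : ℝ) (h0 : 0 ≤ c) (h1 : c ≤ 1) :
    Tendsto (fun N : ℕ => (cnt (fun n => T n < c) N : ℝ) / N) atTop (𝓝 c) := by
  rw [Metric.tendsto_atTop]
  intro ε hε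
  obtain ⟨m, hm⟩ := exists_pow_lt_of_lt_one (show (0 : ℝ) < ε / 4 by positivity) (show (1 / 2 : ℝ) < 1 by norm_num)
  set δ : ℝ := (1 / 2) ^ m with hδ
  have hδ0 : 0 < δ := by positivity
  have hup := lim_svv q d hq hd hJ m c
  have hlo := lim_svv q d hq hd hJ m (c - δ)
  rw [Metric.tendsto_atTop] at hup hlo
  obtain ⟨N1, hN1⟩ := hup (ε / 4) (by positivity)
  obtain ⟨N2, hN2⟩ := hlo (ε / 4) (by positivity)
  refine ⟨max (max N1 N2) 1, fun N hN => ?_⟩
  have hNN1 := hN1 N (le_trans (le_max_left _ _) (le_trans (le_max_left _ _) hN))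
  have hNN2 := hN2 N (le_trans (le_max_right _ _) (le_trans (le_max_left _ _) hN))
  have hN0 : (0 : ℝ) < N := by
    have : 1 ≤ N := le_trans (le_max_right _ _) hN
    exact_mod_cast this
  rw [Real.dist_eq, sub_zero, abs_lt] at hNN1 hNN2
  have hsT := svv_T q d hq2 T hT hT' m
  have c1 : (cnt (fun n => T n < c) N : ℝ) ≤ cnt (fun n => svv m (fun i => q (n + i)) (fun i => d (n + i)) < c) N :=
    cnt_mono (fun n hn => lt_of_le_of_lt (hsT n).1 hn) N
  have c2 : (cnt (fun n => svv m (fun i => q (n + i)) (fun i => d (n + i)) < c - δ) N : ℝ) ≤ cnt (fun n => T n < c) N :=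
    cnt_mono (fun n hn => by have := (hsT n).2; linarith) N
  have s1 : ∑ n ∈ Finset.range N, EEE q m n c ≤ N * (c + δ) := by
    have : ∀ n ∈ Finset.range N, EEE q m n c ≤ c + δ := by
      intro n _
      have := (EEE_bd q hq2 hq m n c).2.2 h0 h1
      rw [abs_le] at this
      linarith [this.2]
    calc _ ≤ ∑ n ∈ Finset.range N, (c + δ) := Finset.sum_le_sum this
      _ = N * (c + δ) := by rw [Finset.sum_const, Finset.card_range, nsmul_eq_mul]
  have s2 : N * (c - 2 * δ) ≤ ∑ n ∈ Finset.range N, EEE q m n (c - δ) := by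
    have : ∀ n ∈ Finset.range N, c - 2 * δ ≤ EEE q m n (c - δ) := by
      intro n _
      by_cases hc : 0 ≤ c - δ
      · have := (EEE_bd q hq2 hq m n (c - δ)).2.2 hc (by linarith)
        rw [abs_le] at this
        linarith [this.1]
      · rw [(EEE_bd q hq2 hq m n (c - δ)).1 (by linarith)]
        linarith
    calc N * (c - 2 * δ) = ∑ n ∈ Finset.range N, (c - 2 * δ) := by rw [Finset.sum_const, Finset.card_range, nsmul_eq_mul]
      _ ≤ _ := Finset.sum_le_sum this
  rw [Real.dist_eq, abs_lt]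
  have k1 := hNN1.2
  have k2 := hNN2.1
  rw [div_lt_iff₀ hN0] at k1
  rw [lt_div_iff₀ hN0] at k2
  constructor
  · rw [lt_sub_iff_add_lt, lt_div_iff₀ hN0]
    nlinarith
  · rw [sub_lt_iff_lt_add, div_lt_iff₀ hN0]
    nlinarith

theorem dn_of_joint (q d : ℕ → ℕ) (hq2 : ∀ n, 2 ≤ q n) (hq : ∀ n, q n ≤ 128)
    (hd : ∀ n, d n < q n)
    (hJ : ∀ (ℓ : ℕ) (B D : Fin ℓ → ℕ), Tendsto (fun N : ℕ =>
      ((cnt (fun n => (∀ i : Fin ℓ, q (n + i) = B i) ∧ ∀ i : Fin ℓ, d (n + i) = D i) N : ℝ) -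
        sm (fun n => ∀ i : Fin ℓ, q (n + i) = B i) (w8 q D) N) / N)
      atTop (𝓝 0))
    (T : ℕ → ℝ) (hT : ∀ n, T n ∈ Set.Ico (0 : ℝ) 1) (hT' : ∀ n, T n = (d n + T (n + 1)) / q n)
    (a b : ℝ) (ha : 0 ≤ a) (hab : a < b) (hb : b ≤ 1) :
    Tendsto (fun N : ℕ => (cnt (fun n => T n ∈ Set.Ico a b) N : ℝ) / N) atTop (𝓝 (b - a)) := by
  classical
  have h1 := dist_below q d hq2 hq hd hJ T hT hT' a ha (by linarith)
  have h2 := dist_below q d hq2 hq hd hJ T hT hT' b (by linarith) hb
  have h3 := h2.sub h1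
  refine h3.congr ?_
  intro N
  rw [← sub_div]
  congr 1
  rw [cnt_eq_j11, cnt_eq_j11, cnt_eq_j11, ← Finset.sum_sub_distrib]
  apply Finset.sum_congr rfl
  intro n _
  by_cases hb' : T n < b
  · by_cases ha' : T n < a
    · have : ¬ (T n ∈ Set.Ico a b) := fun h => absurd h.1 (not_le.2 ha')
      rw [if_pos hb', if_pos ha', if_neg this]
      ring
    · have : T n ∈ Set.Ico a b := ⟨not_lt.1 ha', hb'⟩
      rw [if_pos hb', if_neg ha', if_pos this]
      ring
  · have h4 : ¬ (T n < a) := fun h => hb' (lt_trans h hab)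
    have : ¬ (T n ∈ Set.Ico a b) := fun h => hb' h.2
    rw [if_neg hb', if_neg h4, if_neg this]
    ring

end Pool.Agent.X886.INV
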