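import Pool.Agent.X886.INV.Core
import Pool.Agent.X886.INV.Defs

/-!
# uniform normality
-/

namespace Pool.Agent.X886.INV

open Filter MeasureTheory Topology

theorem cnt_Icc_aux (P : ℕ → Prop) [DecidablePred P] (N : ℕ) :
    ((Finset.Icc 1 N).filter P).card = cnt (fun n => P (n + 1)) N := by
  classical
  unfold cnt
  refine Finset.card_nbij' (fun a => a - 1) (fun a => a + 1) ?_ ?_ ?_ ?_
  · intro a ha
    simp only [Finset.coe_filter, Finset.mem_Icc, Finset.mem_range, Set.mem_ofPred_eq] at ha ⊢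
    obtain ⟨⟨h1, h2⟩, h3⟩ := ha
    refine ⟨by omega, ?_⟩
    have : a - 1 + 1 = a := by omega
    rw [this]; exact h3
  · intro a ha
    simp only [Finset.coe_filter, Finset.mem_Icc, Finset.mem_range, Set.mem_ofPred_eq] at ha ⊢
    exact ⟨by omega, ha.2⟩
  · intro a ha
    simp only [Finset.coe_filter, Finset.mem_Icc, Set.mem_ofPred_eq] at ha
    show a - 1 + 1 = a
    omega
  · intro a _
    show a + 1 - 1 = a
    omega

theorem cnt_zero_aux (P : ℕ → Prop) (h : ∀ n, ¬ P n) (N : ℕ) : cnt P N = 0 := by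
  classical
  unfold cnt
  exact Finset.card_eq_zero.2 (Finset.filter_eq_empty_iff.2 fun n _ => h n)

theorem sm_const_aux (P : ℕ → Prop) (g : ℕ → ℝ) (c : ℝ) (h : ∀ n, P n → g n = c) (N : ℕ) :
    sm P g N = c * (cnt P N : ℝ) := by
  classical
  unfold sm cnt
  rw [Finset.sum_congr rfl fun j hj => h j (Finset.mem_filter.1 hj).2, Finset.sum_const,
    nsmul_eq_mul, mul_comm]

/-- the constant weight -/
noncomputable def cst {ℓ : ℕ} (D B : Fin ℓ → ℕ) : ℝ :=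
  ∏ i : Fin ℓ, if D i < B i then ((B i : ℕ) : ℝ)⁻¹ else 0

theorem cst_nonneg {ℓ : ℕ} (D B : Fin ℓ → ℕ) : 0 ≤ cst D B := by
  unfold cst
  refine Finset.prod_nonneg fun i _ => ?_
  split_ifs <;> positivity

theorem QQB_eq (Q : ℕ → ℕ) {ℓ : ℕ} (D B : Fin ℓ → ℕ) (N : ℕ) :
    QQB Q D B N = cst D B * (cnt (fun n => ∀ i : Fin ℓ, Q (n + i + 1) = B i) N : ℝ) := by
  classical
  unfold QQB
  have h1 : ∀ j ∈ (Finset.Icc 1 N).filter (fun j => ∀ i : Fin ℓ, Q (j + i) = B i),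
      wt Q D j = cst D B := by
    intro j hj
    have hj' := (Finset.mem_filter.1 hj).2
    unfold wt cst
    refine Finset.prod_congr rfl fun i _ => ?_
    rw [hj' i]
  rw [Finset.sum_congr rfl h1, Finset.sum_const, nsmul_eq_mul, mul_comm]
  congr 2
  rw [cnt_Icc_aux]
  congr 1
  funext n
  refine propext (forall_congr' fun i => ?_)
  rw [show n + 1 + (i : ℕ) = n + i + 1 by ring]

theorem sm_eq_j12 (Q : ℕ → ℕ) {ℓ : ℕ} (D B : Fin ℓ → ℕ) (N : ℕ) :
    sm (fun n => ∀ i : Fin ℓ, Q (n + i + 1) = B i) (w8 (fun m => Q (m + 1)) D) N =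
      cst D B * (cnt (fun n => ∀ i : Fin ℓ, Q (n + i + 1) = B i) N : ℝ) := by
  classical
  unfold sm
  have h1 : ∀ j, (∀ i : Fin ℓ, Q (j + i + 1) = B i) →
      w8 (fun m => Q (m + 1)) D j = cst D B := by
    intro j hj'
    unfold w8 cst
    refine Finset.prod_congr rfl fun i _ => ?_
    show (if D i < Q (j + i + 1) then ((Q (j + i + 1) : ℕ) : ℝ)⁻¹ else 0) = _
    rw [hj' i]
  exact sm_const_aux _ _ _ h1 N

theorem NNB_eq (Q : ℕ → ℕ) {ℓ : ℕ} (D B : Fin ℓ → ℕ) (x : ℝ) (N : ℕ) :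
    NNB Q D B x N = cnt (fun n => (∀ i : Fin ℓ, Q (n + i + 1) = B i) ∧
          ∀ i : Fin ℓ, dig Q x (n + i + 1) = D i) N := by
  classical
  unfold NNB
  rw [cnt_Icc_aux]
  congr 1
  funext n
  refine propext (and_congr (forall_congr' fun i => ?_) (forall_congr' fun i => ?_))
  · rw [show n + 1 + (i : ℕ) = n + i + 1 by ring]
  · rw [show n + 1 + (i : ℕ) = n + i + 1 by ring]

theorem un_of_joint (Q : ℕ → ℕ) (x : ℝ) (hQ : ∀ n, 2 ≤ Q n)
    (hJ : ∀ (ℓ : ℕ) (B D : Fin ℓ → ℕ), Tendsto (fun N : ℕ =>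
      ((cnt (fun n => (∀ i : Fin ℓ, Q (n + i + 1) = B i) ∧
          ∀ i : Fin ℓ, dig Q x (n + i + 1) = D i) N : ℝ) -
        sm (fun n => ∀ i : Fin ℓ, Q (n + i + 1) = B i) (w8 (fun m => Q (m + 1)) D) N) / N)
      atTop (𝓝 0))
    (hpos : ∀ (ℓ : ℕ) (B : Fin ℓ → ℕ), (∃ n, ∀ i : Fin ℓ, Q (n + i + 1) = B i) →
      ∃ p : ℝ, 0 < p ∧ Tendsto (fun N : ℕ =>
        (cnt (fun n => ∀ i : Fin ℓ, Q (n + i + 1) = B i) N : ℝ) / N) atTop (𝓝 p))
    (ℓ : ℕ) (D B : Fin ℓ → ℕ) (hDB : Tendsto (QQB Q D B) atTop atTop) :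
    Tendsto (fun n => (NNB Q D B x n : ℝ) / QQB Q D B n) atTop (𝓝 1) := by
  have _ := hQ
  obtain ⟨N0, hN0⟩ := (hDB.eventually_gt_atTop 0).exists
  rw [QQB_eq] at hN0
  have hc0 := cst_nonneg D B
  have hc : 0 < cst D B := by
    rcases hc0.lt_or_eq with h | h
    · exact h
    · rw [← h] at hN0; simp at hN0
  have hex : ∃ n, ∀ i : Fin ℓ, Q (n + i + 1) = B i := by
    by_contra hcon
    have : cnt (fun n => ∀ i : Fin ℓ, Q (n + i + 1) = B i) N0 = 0 := by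
      exact cnt_zero_aux _ (fun n hn => hcon ⟨n, hn⟩) N0
    rw [this] at hN0
    simp at hN0
  obtain ⟨p, hp, hlim⟩ := hpos ℓ B hex
  have h1 : Tendsto (fun N : ℕ => QQB Q D B N / N) atTop (𝓝 (cst D B * p)) := by
    have := hlim.const_mul (cst D B)
    refine this.congr fun N => ?_
    rw [QQB_eq, mul_div_assoc]
  have h2 : Tendsto (fun N : ℕ => ((NNB Q D B x N : ℝ) - QQB Q D B N) / N) atTop (𝓝 0) := by
    refine (hJ ℓ B D).congr fun N => ?_
    rw [NNB_eq, sm_eq_j12, QQB_eq]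
  have hcp : cst D B * p ≠ 0 := (mul_pos hc hp).ne'
  have h3 : Tendsto (fun N : ℕ => 1 + (((NNB Q D B x N : ℝ) - QQB Q D B N) / N) /
      (QQB Q D B N / N)) atTop (𝓝 (1 + 0 / (cst D B * p))) :=
    tendsto_const_nhds.add (h2.div h1 hcp)
  rw [zero_div, add_zero] at h3
  refine h3.congr' ?_
  filter_upwards [hDB.eventually_gt_atTop 0, eventually_gt_atTop 0] with N hN hN1
  have hN2 : (0 : ℝ) < N := by exact_mod_cast hN1
  field_simp
  ring

theorem cnt_Icc (P : ℕ → Prop) [DecidablePred P] (N : ℕ) :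
    ((Finset.Icc 1 N).filter P).card = cnt (fun n => P (n + 1)) N := cnt_Icc_aux P N

end Pool.Agent.X886.INV
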