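import Pool.Agent.X886.INV.Core
import Pool.Agent.X886.INV.Defs
import Pool.Agent.X886.INV.J12

/-!
# counts of a normal number
-/

namespace Pool.Agent.X886.INV

open Filter MeasureTheory Topology

theorem aux_orb_mem (Q : ℕ → ℕ) (x : ℝ) (n : ℕ) : orb Q x n ∈ Set.Ico (0 : ℝ) 1 :=
  ⟨Int.fract_nonneg _, Int.fract_lt_one _⟩

theorem aux_dig_lt (Q : ℕ → ℕ) (hQ : ∀ n, 2 ≤ Q n) (x : ℝ) (n : ℕ) :
    dig Q x (n + 1) < Q (n + 1) := by
  have h := aux_orb_mem Q x n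
  have hq : (0 : ℝ) < (Q (n + 1) : ℝ) := by
    have := hQ (n + 1)
    exact_mod_cast (by omega : 0 < Q (n + 1))
  unfold dig
  rw [Nat.add_sub_cancel, Nat.floor_lt (mul_nonneg hq.le h.1)]
  calc (Q (n + 1) : ℝ) * orb Q x n < (Q (n + 1) : ℝ) * 1 := by
        exact mul_lt_mul_of_pos_left h.2 hq
    _ = (Q (n + 1) : ℝ) := mul_one _

theorem aux_orb_eq (Q : ℕ → ℕ) (hQ : ∀ n, 2 ≤ Q n) (x : ℝ) (n : ℕ) :
    orb Q x n = (dig Q x (n + 1) + orb Q x (n + 1)) / Q (n + 1) := by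
  have h := aux_orb_mem Q x n
  have hq : (0 : ℝ) < (Q (n + 1) : ℝ) := by
    have := hQ (n + 1)
    exact_mod_cast (by omega : 0 < Q (n + 1))
  rw [eq_div_iff hq.ne']
  have h1 : orb Q x (n + 1) = Int.fract ((Q (n + 1) : ℝ) * orb Q x n) := by
    unfold orb
    rw [Finset.prod_Icc_succ_top (by omega : 1 ≤ n + 1)]
    set z : ℝ := ((∏ i ∈ Finset.Icc 1 n, Q i : ℕ) : ℝ) * x with hz
    have e1 : (((∏ i ∈ Finset.Icc 1 n, Q i) * Q (n + 1) : ℕ) : ℝ) * x = (Q (n + 1) : ℝ) * z := by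
      rw [hz, Nat.cast_mul]; ring
    rw [e1]
    have e2 : (Q (n + 1) : ℝ) * Int.fract z
        = (Q (n + 1) : ℝ) * z - (((Q (n + 1) : ℤ) * ⌊z⌋ : ℤ) : ℝ) := by
      rw [Int.fract]; push_cast; ring
    rw [e2, Int.fract_sub_intCast]
  have h2 : (dig Q x (n + 1) : ℝ) = ((⌊(Q (n + 1) : ℝ) * orb Q x n⌋ : ℤ) : ℝ) := by
    unfold dig
    rw [Nat.add_sub_cancel]
    exact natCast_floor_eq_intCast_floor (mul_nonneg hq.le h.1)
  rw [h1, h2, Int.floor_add_fract, mul_comm]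

theorem aux_wt_nonneg (Q : ℕ → ℕ) {L : ℕ} (V : Fin L → ℕ) (j : ℕ) : 0 ≤ wt Q V j := by
  unfold wt
  apply Finset.prod_nonneg
  intro i _
  split_ifs
  · positivity
  · exact le_rfl

theorem aux_wt_le_one (Q : ℕ → ℕ) {L : ℕ} (V : Fin L → ℕ) (j : ℕ) : wt Q V j ≤ 1 := by
  unfold wt
  apply Finset.prod_le_one
  · intro i _
    split_ifs
    · positivity
    · exact le_rfl
  · intro i _
    split_ifs with h
    · exact Nat.cast_inv_le_one _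
    · exact zero_le_one

theorem aux_wt_ge (Q : ℕ → ℕ) (hQ : ∀ n, 2 ≤ Q n) (hQ' : ∀ n, Q n ≤ 128) {L : ℕ}
    (V : Fin L → ℕ) (j : ℕ) (h : ∀ i : Fin L, V i < Q (j + i)) :
    ((128 : ℝ)⁻¹) ^ L ≤ wt Q V j := by
  unfold wt
  have : ((128 : ℝ)⁻¹) ^ L = ∏ i : Fin L, (128 : ℝ)⁻¹ := by
    rw [Finset.prod_const, Finset.card_univ, Fintype.card_fin]
  rw [this]
  apply Finset.prod_le_prod
  · intro i _; positivity
  · intro i _
    rw [if_pos (h i)]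
    have h2 := hQ (j + i)
    have h3 : (Q (j + i) : ℝ) ≤ 128 := by exact_mod_cast hQ' (j + i)
    have h4 : (0 : ℝ) < (Q (j + i) : ℝ) := by
      exact_mod_cast (by omega : 0 < Q (j + i))
    exact inv_anti₀ h4 h3

theorem aux_QQ_eq (Q : ℕ → ℕ) {L : ℕ} (V : Fin L → ℕ) (N : ℕ) :
    QQ Q V N = ∑ n ∈ Finset.range N, wt Q V (n + 1) := by
  unfold QQ
  rw [Finset.range_eq_Ico, Finset.sum_Ico_add' (fun j => wt Q V j) 0 N 1]
  rfl

theorem aux_QQ_mono (Q : ℕ → ℕ) {L : ℕ} (V : Fin L → ℕ) : Monotone (QQ Q V) := by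
  apply monotone_nat_of_le_succ
  intro n
  rw [aux_QQ_eq, aux_QQ_eq, Finset.sum_range_succ]
  have := aux_wt_nonneg Q V (n + 1)
  linarith

theorem aux_QQ_nonneg (Q : ℕ → ℕ) {L : ℕ} (V : Fin L → ℕ) (N : ℕ) : 0 ≤ QQ Q V N := by
  unfold QQ
  exact Finset.sum_nonneg (fun j _ => aux_wt_nonneg Q V j)

theorem aux_QQ_le (Q : ℕ → ℕ) {L : ℕ} (V : Fin L → ℕ) (N : ℕ) : QQ Q V N ≤ N := by
  rw [aux_QQ_eq]
  calc ∑ n ∈ Finset.range N, wt Q V (n + 1) ≤ ∑ n ∈ Finset.range N, (1 : ℝ) :=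
        Finset.sum_le_sum (fun j _ => aux_wt_le_one Q V (j + 1))
    _ = N := by simp

theorem aux_NN_le (Q : ℕ → ℕ) (hQ : ∀ n, 2 ≤ Q n) (hQ' : ∀ n, Q n ≤ 128) (x : ℝ) {L : ℕ}
    (V : Fin L → ℕ) (N : ℕ) : (NN Q V x N : ℝ) * ((128 : ℝ)⁻¹) ^ L ≤ QQ Q V N := by
  classical
  unfold NN QQ
  rw [← nsmul_eq_mul]
  calc _ ≤ ∑ j ∈ (Finset.Icc 1 N).filter (fun j => ∀ i : Fin L, dig Q x (j + i) = V i),
        wt Q V j := by
        apply Finset.card_nsmul_le_sum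
        intro j hj
        rw [Finset.mem_filter, Finset.mem_Icc] at hj
        apply aux_wt_ge Q hQ hQ'
        intro i
        rw [← hj.2 i]
        obtain ⟨m, hm⟩ : ∃ m, j + (i : ℕ) = m + 1 := ⟨j + i - 1, by omega⟩
        rw [hm]
        exact aux_dig_lt Q hQ x m
    _ ≤ _ := by
        apply Finset.sum_le_sum_of_subset_of_nonneg (Finset.filter_subset _ _)
        intro j _ _
        exact aux_wt_nonneg Q V j

theorem aux_main (Q : ℕ → ℕ) (hQ : ∀ n, 2 ≤ Q n) (hQ' : ∀ n, Q n ≤ 128) (x : ℝ)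
    (hx : x ∈ NormalSet Q) (L : ℕ) (V : Fin L → ℕ) :
    Tendsto (fun N : ℕ => ((NN Q V x N : ℝ) - QQ Q V N) / N) atTop (𝓝 0) := by
  rcases tendsto_atTop_of_monotone (aux_QQ_mono Q V) with h | ⟨l, hl⟩
  · have h1 := hx.2 L V h
    have h2 : Tendsto (fun n => (NN Q V x n : ℝ) / QQ Q V n - 1) atTop (𝓝 0) := by
      have := h1.sub_const 1
      simpa using this
    have h3 : ∀ᶠ n in atTop, ((NN Q V x n : ℝ) - QQ Q V n) / n
        = ((NN Q V x n : ℝ) / QQ Q V n - 1) * (QQ Q V n / n) := by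
      filter_upwards [h.eventually_gt_atTop 0] with n hn
      field_simp
    refine Tendsto.congr' (EventuallyEq.symm h3) ?_
    refine squeeze_zero_norm (a := fun n => ‖(NN Q V x n : ℝ) / QQ Q V n - 1‖) ?_ ?_
    · intro n
      rw [norm_mul]
      have h4 : ‖QQ Q V n / (n : ℝ)‖ ≤ 1 := by
        rw [Real.norm_eq_abs, abs_of_nonneg (div_nonneg (aux_QQ_nonneg Q V n) (Nat.cast_nonneg n))]
        exact div_le_one_of_le₀ (aux_QQ_le Q V n) (Nat.cast_nonneg n)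
      calc _ ≤ ‖(NN Q V x n : ℝ) / QQ Q V n - 1‖ * 1 :=
            mul_le_mul_of_nonneg_left h4 (norm_nonneg _)
        _ = _ := mul_one _
    · simpa using h2.norm
  · have hle : ∀ n, QQ Q V n ≤ l := fun n => (aux_QQ_mono Q V).ge_of_tendsto hl n
    have hc : (0 : ℝ) < ((128 : ℝ)⁻¹) ^ L := by positivity
    have hNN : ∀ n, (NN Q V x n : ℝ) ≤ l / ((128 : ℝ)⁻¹) ^ L := by
      intro n
      rw [le_div_iff₀ hc]
      exact (aux_NN_le Q hQ hQ' x V n).trans (hle n)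
    have hl0 : 0 ≤ l := (aux_QQ_nonneg Q V 0).trans (hle 0)
    refine squeeze_zero_norm (a := fun n : ℕ => (l / ((128 : ℝ)⁻¹) ^ L + l) / (n : ℝ)) ?_ ?_
    · intro n
      rw [norm_div, Real.norm_eq_abs, Real.norm_eq_abs, abs_of_nonneg (Nat.cast_nonneg n : (0:ℝ) ≤ (n : ℝ))]
      apply div_le_div_of_nonneg_right _ (Nat.cast_nonneg n)
      have a1 := hNN n
      have a2 := hle n
      have a3 := aux_QQ_nonneg Q V n
      have a4 : (0 : ℝ) ≤ NN Q V x n := Nat.cast_nonneg _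
      rw [abs_le]
      constructor <;> linarith
    · exact tendsto_const_div_atTop_nhds_zero_nat _

theorem aux_w8 (Q : ℕ → ℕ) {L : ℕ} (V : Fin L → ℕ) (n : ℕ) :
    w8 (fun m => Q (m + 1)) V n = wt Q V (n + 1) := by
  unfold w8 wt
  apply Finset.prod_congr rfl
  intro i _
  have : n + (i : ℕ) + 1 = n + 1 + i := by omega
  simp only [this]

theorem aux_cnt (Q : ℕ → ℕ) (x : ℝ) {L : ℕ} (V : Fin L → ℕ) (N : ℕ) :
    cnt (fun n => ∀ i : Fin L, dig Q x (n + i + 1) = V i) N = NN Q V x N := by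
  classical
  have h := cnt_Icc (fun j => ∀ i : Fin L, dig Q x (j + i) = V i) N
  have h2 : (fun n => ∀ i : Fin L, dig Q x (n + i + 1) = V i)
      = (fun n => ∀ i : Fin L, dig Q x (n + 1 + i) = V i) := by
    funext n
    have : ∀ i : Fin L, n + (i : ℕ) + 1 = n + 1 + i := by intro i; omega
    simp only [this]
  rw [h2, ← h]
  unfold NN
  congr!

theorem counts_of_normal (Q : ℕ → ℕ) (hQ : ∀ n, 2 ≤ Q n) (hQ' : ∀ n, Q n ≤ 128) (x : ℝ)
    (hx : x ∈ NormalSet Q) (L : ℕ) (V : Fin L → ℕ) :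
    Tendsto (fun N : ℕ =>
      ((cnt (fun n => ∀ i : Fin L, dig Q x (n + i + 1) = V i) N : ℝ) -
        ∑ n ∈ Finset.range N, w8 (fun m => Q (m + 1)) V n) / N) atTop (𝓝 0) := by
  refine Tendsto.congr (fun N => ?_) (aux_main Q hQ hQ' x hx L V)
  rw [aux_cnt, aux_QQ_eq]
  simp only [aux_w8]

theorem dig_lt (Q : ℕ → ℕ) (hQ : ∀ n, 2 ≤ Q n) (x : ℝ) (n : ℕ) : dig Q x (n + 1) < Q (n + 1) := by
  exact aux_dig_lt Q hQ x n

theorem orb_mem (Q : ℕ → ℕ) (x : ℝ) (n : ℕ) : orb Q x n ∈ Set.Ico (0 : ℝ) 1 := by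
  exact aux_orb_mem Q x n

theorem orb_eq (Q : ℕ → ℕ) (hQ : ∀ n, 2 ≤ Q n) (x : ℝ) (n : ℕ) :
    orb Q x n = (dig Q x (n + 1) + orb Q x (n + 1)) / Q (n + 1) := by
  exact aux_orb_eq Q hQ x n

end Pool.Agent.X886.INV
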