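import Pool.Agent.X886.INV.Core

/-!
# normal sequence of bits
-/

namespace Pool.Agent.X886.INV

open Filter MeasureTheory Topology

/-- the fair coin -/
noncomputable def xcm : Measure Bool := (PMF.uniformOfFintype Bool).toMeasure

instance : IsProbabilityMeasure xcm := by unfold xcm; infer_instance

lemma xcm_singleton (b : Bool) : xcm {b} = 1 / 2 := by
  unfold xcm
  rw [PMF.toMeasure_apply_singleton _ _ (MeasurableSet.singleton b)]
  simp

noncomputable def xP : Measure (ℕ → Bool) := Measure.infinitePi (fun _ : ℕ => xcm)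

instance : IsProbabilityMeasure xP := by unfold xP; infer_instance

/-- the block at the place `a` -/
def xT (ℓ a : ℕ) (ω : ℕ → Bool) : Fin ℓ → Bool := fun i => ω (a + i)

lemma xT_meas (ℓ a : ℕ) : Measurable (xT ℓ a) := by
  unfold xT; fun_prop

lemma xT_map (ℓ a : ℕ) : xP.map (xT ℓ a) = Measure.infinitePi (fun _ : Fin ℓ => xcm) := by
  have h : Function.Injective (fun i : Fin ℓ => a + (i : ℕ)) := by
    intro i j hij
    apply Fin.ext
    simpa using hij
  exact Measure.map_infinitePi_infinitePi_of_inj (P := fun _ : ℕ => xcm) h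

open Classical in
/-- indicator -/
noncomputable def xg {ℓ : ℕ} (w v : Fin ℓ → Bool) : ℝ := if v = w then 1 else 0

lemma xg_meas {ℓ : ℕ} (w : Fin ℓ → Bool) : Measurable (xg w) := Measurable.of_discrete

lemma xint {ℓ : ℕ} (w : Fin ℓ → Bool) (a : ℕ) : ∫ ω, xg w (xT ℓ a ω) ∂xP = (1 / 2) ^ ℓ := by
  have h1 : ∫ ω, xg w (xT ℓ a ω) ∂xP = ∫ v, xg w v ∂(xP.map (xT ℓ a)) := by
    rw [integral_map (xT_meas ℓ a).aemeasurable (xg_meas w).aestronglyMeasurable]
  have h2 : (fun v : Fin ℓ → Bool => xg w v) = Set.indicator {w} (fun _ => (1 : ℝ)) := by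
    funext v
    unfold xg
    by_cases hv : v = w <;> simp [hv]
  rw [h1, xT_map, h2, integral_indicator (MeasurableSet.singleton w), Measure.infinitePi_eq_pi]
  simp only [integral_const, smul_eq_mul, mul_one, measureReal_restrict_apply_univ]
  rw [Measure.real, Measure.pi_singleton]
  simp only [xcm_singleton]
  simp

lemma xind {ℓ : ℕ} (w : Fin ℓ → Bool) (a b : ℕ) (hab : a + ℓ ≤ b) :
    ProbabilityTheory.IndepFun (fun ω => xg w (xT ℓ a ω)) (fun ω => xg w (xT ℓ b ω)) xP := by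
  have h0 : ProbabilityTheory.iIndepFun (fun (i : ℕ) (ω : ℕ → Bool) => ω i) xP :=
    ProbabilityTheory.iIndepFun_infinitePi (P := fun _ : ℕ => xcm) (X := fun _ b => b)
      (fun _ => measurable_id)
  have hd : Disjoint (Finset.Ico a (a + ℓ)) (Finset.Ico b (b + ℓ)) := by
    rw [Finset.disjoint_left]
    intro x hx hy
    rw [Finset.mem_Ico] at hx hy
    omega
  have h1 := h0.indepFun_finset _ _ hd (fun i => measurable_pi_apply i)
  have key : ∀ c : ℕ, ∃ φ : ((Finset.Ico c (c + ℓ) : Finset ℕ) → Bool) → ℝ, Measurable φ ∧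
      (fun ω => xg w (xT ℓ c ω)) = φ ∘ (fun (ω : ℕ → Bool) (i : (Finset.Ico c (c + ℓ) : Finset ℕ)) => ω i) := by
    intro c
    refine ⟨fun v => xg w (fun i : Fin ℓ => v ⟨c + i, by
      rw [Finset.mem_Ico]; have := i.2; omega⟩), Measurable.of_discrete, ?_⟩
    funext ω
    rfl
  obtain ⟨φ, hφ, e1⟩ := key a
  obtain ⟨ψ, hψ, e2⟩ := key b
  rw [e1, e2]
  exact h1.comp hφ hψ

lemma xae (L r ℓ : ℕ) (w : Fin ℓ → Bool) (hL : ℓ ≤ L) :
    ∀ᵐ ω ∂xP, Tendsto (fun J : ℕ =>
      (cnt (fun j => ∀ i : Fin ℓ, ω (j * L + r + i) = w i) J : ℝ) / J) atTop (𝓝 ((1 / 2) ^ ℓ)) := by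
  have hind : Pairwise fun i j => ProbabilityTheory.IndepFun
      (fun ω => xg w (xT ℓ (i * L + r) ω)) (fun ω => xg w (xT ℓ (j * L + r) ω)) xP := by
    intro i j hij
    rcases lt_or_gt_of_ne hij with h | h
    · apply xind
      have : (i + 1) * L ≤ j * L := Nat.mul_le_mul_right L h
      nlinarith
    · apply ProbabilityTheory.IndepFun.symm
      apply xind
      have : (j + 1) * L ≤ i * L := Nat.mul_le_mul_right L h
      nlinarith
  have hid : ∀ i : ℕ, ProbabilityTheory.IdentDistrib (fun ω => xg w (xT ℓ (i * L + r) ω))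
      (fun ω => xg w (xT ℓ (0 * L + r) ω)) xP xP := by
    intro i
    have h : ProbabilityTheory.IdentDistrib (xT ℓ (i * L + r)) (xT ℓ (0 * L + r)) xP xP :=
      ⟨(xT_meas _ _).aemeasurable, (xT_meas _ _).aemeasurable, by rw [xT_map, xT_map]⟩
    exact h.comp (xg_meas w)
  have hint : Integrable (fun ω => xg w (xT ℓ (0 * L + r) ω)) xP := by
    refine Integrable.of_bound (C := 1)
      ((xg_meas w).comp (xT_meas _ _)).aestronglyMeasurable ?_
    refine Eventually.of_forall fun ω => ?_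
    simp only [xg]
    split_ifs <;> simp
  have h := ProbabilityTheory.strong_law_ae_real
    (fun (j : ℕ) ω => xg w (xT ℓ (j * L + r) ω)) hint hind hid
  rw [xint] at h
  filter_upwards [h] with ω hω
  convert hω using 2 with J
  congr 1
  unfold cnt
  rw [Finset.card_filter]
  push_cast
  refine Finset.sum_congr rfl fun j _ => ?_
  unfold xg xT
  by_cases hj : ∀ i : Fin ℓ, ω (j * L + r + i) = w i
  · rw [if_pos hj, if_pos (funext hj)]
  · rw [if_neg hj, if_neg (fun h => hj (fun i => congrFun h i))]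

theorem exists_bits : ∃ ω : ℕ → Bool, ∀ L : ℕ, 1 ≤ L → ∀ (r ℓ : ℕ) (w : Fin ℓ → Bool), ℓ ≤ L →
    Tendsto (fun J : ℕ =>
      (cnt (fun j => ∀ i : Fin ℓ, ω (j * L + r + i) = w i) J : ℝ) / J) atTop (𝓝 ((1 / 2) ^ ℓ)) := by
  have h : ∀ᵐ ω ∂xP, ∀ L : ℕ, 1 ≤ L → ∀ (r ℓ : ℕ) (w : Fin ℓ → Bool), ℓ ≤ L →
      Tendsto (fun J : ℕ =>
        (cnt (fun j => ∀ i : Fin ℓ, ω (j * L + r + i) = w i) J : ℝ) / J) atTop
        (𝓝 ((1 / 2) ^ ℓ)) := by
    refine ae_all_iff.2 fun L => ae_all_iff.2 fun _ => ae_all_iff.2 fun r =>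
      ae_all_iff.2 fun ℓ => ae_all_iff.2 fun w => ae_all_iff.2 fun hL => xae L r ℓ w hL
  exact h.exists

end Pool.Agent.X886.INV
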