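import Pool.Agent.X886.INV.Core
import Pool.Agent.X886.INV.J1

/-!
# shift of blocks, Qf_local
-/

namespace Pool.Agent.X886.INV

open Filter MeasureTheory Topology

theorem h988_gm_add (k b c i : ℕ) : gm k (b + c * MM k) i = gm k b i + c * MM (k + 1) := by
  have hM := MM_pos k
  unfold gm
  rw [Nat.add_mul_mod_self_right, Nat.add_mul_div_right _ _ hM]
  ring

theorem h988_gm_lt (k b i c : ℕ) (hi : i < 2 ^ (k + 1)) (hb : b < c * MM k) :
    gm k b i < c * MM (k + 1) := by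
  have hM := MM_pos k
  unfold gm
  have h1 : b % MM k < MM k := Nat.mod_lt _ hM
  have h2 : b / MM k < c := (Nat.div_lt_iff_lt_mul hM).2 hb
  have h3 : MM (k + 1) = 2 ^ (k + 1) * MM k := rfl
  have h4 : (i + 1) * MM k ≤ 2 ^ (k + 1) * MM k := Nat.mul_le_mul_right _ hi
  have h5 : (b / MM k + 1) * MM (k + 1) ≤ c * MM (k + 1) := Nat.mul_le_mul_right _ h2
  rw [← h3] at h4
  nlinarith

theorem h988_gb_add (k K j α : ℕ) (c : ℕ) (hc : MM K = c * MM (k + 1)) :
    gb k (MM K * j + α) = gb k α + (c * j) * MM k := by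
  have hM := MM_pos k
  have hM1 := MM_pos (k + 1)
  have h3 : MM (k + 1) = 2 ^ (k + 1) * MM k := rfl
  unfold gb
  have e1 : (MM K * j + α) % MM k = α % MM k := by
    have : MM K * j + α = α + MM k * (c * 2 ^ (k + 1) * j) := by rw [hc, h3]; ring
    rw [this, Nat.add_mul_mod_self_left]
  have e2 : (MM K * j + α) / MM (k + 1) = α / MM (k + 1) + c * j := by
    have : MM K * j + α = α + MM (k + 1) * (c * j) := by rw [hc]; ring
    rw [this, Nat.add_mul_div_left _ _ hM1]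
  rw [e1, e2]
  ring

theorem h988_c (k K : ℕ) (hk : k < K) : ∃ c, MM K = c * MM (k + 1) := by
  obtain ⟨c, hc⟩ := MM_dvd (show k + 1 ≤ K from hk)
  exact ⟨c, by rw [hc]; ring⟩

theorem h988_dvd (K : ℕ) : 2 ^ K ∣ MM K := by
  obtain ⟨R, hR, hKR⟩ := MM_pow K
  rw [hR]
  exact pow_dvd_pow 2 hKR

theorem gm_shift (k K j α i : ℕ) (hk : k < K) (hα : α < MM K) (hi : i < 2 ^ (k + 1)) :
    gm k (gb k (MM K * j + α)) i = MM K * j + gm k (gb k α) i ∧ gm k (gb k α) i < MM K := by 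
  obtain ⟨c, hc⟩ := h988_c k K hk
  have hM1 := MM_pos (k + 1)
  constructor
  · rw [h988_gb_add k K j α c hc, h988_gm_add, hc]
    ring
  · have h1 := gm_block k α i hi
    have h2 : α / MM (k + 1) < c := by
      rw [Nat.div_lt_iff_lt_mul hM1, ← hc]
      exact hα
    rw [← h1, Nat.div_lt_iff_lt_mul hM1, ← hc] at h2
    exact h2

theorem pc_shift (k K j α : ℕ) (hk : k < K) (hα : α < MM K) :
    pc k (MM K * j + α) = MM K * j + pc k α ∧ pc k α < MM K := by 
  obtain ⟨c, hc⟩ := h988_c k K hk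
  have hM1 := MM_pos (k + 1)
  have h3 : MM (k + 1) = 2 ^ (k + 1) * MM k := rfl
  constructor
  · unfold pc
    rw [h988_gb_add k K j α c hc, hc, h3]
    ring
  · have h1 := pc_block k α
    have h2 : α / MM (k + 1) < c := by
      rw [Nat.div_lt_iff_lt_mul hM1, ← hc]
      exact hα
    rw [← h1, Nat.div_lt_iff_lt_mul hM1, ← hc] at h2
    exact h2

theorem v2_shift (K j α : ℕ) (h : ¬ 2 ^ K ∣ α) :
    padicValNat 2 (MM K * j + α) = padicValNat 2 α ∧ padicValNat 2 α < K ∧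
      ¬ 2 ^ K ∣ MM K * j + α := by 
  have hα0 : α ≠ 0 := by
    rintro rfl
    exact h (dvd_zero _)
  have hn0 : MM K * j + α ≠ 0 := by omega
  have hd : 2 ^ K ∣ MM K * j := dvd_mul_of_dvd_left (h988_dvd K) j
  have key : ∀ m, m ≤ K → (2 ^ m ∣ MM K * j + α ↔ 2 ^ m ∣ α) := by
    intro m hm
    exact Nat.dvd_add_right ((pow_dvd_pow 2 hm).trans hd)
  have hlt : padicValNat 2 α < K := by
    by_contra hcon
    exact h ((padicValNat_dvd_iff_le hα0).2 (not_lt.1 hcon))
  refine ⟨?_, hlt, fun hh => h ((key K le_rfl).1 hh)⟩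
  apply le_antisymm
  · by_contra hcon
    have h1 : padicValNat 2 α + 1 ≤ padicValNat 2 (MM K * j + α) := by omega
    have h2 := (padicValNat_dvd_iff_le hn0).2 h1
    rw [key _ hlt] at h2
    have := (padicValNat_dvd_iff_le hα0).1 h2
    omega
  · apply (padicValNat_dvd_iff_le hn0).1
    rw [key _ hlt.le]
    exact (padicValNat_dvd_iff_le hα0).2 le_rfl

/-- groups of parity cells -/
theorem gm_par_shift (K j α i : ℕ) (hα : α < MM K) (h : ¬ 2 ^ K ∣ α)
    (hi : i < 2 ^ (padicValNat 2 α + 1)) :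
    gm (padicValNat 2 α) ((MM K * j + α) / 2 ^ (padicValNat 2 α + 1)) i =
      MM K * j + gm (padicValNat 2 α) (α / 2 ^ (padicValNat 2 α + 1)) i ∧
    gm (padicValNat 2 α) (α / 2 ^ (padicValNat 2 α + 1)) i < MM K := by 
  obtain ⟨_, hlt, _⟩ := v2_shift K j α h
  set k := padicValNat 2 α with hk
  obtain ⟨c, hc⟩ := h988_c k K hlt
  have h3 : MM (k + 1) = 2 ^ (k + 1) * MM k := rfl
  have hp : 0 < 2 ^ (k + 1) := by positivity
  have e : (MM K * j + α) / 2 ^ (k + 1) = α / 2 ^ (k + 1) + (c * j) * MM k := by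
    have : MM K * j + α = α + 2 ^ (k + 1) * ((c * j) * MM k) := by rw [hc, h3]; ring
    rw [this, Nat.add_mul_div_left _ _ hp]
  constructor
  · rw [e, h988_gm_add, hc]
    ring
  · rw [hc]
    apply h988_gm_lt k _ i c hi
    rw [Nat.div_lt_iff_lt_mul hp]
    calc α < MM K := hα
      _ = c * MM k * 2 ^ (k + 1) := by rw [hc, h3]; ring

theorem Qf_two (ω : ℕ → Bool) (n : ℕ) : 2 ≤ Qf ω n := by 
  unfold Qf hi lo
  split_ifs <;> norm_num

theorem Qf_le (ω : ℕ → Bool) (n : ℕ) : Qf ω n ≤ 128 := by 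
  unfold Qf hi lo
  split_ifs <;> norm_num

/-- the bases in a block of level `K` are determined by the bits in this block, except at the cells
which are multiples of `2 ^ K` -/
theorem Qf_local (ω ω' : ℕ → Bool) (K j j' s : ℕ) (hs : s < 6 * MM K) (h : ¬ 2 ^ K ∣ s / 6)
    (hw : ∀ i < MM K, ω (MM K * j + i) = ω' (MM K * j' + i)) :
    Qf ω (6 * MM K * j + s) = Qf ω' (6 * MM K * j' + s) := by 
  set M := MM K with hM
  have hα : s / 6 < M := by omega
  have hbt : ∀ j, (6 * M * j + s) / 2 % 3 = s / 2 % 3 ∧ (6 * M * j + s) / 2 / 3 = M * j + s / 6 ∧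
      (6 * M * j + s) % 2 = s % 2 := by
    intro j
    have e : 6 * M * j = 6 * (M * j) := by ring
    rw [e]
    refine ⟨by omega, by omega, by omega⟩
  obtain ⟨a1, a2, a3⟩ := hbt j
  obtain ⟨b1, b2, b3⟩ := hbt j'
  obtain ⟨v1, v2, v3⟩ := v2_shift K j (s / 6) h
  obtain ⟨w1, w2, w3⟩ := v2_shift K j' (s / 6) h
  have hb : bt ω ((6 * M * j + s) / 2) = bt ω' ((6 * M * j' + s) / 2) := by
    unfold bt
    rw [a1, a2, b1, b2]
    split_ifs with h1 h2
    · unfold tb
      rw [v1, w1]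
    · exact hw _ hα
    · unfold pb
      rw [v1, w1]
      unfold xs
      have hsum : (∑ i ∈ Finset.range (2 ^ (padicValNat 2 (s / 6) + 1)),
          (ω (gm (padicValNat 2 (s / 6)) ((M * j + s / 6) / 2 ^ (padicValNat 2 (s / 6) + 1)) i)).toNat) =
          ∑ i ∈ Finset.range (2 ^ (padicValNat 2 (s / 6) + 1)),
          (ω' (gm (padicValNat 2 (s / 6)) ((M * j' + s / 6) / 2 ^ (padicValNat 2 (s / 6) + 1)) i)).toNat := by
        apply Finset.sum_congr rfl
        intro i hi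
        rw [Finset.mem_range] at hi
        obtain ⟨g1, g2⟩ := gm_par_shift K j (s / 6) i hα h hi
        obtain ⟨g3, _⟩ := gm_par_shift K j' (s / 6) i hα h hi
        rw [g1, g3, hw _ g2]
      rw [hsum]
  unfold Qf hi lo
  rw [hb, a1, a3, b1, b3]

end Pool.Agent.X886.INV
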