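import Pool.Agent.X886.INV.Core
import Pool.Agent.X886.INV.J1
import Pool.Agent.X886.INV.J2

/-!
# existence of frequencies
-/

namespace Pool.Agent.X886.INV

open Filter MeasureTheory Topology

/-- indicator -/
noncomputable def fq_ind (P : ℕ → Prop) (n : ℕ) : ℕ := by
  classical exact if P n then 1 else 0

theorem fq_ind_true {P : ℕ → Prop} {n : ℕ} (h : P n) : fq_ind P n = 1 := by
  classical
  unfold fq_ind
  exact if_pos h

theorem fq_ind_false {P : ℕ → Prop} {n : ℕ} (h : ¬ P n) : fq_ind P n = 0 := by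
  classical
  unfold fq_ind
  exact if_neg h

theorem fq_ind_congr {P Q : ℕ → Prop} {n m : ℕ} (h : P n ↔ Q m) : fq_ind P n = fq_ind Q m := by
  by_cases h1 : P n
  · rw [fq_ind_true h1, fq_ind_true (h.1 h1)]
  · rw [fq_ind_false h1, fq_ind_false (fun h2 => h1 (h.2 h2))]

theorem fq_cnt (P : ℕ → Prop) (N : ℕ) : cnt P N = ∑ n ∈ Finset.range N, fq_ind P n := by
  classical
  unfold cnt fq_ind
  rw [Finset.card_filter]

theorem fq_cnt_succ (P : ℕ → Prop) (N : ℕ) : cnt P (N + 1) = cnt P N + fq_ind P N := by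
  rw [fq_cnt, fq_cnt, Finset.sum_range_succ]

theorem fq_ind_le (P : ℕ → Prop) (n : ℕ) : fq_ind P n ≤ 1 := by
  by_cases h1 : P n
  · rw [fq_ind_true h1]
  · rw [fq_ind_false h1]
    exact zero_le_one

theorem fq_cnt_add (P : ℕ → Prop) (N d : ℕ) : cnt P N ≤ cnt P (N + d) ∧ cnt P (N + d) ≤ cnt P N + d := by
  induction d with
  | zero => exact ⟨le_rfl, le_rfl⟩
  | succ d ih =>
    rw [← add_assoc, fq_cnt_succ]
    have := fq_ind_le P (N + d)
    omega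

theorem fq_block (f : ℕ → ℕ) (P J : ℕ) : ∑ n ∈ Finset.range (P * J), f n =
    ∑ j ∈ Finset.range J, ∑ s ∈ Finset.range P, f (P * j + s) := by
  induction J with
  | zero => simp
  | succ J ih =>
    rw [Nat.mul_succ, Finset.sum_range_add, ih, Finset.sum_range_succ]

/-- from multiples to all integers -/
theorem fq_lim (Q : ℕ → Prop) {P : ℕ} (hP : 0 < P) {c : ℝ}
    (h : Tendsto (fun J : ℕ => (cnt Q (P * J) : ℝ) / J) atTop (𝓝 c)) :
    Tendsto (fun N : ℕ => (cnt Q N : ℝ) / N) atTop (𝓝 (c / P)) := by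
  have hP' : (0 : ℝ) < P := by exact_mod_cast hP
  have hdiv : Tendsto (fun N : ℕ => N / P) atTop atTop := Nat.tendsto_div_const_atTop hP.ne'
  have h1 : Tendsto (fun N : ℕ => (cnt Q (P * (N / P)) : ℝ) / ((N / P : ℕ) : ℝ)) atTop (𝓝 c) :=
    h.comp hdiv
  have hinv : Tendsto (fun N : ℕ => (1 : ℝ) / N) atTop (𝓝 0) :=
    tendsto_one_div_atTop_nhds_zero_nat
  have h2 : Tendsto (fun N : ℕ => ((N / P : ℕ) : ℝ) / N) atTop (𝓝 (1 / P)) := by
    have hl : Tendsto (fun N : ℕ => 1 / (P : ℝ) - 1 / N) atTop (𝓝 (1 / P)) := by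
      have := (tendsto_const_nhds (x := 1 / (P : ℝ)) (f := (atTop : Filter ℕ))).sub hinv
      simpa using this
    refine tendsto_of_tendsto_of_tendsto_of_le_of_le' hl tendsto_const_nhds ?_ ?_
    · filter_upwards [eventually_gt_atTop 0] with N hN
      have hN' : (0 : ℝ) < N := by exact_mod_cast hN
      have e := Nat.div_add_mod N P
      have e2 := Nat.mod_lt N hP
      have e3 : (P : ℝ) * ((N / P : ℕ) : ℝ) + ((N % P : ℕ) : ℝ) = N := by exact_mod_cast e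
      have e4 : ((N % P : ℕ) : ℝ) ≤ P := by exact_mod_cast e2.le
      rw [div_sub_div _ _ hP'.ne' hN'.ne', div_le_div_iff₀ (by positivity) hN']
      nlinarith
    · filter_upwards [eventually_gt_atTop 0] with N hN
      have hN' : (0 : ℝ) < N := by exact_mod_cast hN
      have e3 : (P : ℝ) * ((N / P : ℕ) : ℝ) ≤ N := by exact_mod_cast Nat.mul_div_le N P
      rw [div_le_div_iff₀ hN' hP']
      linarith
  have h3 : Tendsto (fun N : ℕ => ((cnt Q N : ℝ) - cnt Q (P * (N / P))) / N) atTop (𝓝 0) := by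
    have hu : Tendsto (fun N : ℕ => (P : ℝ) * (1 / N)) atTop (𝓝 0) := by
      simpa using hinv.const_mul (P : ℝ)
    refine tendsto_of_tendsto_of_tendsto_of_le_of_le tendsto_const_nhds hu ?_ ?_
    · intro N
      have e := Nat.div_add_mod N P
      have e1 := (fq_cnt_add Q (P * (N / P)) (N % P)).1
      rw [e] at e1
      have e2 : (cnt Q (P * (N / P)) : ℝ) ≤ cnt Q N := by exact_mod_cast e1
      have : 0 ≤ (cnt Q N : ℝ) - cnt Q (P * (N / P)) := by linarith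
      simp only
      positivity
    · intro N
      have e := Nat.div_add_mod N P
      have e1 := (fq_cnt_add Q (P * (N / P)) (N % P)).2
      rw [e] at e1
      have e2 := Nat.mod_lt N hP
      have e3 : cnt Q N ≤ cnt Q (P * (N / P)) + P := by omega
      have e4 : (cnt Q N : ℝ) ≤ cnt Q (P * (N / P)) + P := by exact_mod_cast e3
      simp only
      rw [mul_one_div]
      gcongr
      linarith
  have h4 := (h1.mul h2).add h3
  rw [add_zero, mul_one_div] at h4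
  refine h4.congr' ?_
  filter_upwards [eventually_ge_atTop P] with N hN
  have hq : 0 < N / P := Nat.div_pos hN hP
  have hq' : (0 : ℝ) < ((N / P : ℕ) : ℝ) := by exact_mod_cast hq
  have hN' : (0 : ℝ) < N := by exact_mod_cast lt_of_lt_of_le hP hN
  field_simp
  ring

/-- good places -/
def fq_good (K ℓ n : ℕ) : Prop := ∀ i < ℓ, ¬ 2 ^ K ∣ (n + i) / 6

/-- the block `B` occurs -/
def fq_occ (ω : ℕ → Bool) (ℓ : ℕ) (B : Fin ℓ → ℕ) (n : ℕ) : Prop :=
  ∀ i : Fin ℓ, Qf ω (n + i) = B i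

/-- the word as a sequence -/
def fq_ext (K : ℕ) (w : Fin (MM K) → Bool) (a : ℕ) : Bool :=
  if h : a < MM K then w ⟨a, h⟩ else false

theorem fq_dvd (K : ℕ) : 2 ^ K ∣ MM K := by
  obtain ⟨R, h1, h2⟩ := MM_pow K
  rw [h1]
  exact pow_dvd_pow 2 h2

theorem fq_div6 (K j s : ℕ) : (6 * MM K * j + s) / 6 = MM K * j + s / 6 := by
  rw [show 6 * MM K * j + s = s + 6 * (MM K * j) by ring, Nat.add_mul_div_left _ _ (by norm_num)]
  ring

theorem fq_dvd_iff (K j s : ℕ) : 2 ^ K ∣ (6 * MM K * j + s) / 6 ↔ 2 ^ K ∣ s / 6 := by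
  rw [fq_div6]
  exact (Nat.dvd_add_iff_right ((fq_dvd K).mul_right j)).symm

theorem fq_good_iff (K ℓ j s : ℕ) : fq_good K ℓ (6 * MM K * j + s) ↔ fq_good K ℓ s := by
  unfold fq_good
  refine forall_congr' fun i => forall_congr' fun _ => not_congr ?_
  rw [add_assoc, fq_dvd_iff]

theorem fq_inside {K ℓ s : ℕ} (hs : s < 6 * MM K) (hg : fq_good K ℓ s) {i : ℕ} (hi : i < ℓ) :
    s + i < 6 * MM K := by
  by_contra hc
  push Not at hc
  refine hg (6 * MM K - s) (by omega) ?_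
  have : (s + (6 * MM K - s)) / 6 = MM K := by
    rw [Nat.add_sub_cancel' hs.le]
    exact Nat.mul_div_cancel_left _ (by norm_num)
  rw [this]
  exact fq_dvd K

theorem fq_word {ω : ℕ → Bool} {K ℓ j s : ℕ} {B : Fin ℓ → ℕ} (hs : s < 6 * MM K)
    {w : Fin (MM K) → Bool} (hw : ∀ i : Fin (MM K), ω (j * MM K + 0 + i) = w i) :
    (fq_good K ℓ (6 * MM K * j + s) ∧ fq_occ ω ℓ B (6 * MM K * j + s)) ↔
      (fq_good K ℓ s ∧ fq_occ (fq_ext K w) ℓ B s) := by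
  rw [fq_good_iff]
  refine and_congr_right fun hg => ?_
  unfold fq_occ
  refine forall_congr' fun i => ?_
  have h1 := fq_inside hs hg i.2
  have h2 := Qf_local ω (fq_ext K w) K j 0 (s + i) h1 (hg i i.2) (by
    intro a ha
    have h3 := hw ⟨a, ha⟩
    simp only [add_zero] at h3
    rw [mul_comm (MM K) j, h3, mul_zero, zero_add]
    unfold fq_ext
    rw [dif_pos ha])
  rw [mul_zero, zero_add] at h2
  rw [add_assoc, h2]

/-- the number of good places for a word -/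
noncomputable def fq_Z (K ℓ : ℕ) (B : Fin ℓ → ℕ) (w : Fin (MM K) → Bool) : ℕ :=
  ∑ s ∈ Finset.range (6 * MM K), fq_ind (fun s => fq_good K ℓ s ∧ fq_occ (fq_ext K w) ℓ B s) s

theorem fq_count (ω : ℕ → Bool) (K ℓ : ℕ) (B : Fin ℓ → ℕ) (J : ℕ) :
    cnt (fun n => fq_good K ℓ n ∧ fq_occ ω ℓ B n) (6 * MM K * J) =
      ∑ w : Fin (MM K) → Bool, fq_Z K ℓ B w *
        cnt (fun j => ∀ i : Fin (MM K), ω (j * MM K + 0 + i) = w i) J := by
  rw [fq_cnt, fq_block]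
  have h1 : ∀ j, ∑ s ∈ Finset.range (6 * MM K),
      fq_ind (fun n => fq_good K ℓ n ∧ fq_occ ω ℓ B n) (6 * MM K * j + s) =
      ∑ w : Fin (MM K) → Bool, fq_Z K ℓ B w *
        fq_ind (fun j => ∀ i : Fin (MM K), ω (j * MM K + 0 + i) = w i) j := by
    intro j
    rw [Finset.sum_eq_single (fun i : Fin (MM K) => ω (j * MM K + 0 + i))]
    · rw [fq_ind_true (fun i => rfl), mul_one]
      unfold fq_Z
      refine Finset.sum_congr rfl fun s hs => ?_
      rw [Finset.mem_range] at hs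
      exact fq_ind_congr (P := fun n => fq_good K ℓ n ∧ fq_occ ω ℓ B n)
        (fq_word hs (fun i => rfl))
    · intro w _ hw
      rw [fq_ind_false, mul_zero]
      intro h
      exact hw (funext fun i => (h i).symm)
    · intro h
      exact absurd (Finset.mem_univ _) h
  rw [Finset.sum_congr rfl fun j _ => h1 j, Finset.sum_comm]
  refine Finset.sum_congr rfl fun w _ => ?_
  rw [← Finset.mul_sum, fq_cnt]

theorem fq_K (ω : ℕ → Bool)
    (hω : ∀ L : ℕ, 1 ≤ L → ∀ (r ℓ : ℕ) (w : Fin ℓ → Bool), ℓ ≤ L →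
      Tendsto (fun J : ℕ =>
        (cnt (fun j => ∀ i : Fin ℓ, ω (j * L + r + i) = w i) J : ℝ) / J) atTop (𝓝 ((1 / 2) ^ ℓ)))
    (K ℓ : ℕ) (B : Fin ℓ → ℕ) :
    ∃ p : ℝ, Tendsto (fun N : ℕ => (cnt (fun n => fq_good K ℓ n ∧ fq_occ ω ℓ B n) N : ℝ) / N)
        atTop (𝓝 p) ∧
      ((∃ n, n < 6 * MM K ∧ fq_good K ℓ n ∧ fq_occ ω ℓ B n) → 0 < p) := by
  have hM := MM_pos K
  refine ⟨(∑ w : Fin (MM K) → Bool, (fq_Z K ℓ B w : ℝ) * (1 / 2) ^ (MM K)) / ((6 * MM K : ℕ) : ℝ),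
    ?_, ?_⟩
  · refine fq_lim _ (by omega) ?_
    have h1 : ∀ J : ℕ, (cnt (fun n => fq_good K ℓ n ∧ fq_occ ω ℓ B n) (6 * MM K * J) : ℝ) / J =
        ∑ w : Fin (MM K) → Bool, (fq_Z K ℓ B w : ℝ) *
          ((cnt (fun j => ∀ i : Fin (MM K), ω (j * MM K + 0 + i) = w i) J : ℝ) / J) := by
      intro J
      rw [fq_count]
      push_cast
      rw [Finset.sum_div]
      refine Finset.sum_congr rfl fun w _ => ?_
      rw [mul_div_assoc]
    simp_rw [h1]
    refine tendsto_finsetSum _ fun w _ => ?_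
    exact (hω (MM K) hM 0 (MM K) w le_rfl).const_mul _
  · rintro ⟨n, hn, hg, ho⟩
    have hpos : 0 < ∑ w : Fin (MM K) → Bool, (fq_Z K ℓ B w : ℝ) * (1 / 2) ^ (MM K) := by
      refine Finset.sum_pos' (fun w _ => by positivity)
        ⟨fun i : Fin (MM K) => ω (0 * MM K + 0 + i), Finset.mem_univ _, ?_⟩
      have h2 : 0 < fq_Z K ℓ B (fun i : Fin (MM K) => ω (0 * MM K + 0 + i)) := by
        unfold fq_Z
        refine Finset.sum_pos' (fun s _ => Nat.zero_le _) ⟨n, Finset.mem_range.2 hn, ?_⟩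
        rw [fq_ind_true]
        · exact one_pos
        · have h3 := (fq_word (ω := ω) (K := K) (ℓ := ℓ) (j := 0) (s := n) (B := B) hn
            (w := fun i : Fin (MM K) => ω (0 * MM K + 0 + i)) (fun i => rfl)).1
          rw [mul_zero, zero_add] at h3
          exact h3 ⟨hg, ho⟩
      have h3 : (0 : ℝ) < (fq_Z K ℓ B (fun i : Fin (MM K) => ω (0 * MM K + 0 + i)) : ℝ) := by
        exact_mod_cast h2
      positivity
    have h4 : (0 : ℝ) < ((6 * MM K : ℕ) : ℝ) := by exact_mod_cast (by omega : 0 < 6 * MM K)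
    positivity

/-- the multiples -/
theorem fq_mult (K i : ℕ) (N : ℕ) :
    2 ^ K * cnt (fun n => 2 ^ K ∣ (n + i) / 6) N ≤ N + i + 6 * 2 ^ K := by
  have h1 : ∀ M : ℕ, 2 ^ K * cnt (fun n => 2 ^ K ∣ n / 6) M ≤ M + 6 * 2 ^ K := by
    intro M
    have h2 : ∀ J, cnt (fun n => 2 ^ K ∣ n / 6) (6 * 2 ^ K * J) ≤ 6 * J := by
      intro J
      rw [fq_cnt, fq_block]
      have h3 : ∀ j ∈ Finset.range J, ∑ s ∈ Finset.range (6 * 2 ^ K),
          fq_ind (fun n => 2 ^ K ∣ n / 6) (6 * 2 ^ K * j + s) ≤ 6 := by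
        intro j _
        have hK : 0 < 2 ^ K := by positivity
        rw [show 6 * 2 ^ K = 6 + 6 * (2 ^ K - 1) by omega, Finset.sum_range_add]
        have h4 : ∑ x ∈ Finset.range 6,
            fq_ind (fun n => 2 ^ K ∣ n / 6) ((6 + 6 * (2 ^ K - 1)) * j + x) ≤ 6 := by
          calc _ ≤ ∑ x ∈ Finset.range 6, 1 := Finset.sum_le_sum fun x _ => fq_ind_le _ _
            _ = 6 := by simp
        have h5 : ∑ x ∈ Finset.range (6 * (2 ^ K - 1)),
            fq_ind (fun n => 2 ^ K ∣ n / 6) ((6 + 6 * (2 ^ K - 1)) * j + (6 + x)) = 0 := by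
          refine Finset.sum_eq_zero fun x hx => fq_ind_false ?_
          rw [Finset.mem_range] at hx
          rw [show (6 + 6 * (2 ^ K - 1)) * j + (6 + x) = 6 + x + 6 * (2 ^ K * j) by
            rw [show 6 + 6 * (2 ^ K - 1) = 6 * 2 ^ K by omega]; ring,
            Nat.add_mul_div_left _ _ (by norm_num)]
          intro hd
          have hd2 := (Nat.dvd_add_iff_left (Nat.dvd_mul_right (2 ^ K) j)).2 hd
          have hlt : (6 + x) / 6 < 2 ^ K := by omega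
          have hpos : 0 < (6 + x) / 6 := by omega
          exact absurd (Nat.le_of_dvd hpos hd2) (not_le.2 hlt)
        omega
      calc _ ≤ ∑ j ∈ Finset.range J, 6 := Finset.sum_le_sum h3
        _ = 6 * J := by simp [mul_comm]
    have hK : 0 < 2 ^ K := by positivity
    obtain ⟨q, r, e, e2⟩ : ∃ q r, 6 * 2 ^ K * q + r = M ∧ r < 6 * 2 ^ K :=
      ⟨M / (6 * 2 ^ K), M % (6 * 2 ^ K), Nat.div_add_mod M (6 * 2 ^ K),
        Nat.mod_lt M (show 0 < 6 * 2 ^ K by positivity)⟩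
    have h3 := h2 (q + 1)
    have h4 : cnt (fun n => 2 ^ K ∣ n / 6) M ≤ cnt (fun n => 2 ^ K ∣ n / 6) (6 * 2 ^ K * (q + 1)) := by
      have h5 : 6 * 2 ^ K * (q + 1) = M + (6 * 2 ^ K * (q + 1) - M) := by
        have : M ≤ 6 * 2 ^ K * (q + 1) := by
          rw [mul_add, mul_one]
          omega
        omega
      rw [h5]
      exact (fq_cnt_add _ _ _).1
    calc 2 ^ K * cnt (fun n => 2 ^ K ∣ n / 6) M ≤ 2 ^ K * (6 * (q + 1)) :=
          Nat.mul_le_mul_left _ (h4.trans h3)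
      _ = 6 * 2 ^ K * q + 6 * 2 ^ K := by ring
      _ ≤ M + 6 * 2 ^ K := by omega
  have h6 : cnt (fun n => 2 ^ K ∣ (n + i) / 6) N ≤ cnt (fun n => 2 ^ K ∣ n / 6) (N + i) := by
    rw [fq_cnt, fq_cnt, add_comm N i, Finset.sum_range_add]
    refine le_add_left (Finset.sum_le_sum fun n _ => ?_)
    rw [fq_ind_congr (P := fun n => 2 ^ K ∣ (n + i) / 6) (Q := fun n => 2 ^ K ∣ n / 6)
      (n := n) (m := i + n) (by rw [add_comm n i])]
  exact (Nat.mul_le_mul_left _ h6).trans (h1 (N + i))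

/-- all places are few more than the good ones -/
theorem fq_bad (ω : ℕ → Bool) (K ℓ : ℕ) (B : Fin ℓ → ℕ) (N : ℕ) :
    2 ^ K * cnt (fq_occ ω ℓ B) N ≤ 2 ^ K * cnt (fun n => fq_good K ℓ n ∧ fq_occ ω ℓ B n) N +
      ℓ * (N + ℓ + 6 * 2 ^ K) := by
  have h1 : cnt (fq_occ ω ℓ B) N ≤ cnt (fun n => fq_good K ℓ n ∧ fq_occ ω ℓ B n) N +
      ∑ i ∈ Finset.range ℓ, cnt (fun n => 2 ^ K ∣ (n + i) / 6) N := by
    rw [fq_cnt, fq_cnt]
    simp_rw [fq_cnt]
    rw [Finset.sum_comm, ← Finset.sum_add_distrib]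
    refine Finset.sum_le_sum fun n _ => ?_
    by_cases hn : fq_occ ω ℓ B n
    · rw [fq_ind_true hn]
      by_cases hg : fq_good K ℓ n
      · rw [fq_ind_true (P := fun n => fq_good K ℓ n ∧ fq_occ ω ℓ B n) ⟨hg, hn⟩]
        omega
      · unfold fq_good at hg
        push Not at hg
        obtain ⟨i, hi, hd⟩ := hg
        have h2 : fq_ind (fun n => 2 ^ K ∣ (n + i) / 6) n ≤
            ∑ i ∈ Finset.range ℓ, fq_ind (fun n => 2 ^ K ∣ (n + i) / 6) n :=
          Finset.single_le_sum (f := fun i => fq_ind (fun n => 2 ^ K ∣ (n + i) / 6) n)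
            (fun _ _ => Nat.zero_le _) (Finset.mem_range.2 hi)
        rw [fq_ind_true (P := fun n => 2 ^ K ∣ (n + i) / 6) hd] at h2
        omega
    · rw [fq_ind_false hn]
      exact Nat.zero_le _
  have h2 : 2 ^ K * ∑ i ∈ Finset.range ℓ, cnt (fun n => 2 ^ K ∣ (n + i) / 6) N ≤
      ℓ * (N + ℓ + 6 * 2 ^ K) := by
    rw [Finset.mul_sum]
    calc _ ≤ ∑ i ∈ Finset.range ℓ, (N + ℓ + 6 * 2 ^ K) := by
          refine Finset.sum_le_sum fun i hi => ?_
          rw [Finset.mem_range] at hi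
          have := fq_mult K i N
          omega
      _ = ℓ * (N + ℓ + 6 * 2 ^ K) := by simp
  calc _ ≤ 2 ^ K * (cnt (fun n => fq_good K ℓ n ∧ fq_occ ω ℓ B n) N +
      ∑ i ∈ Finset.range ℓ, cnt (fun n => 2 ^ K ∣ (n + i) / 6) N) := Nat.mul_le_mul_left _ h1
    _ ≤ _ := by
      rw [mul_add]
      omega

theorem freq_exists (ω : ℕ → Bool)
    (hω : ∀ L : ℕ, 1 ≤ L → ∀ (r ℓ : ℕ) (w : Fin ℓ → Bool), ℓ ≤ L →
      Tendsto (fun J : ℕ =>
        (cnt (fun j => ∀ i : Fin ℓ, ω (j * L + r + i) = w i) J : ℝ) / J) atTop (𝓝 ((1 / 2) ^ ℓ)))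
    (ℓ : ℕ) (B : Fin ℓ → ℕ) :
    ∃ p : ℝ, Tendsto (fun N : ℕ =>
        (cnt (fun n => ∀ i : Fin ℓ, Qf ω (n + i) = B i) N : ℝ) / N) atTop (𝓝 p) ∧ ((∃ n, 6 ≤ n ∧ ∀ i : Fin ℓ, Qf ω (n + i) = B i) → 0 < p) := by
  classical
  set x : ℕ → ℝ := fun N => (cnt (fq_occ ω ℓ B) N : ℝ) / N with hx
  have hK : ∀ K : ℕ, ∃ p : ℝ,
      (∀ᶠ N : ℕ in atTop, p - 1 / 2 ^ K ≤ x N ∧ x N ≤ p + (ℓ + 2) / 2 ^ K) ∧
      (∀ᶠ N : ℕ in atTop, (cnt (fun n => fq_good K ℓ n ∧ fq_occ ω ℓ B n) N : ℝ) / N ≤ x N) ∧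
      Tendsto (fun N : ℕ => (cnt (fun n => fq_good K ℓ n ∧ fq_occ ω ℓ B n) N : ℝ) / N)
        atTop (𝓝 p) ∧
      ((∃ n, n < 6 * MM K ∧ fq_good K ℓ n ∧ fq_occ ω ℓ B n) → 0 < p) := by
    intro K
    obtain ⟨p, hp1, hp2⟩ := fq_K ω hω K ℓ B
    have h2K : (0 : ℝ) < 2 ^ K := by positivity
    have hle : ∀ N : ℕ, (cnt (fun n => fq_good K ℓ n ∧ fq_occ ω ℓ B n) N : ℝ) / N ≤ x N := by
      intro N
      have h1 : cnt (fun n => fq_good K ℓ n ∧ fq_occ ω ℓ B n) N ≤ cnt (fq_occ ω ℓ B) N := by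
        rw [fq_cnt, fq_cnt]
        refine Finset.sum_le_sum fun n _ => ?_
        by_cases h : fq_good K ℓ n ∧ fq_occ ω ℓ B n
        · rw [fq_ind_true h.2]
          exact fq_ind_le _ _
        · rw [fq_ind_false h]
          exact Nat.zero_le _
      rw [hx]
      simp only
      gcongr
    refine ⟨p, ?_, Eventually.of_forall hle, hp1, hp2⟩
    have hinv : Tendsto (fun N : ℕ => (ℓ : ℝ) * (ℓ + 6 * 2 ^ K) * (1 / N)) atTop (𝓝 0) := by
      simpa using (tendsto_one_div_atTop_nhds_zero_nat (𝕜 := ℝ)).const_mul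
        ((ℓ : ℝ) * (ℓ + 6 * 2 ^ K))
    have e1 := (tendsto_order.1 hp1).1 (p - 1 / 2 ^ K) (by
      have : (0 : ℝ) < 1 / 2 ^ K := by positivity
      linarith)
    have e2 := (tendsto_order.1 hp1).2 (p + 1 / 2 ^ K) (by
      have : (0 : ℝ) < 1 / 2 ^ K := by positivity
      linarith)
    have e3 := (tendsto_order.1 hinv).2 1 one_pos
    filter_upwards [e1, e2, e3, eventually_gt_atTop 0] with N h1 h2 h3 hN
    have hN' : (0 : ℝ) < N := by exact_mod_cast hN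
    refine ⟨h1.le.trans (hle N), ?_⟩
    have hb := fq_bad ω K ℓ B N
    have hb' : (2 : ℝ) ^ K * cnt (fq_occ ω ℓ B) N ≤
        2 ^ K * cnt (fun n => fq_good K ℓ n ∧ fq_occ ω ℓ B n) N +
          ℓ * (N + ℓ + 6 * 2 ^ K) := by exact_mod_cast hb
    have h4 : 2 ^ K * x N ≤ 2 ^ K * ((cnt (fun n => fq_good K ℓ n ∧ fq_occ ω ℓ B n) N : ℝ) / N) +
        (ℓ + (ℓ : ℝ) * (ℓ + 6 * 2 ^ K) * (1 / N)) := by
      rw [hx]
      simp only
      have e4 : (2 : ℝ) ^ K * ((cnt (fq_occ ω ℓ B) N : ℝ) / N) =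
          (2 ^ K * cnt (fq_occ ω ℓ B) N) / N := by ring
      have e5 : (2 : ℝ) ^ K * ((cnt (fun n => fq_good K ℓ n ∧ fq_occ ω ℓ B n) N : ℝ) / N) +
          (ℓ + (ℓ : ℝ) * (ℓ + 6 * 2 ^ K) * (1 / N)) =
          (2 ^ K * cnt (fun n => fq_good K ℓ n ∧ fq_occ ω ℓ B n) N +
          ℓ * (N + ℓ + 6 * 2 ^ K)) / N := by
        field_simp
        ring
      rw [e4, e5]
      gcongr
    have h5 : 2 ^ K * ((cnt (fun n => fq_good K ℓ n ∧ fq_occ ω ℓ B n) N : ℝ) / N) ≤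
        2 ^ K * (p + 1 / 2 ^ K) := by
      gcongr
    have h6 : (2 : ℝ) ^ K * (p + 1 / 2 ^ K) = 2 ^ K * p + 1 := by
      field_simp
    have h7 : 2 ^ K * x N ≤ 2 ^ K * p + (ℓ + 2) := by linarith
    have h8 : (2 : ℝ) ^ K * (p + (ℓ + 2) / 2 ^ K) = 2 ^ K * p + (ℓ + 2) := by
      field_simp
    rw [← h8] at h7
    exact le_of_mul_le_mul_left h7 h2K
  have hcau : CauchySeq x := by
    rw [Metric.cauchySeq_iff']
    intro ε hε
    obtain ⟨K, hKε⟩ : ∃ K : ℕ, ((ℓ : ℝ) + 3) / 2 ^ K < ε := by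
      obtain ⟨K, hK'⟩ := exists_nat_gt (((ℓ : ℝ) + 3) / ε)
      refine ⟨K, ?_⟩
      rw [div_lt_iff₀ (by positivity)]
      rw [div_lt_iff₀ hε] at hK'
      have h1 : (K : ℝ) < 2 ^ K := by exact_mod_cast Nat.lt_two_pow_self
      nlinarith
    obtain ⟨p, hp, _⟩ := hK K
    obtain ⟨N0, hN0⟩ := eventually_atTop.1 hp
    refine ⟨N0, fun n hn => ?_⟩
    have h1 := hN0 n hn
    have h2 := hN0 N0 le_rfl
    have h3 : ((ℓ : ℝ) + 3) / 2 ^ K = (ℓ + 2) / 2 ^ K + 1 / 2 ^ K := by ring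
    rw [Real.dist_eq, abs_lt]
    constructor <;> linarith [h1.1, h1.2, h2.1, h2.2]
  obtain ⟨p, hp⟩ := cauchySeq_tendsto_of_complete hcau
  refine ⟨p, hp, ?_⟩
  rintro ⟨n, hn6, hn⟩
  obtain ⟨q, _, hq2, hq3, hq4⟩ := hK (n + ℓ)
  have hlt : n + ℓ < 2 ^ (n + ℓ) := Nat.lt_two_pow_self
  have hMM : 2 ^ (n + ℓ) ≤ MM (n + ℓ) := Nat.le_of_dvd (MM_pos _) (fq_dvd _)
  have hq0 : 0 < q := by
    refine hq4 ⟨n, by omega, ?_, hn⟩
    intro i hi hd
    have h1 : 0 < (n + i) / 6 := by omega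
    have h2 := Nat.le_of_dvd h1 hd
    omega
  exact hq0.trans_le (le_of_tendsto_of_tendsto hq3 hp hq2)

end Pool.Agent.X886.INV
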