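import Pool.Agent.X886.INV.Core

/-!
# bound of frequencies
-/

namespace Pool.Agent.X886.INV

open Filter MeasureTheory Topology

open Classical in
theorem v16_cnt_eq (P : ℕ → Prop) (N : ℕ) :
    cnt P N = ∑ n ∈ Finset.range N, if P n then 1 else 0 := by
  unfold cnt
  rw [Finset.card_filter]

theorem v16_cnt_add (P : ℕ → Prop) (k N : ℕ) :
    cnt P (k + N) = cnt P k + cnt (fun n => P (k + n)) N := by
  rw [v16_cnt_eq, v16_cnt_eq, v16_cnt_eq, Finset.sum_range_add]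

open Classical in
theorem v16_cnt_mono (P R : ℕ → Prop) (h : ∀ n, P n → R n) (N : ℕ) : cnt P N ≤ cnt R N := by
  unfold cnt
  apply Finset.card_le_card
  intro n hn
  rw [Finset.mem_filter] at hn ⊢
  exact ⟨hn.1, h n hn.2⟩

open Classical in
theorem v16_cnt_le (P : ℕ → Prop) (N : ℕ) : cnt P N ≤ N := by
  unfold cnt
  exact (Finset.card_filter_le _ _).trans (by simp)

theorem v16_cnt_mul (P : ℕ → Prop) (m J : ℕ) :
    cnt P (m * J) = ∑ t ∈ Finset.range m, cnt (fun j => P (m * j + t)) J := by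
  induction J with
  | zero => simp [cnt]
  | succ J ih =>
    rw [Nat.mul_succ, v16_cnt_add, ih]
    have h1 : ∀ t, cnt (fun j => P (m * j + t)) (J + 1) =
        cnt (fun j => P (m * j + t)) J + cnt (fun j => P (m * (J + j) + t)) 1 :=
      fun t => v16_cnt_add (fun j => P (m * j + t)) J 1
    simp only [h1]
    rw [Finset.sum_add_distrib]
    congr 1
    rw [v16_cnt_eq]
    apply Finset.sum_congr rfl
    intro t _
    rw [v16_cnt_eq, Finset.sum_range_one, add_zero]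

theorem v16_Qf (ω : ℕ → Bool) (a : ℕ) : Qf ω (6 * a + 2) = if ω a = true then 2 else 32 := by
  have h1 : (6 * a + 2) / 2 = 3 * a + 1 := by omega
  have h2 : (6 * a + 2) % 2 = 0 := by omega
  have h3 : (3 * a + 1) % 3 = 1 := by omega
  have h4 : (3 * a + 1) / 3 = a := by omega
  unfold Qf
  rw [h1, h2]
  unfold bt hi lo
  simp only [h3, h4]
  cases h : ω a <;> simp

/-- the word seen -/
def v16_w {ℓ : ℕ} (B : Fin ℓ → ℕ) (s t : ℕ) : Fin s → Bool := fun i =>
  if h : 6 * (i + 1) + 2 - t % 6 < ℓ then decide (B ⟨6 * (i + 1) + 2 - t % 6, h⟩ = 2) else true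

theorem freq_le (ω : ℕ → Bool)
    (hω : ∀ L : ℕ, 1 ≤ L → ∀ (r ℓ : ℕ) (w : Fin ℓ → Bool), ℓ ≤ L →
      Tendsto (fun J : ℕ =>
        (cnt (fun j => ∀ i : Fin ℓ, ω (j * L + r + i) = w i) J : ℝ) / J) atTop (𝓝 ((1 / 2) ^ ℓ)))
    (ℓ : ℕ) (B : Fin ℓ → ℕ) (p : ℝ)
    (hp : Tendsto (fun N : ℕ =>
        (cnt (fun n => ∀ i : Fin ℓ, Qf ω (n + i) = B i) N : ℝ) / N) atTop (𝓝 p)) :
    p ≤ (1 / 2) ^ (ℓ / 6 - 1) := by
  by_cases hl : ℓ < 12
  · have h0 : ℓ / 6 - 1 = 0 := by omega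
    rw [h0, pow_zero]
    refine le_of_tendsto' hp (fun N => ?_)
    have h1 : (cnt (fun n => ∀ i : Fin ℓ, Qf ω (n + i) = B i) N : ℝ) ≤ N := by
      exact_mod_cast v16_cnt_le _ N
    exact div_le_one_of_le₀ h1 (Nat.cast_nonneg N)
  · obtain ⟨s, hs⟩ : ∃ s, s = ℓ / 6 - 1 := ⟨_, rfl⟩
    rw [← hs]
    have hs1 : 1 ≤ s := by omega
    have hm : 0 < 6 * s := by omega
    have hsub := hp.comp (tendsto_atTop_mono (fun J => Nat.le_mul_of_pos_left J hm) tendsto_id)
    have hR : Tendsto (fun J : ℕ => (1 / ((6 * s : ℕ) : ℝ)) * ∑ t ∈ Finset.range (6 * s),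
        ((cnt (fun j => ∀ i : Fin s, ω (j * s + (t / 6 + 1) + i) = v16_w B s t i) J : ℝ) / J))
        atTop (𝓝 ((1 / ((6 * s : ℕ) : ℝ)) * ∑ t ∈ Finset.range (6 * s), (1 / 2) ^ s)) := by
      apply Tendsto.const_mul
      apply tendsto_finsetSum
      intro t _
      exact hω s hs1 (t / 6 + 1) s (v16_w B s t) le_rfl
    have hlim : (1 / ((6 * s : ℕ) : ℝ)) * ∑ t ∈ Finset.range (6 * s), ((1 : ℝ) / 2) ^ s = (1 / 2) ^ s := by
      rw [Finset.sum_const, Finset.card_range, nsmul_eq_mul, ← mul_assoc, one_div_mul_cancel, one_mul]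
      exact_mod_cast hm.ne'
    rw [hlim] at hR
    refine le_of_tendsto_of_tendsto' hsub hR (fun J => ?_)
    simp only [Function.comp, id]
    rw [v16_cnt_mul]
    rw [← Finset.sum_div, one_div_mul_eq_div, div_div, Nat.cast_mul (6 * s) J, Nat.cast_sum,
      mul_comm (J : ℝ)]
    apply div_le_div_of_nonneg_right _ (by positivity)
    apply Finset.sum_le_sum
    intro t _
    rw [Nat.cast_le]
    apply v16_cnt_mono
    intro j hj i
    have hi := i.2
    have hlt : 6 * ((i : ℕ) + 1) + 2 - t % 6 < ℓ := by omega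
    have h1 := hj ⟨6 * ((i : ℕ) + 1) + 2 - t % 6, hlt⟩
    have h2 : 6 * s * j + t + (6 * ((i : ℕ) + 1) + 2 - t % 6) = 6 * (j * s + (t / 6 + 1) + i) + 2 := by
      have : 6 * s * j = 6 * (j * s) := by ring
      rw [this]
      omega
    simp only at h1
    rw [h2, v16_Qf] at h1
    unfold v16_w
    rw [dif_pos hlt, ← h1]
    cases ω (j * s + (t / 6 + 1) + i) <;> simp

theorem tendsto_shift_freq (P : ℕ → Prop) (p : ℝ) (k : ℕ)
    (h : Tendsto (fun N : ℕ => (cnt P N : ℝ) / N) atTop (𝓝 p)) :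
    Tendsto (fun N : ℕ => (cnt (fun n => P (n + k)) N : ℝ) / N) atTop (𝓝 p) := by
  have h1 : Tendsto (fun N : ℕ => (cnt P (k + N) : ℝ) / ((k + N : ℕ) : ℝ)) atTop (𝓝 p) :=
    h.comp (tendsto_atTop_mono (fun N => Nat.le_add_left N k) tendsto_id)
  have h2 : Tendsto (fun N : ℕ => (k : ℝ) / N) atTop (𝓝 0) := tendsto_const_div_atTop_nhds_zero_nat _
  have h3 : Tendsto (fun N : ℕ => (cnt P k : ℝ) / N) atTop (𝓝 0) :=
    tendsto_const_div_atTop_nhds_zero_nat _
  have h4 := (h1.mul (h2.add_const 1)).sub h3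
  rw [zero_add, mul_one, sub_zero] at h4
  refine h4.congr' ?_
  filter_upwards [eventually_gt_atTop 0] with N hN
  have hN' : (0 : ℝ) < N := by exact_mod_cast hN
  have hkN : (0 : ℝ) < ((k + N : ℕ) : ℝ) := by exact_mod_cast (by omega : 0 < k + N)
  have hc : (fun n => P (n + k)) = fun n => P (k + n) := by
    funext n; rw [add_comm]
  have h5 := v16_cnt_add P k N
  rw [hc, h5]
  push_cast
  push_cast at hkN
  field_simp
  ring

end Pool.Agent.X886.INV
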