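import Mathlib

/-!
# invariant measure
-/

namespace Pool.Agent.X886.INV

open Filter MeasureTheory Topology

open scoped CompactlySupported in
theorem aux_measure (X : Type) [MetricSpace X] [CompactSpace X] [MeasurableSpace X]
    [BorelSpace X] (T : X → X) (hT : Continuous T) (x : X)
    (L : (F : X → ℝ) → Continuous F → ℝ)
    (hL : ∀ (F : X → ℝ) (hF : Continuous F), Tendsto (fun N : ℕ =>
      (∑ n ∈ Finset.range N, F (T^[n] x)) / N) atTop (𝓝 (L F hF))) :
    ∃ μ : Measure X, IsProbabilityMeasure μ ∧ MeasurePreserving T μ μ ∧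
      ∀ (F : X → ℝ) (hF : Continuous F), L F hF = ∫ y, F y ∂μ := by
  classical
  have huniq : ∀ (F : X → ℝ) (hF : Continuous F) (c : ℝ), Tendsto (fun N : ℕ =>
      (∑ n ∈ Finset.range N, F (T^[n] x)) / N) atTop (𝓝 c) → L F hF = c :=
    fun F hF c hc => tendsto_nhds_unique (hL F hF) hc
  let Λ0 : C_c(X, ℝ) →ₗ[ℝ] ℝ :=
    { toFun := fun f => L f f.continuous
      map_add' := by
        intro f g
        apply huniq
        have := (hL f f.continuous).add (hL g g.continuous)
        refine this.congr fun N => ?_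
        simp only [CompactlySupportedContinuousMap.coe_add, Pi.add_apply,
          Finset.sum_add_distrib, add_div]
      map_smul' := by
        intro a f
        apply huniq
        have := (hL f f.continuous).const_mul a
        refine this.congr fun N => ?_
        simp only [CompactlySupportedContinuousMap.coe_smul, Pi.smul_apply, smul_eq_mul,
          ← Finset.mul_sum, mul_div_assoc] }
  let Λ : C_c(X, ℝ) →ₚ[ℝ] ℝ := PositiveLinearMap.mk₀ Λ0 (by
    intro f hf
    refine ge_of_tendsto' (hL f f.continuous) fun N => ?_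
    refine div_nonneg (Finset.sum_nonneg fun n _ => ?_) (Nat.cast_nonneg N)
    exact hf _)
  let μ : Measure X := RealRMK.rieszMeasure Λ
  have hint : ∀ (F : X → ℝ) (hF : Continuous F), L F hF = ∫ y, F y ∂μ := by
    intro F hF
    let f : C_c(X, ℝ) := ⟨⟨F, hF⟩, HasCompactSupport.of_compactSpace _⟩
    exact (RealRMK.integral_rieszMeasure Λ f).symm
  have hfin : IsFiniteMeasure μ := by
    constructor
    exact isCompact_univ.measure_lt_top
  have h1 : L (fun _ => (1 : ℝ)) continuous_const = 1 := by
    apply huniq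
    refine tendsto_const_nhds.congr' ?_
    filter_upwards [eventually_gt_atTop 0] with N hN
    have : (N : ℝ) ≠ 0 := by positivity
    simp [this]
  have hprob : IsProbabilityMeasure μ := by
    constructor
    have h2 := hint (fun _ => (1 : ℝ)) continuous_const
    rw [h1] at h2
    simp only [integral_const, smul_eq_mul, mul_one] at h2
    rw [measureReal_def] at h2
    have h3 := measure_ne_top μ Set.univ
    rw [← ENNReal.ofReal_toReal h3, ← h2, ENNReal.ofReal_one]
  refine ⟨μ, hprob, ⟨hT.measurable, ?_⟩, hint⟩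
  have hfin2 : IsFiniteMeasure (μ.map T) := by infer_instance
  apply ext_of_forall_integral_eq_of_IsFiniteMeasure
  intro f
  rw [integral_map hT.aemeasurable f.continuous.aestronglyMeasurable]
  rw [← hint _ f.continuous, ← hint (fun y => f (T y)) (f.continuous.comp hT)]
  apply huniq
  have h3 := hL f f.continuous
  -- difference tends to zero
  have h4 : Tendsto (fun N : ℕ => (f (T^[N] x) - f x) / N) atTop (𝓝 0) := by
    have hb : ∀ y, |f y| ≤ ‖f‖ := fun y => by
      have := f.norm_coe_le_norm y
      simpa using this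
    have h5 : Tendsto (fun N : ℕ => (2 * ‖f‖) / (N : ℝ)) atTop (𝓝 0) :=
      tendsto_const_div_atTop_nhds_zero_nat _
    refine squeeze_zero_norm (fun N => ?_) h5
    rw [norm_div, Real.norm_natCast]
    gcongr
    calc ‖f (T^[N] x) - f x‖ ≤ ‖f (T^[N] x)‖ + ‖f x‖ := norm_sub_le _ _
      _ ≤ ‖f‖ + ‖f‖ := add_le_add (f.norm_coe_le_norm _) (f.norm_coe_le_norm _)
      _ = 2 * ‖f‖ := by ring
  have h6 := h3.add h4
  rw [add_zero] at h6
  refine h6.congr fun N => ?_
  rw [← add_div]
  congr 1
  have h7 : ∀ M : ℕ, (∑ n ∈ Finset.range M, f (T^[n] x)) + (f (T^[M] x) - f x) =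
      ∑ n ∈ Finset.range M, f (T (T^[n] x)) := by
    intro M
    induction M with
    | zero => simp
    | succ M ih =>
      rw [Finset.sum_range_succ, Finset.sum_range_succ, ← ih, Function.iterate_succ_apply']
      ring
  exact h7 N



/-- existence of the invariant measure -/
theorem exists_measure (X : Type) [MetricSpace X] [CompactSpace X] [MeasurableSpace X]
    [BorelSpace X] (T : X → X) (hT : Continuous T) (x : X)
    (h : ∀ F : X → ℝ, Continuous F → ∃ c : ℝ, Tendsto (fun N : ℕ =>
      (∑ n ∈ Finset.range N, F (T^[n] x)) / N) atTop (𝓝 c)) :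
    ∃ μ : Measure X, IsProbabilityMeasure μ ∧ MeasurePreserving T μ μ ∧
      ∀ F : X → ℝ, Continuous F → Tendsto (fun N : ℕ =>
        (∑ n ∈ Finset.range N, F (T^[n] x)) / N) atTop (𝓝 (∫ y, F y ∂μ)) := by
  choose L hL using h
  obtain ⟨μ, h1, h2, h3⟩ := aux_measure X T hT x L hL
  refine ⟨μ, h1, h2, fun F hF => ?_⟩
  rw [← h3 F hF]
  exact hL F hF

end Pool.Agent.X886.INV
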