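import Pool.Agent.X886.INV.Core
import Pool.Agent.X886.INV.Defs
import Pool.Agent.X886.INV.J17

/-!
# the dynamical system of a sequence
-/

namespace Pool.Agent.X886.INV

open Filter MeasureTheory Topology

/-! auxiliary lemmas -/

theorem aux_cyl {X : Type} [TopologicalSpace X] (c : X → ℕ → ℕ) (hc : IsInducing c) {U : Set X}
    (hU : IsOpen U) {y : X} (hy : y ∈ U) : ∃ ℓ : ℕ, ∀ z, (∀ i < ℓ, c z i = c y i) → z ∈ U := by
  obtain ⟨V, hV, rfl⟩ := hc.isOpen_iff.1 hU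
  obtain ⟨W, ⟨x, n, rfl⟩, h1, h2⟩ :=
    (PiNat.isTopologicalBasis_cylinders (E := fun _ => ℕ)).exists_subset_of_mem_open hy hV
  refine ⟨n, fun z hz => h2 ?_⟩
  intro i hi
  rw [hz i hi]
  exact h1 i hi

theorem aux_coord {X : Type} [TopologicalSpace X] (c : X → ℕ → ℕ) (hc : IsInducing c) (n : ℕ) :
    Continuous fun y => c y n :=
  (continuous_apply n).comp hc.continuous

theorem aux_open {X : Type} [TopologicalSpace X] (c : X → ℕ → ℕ) (hc : IsInducing c) (ℓ : ℕ)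
    (b : ℕ → ℕ) : IsClopen {z | ∀ i < ℓ, c z i = b i} := by
  have h : {z | ∀ i < ℓ, c z i = b i} = ⋂ i : Fin ℓ, (fun y => c y i) ⁻¹' {b i} := by
    ext z
    simp only [Set.mem_ofPred_eq, Set.mem_iInter, Set.mem_preimage, Set.mem_singleton_iff]
    exact ⟨fun h i => h i i.2, fun h i hi => h ⟨i, hi⟩⟩
  rw [h]
  exact isClopen_iInter_of_finite fun i => (isClopen_discrete _).preimage (aux_coord c hc i)

theorem aux_unif {X : Type} [TopologicalSpace X] [CompactSpace X] (c : X → ℕ → ℕ)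
    (hc : IsInducing c) {F : X → ℝ} (hF : Continuous F) {ε : ℝ} (hε : 0 < ε) :
    ∃ ℓ : ℕ, ∀ y z, (∀ i < ℓ, c y i = c z i) → |F y - F z| ≤ ε := by
  have h1 : ∀ y, ∃ ℓ : ℕ, ∀ z, (∀ i < ℓ, c z i = c y i) → |F z - F y| < ε / 2 := by
    intro y
    have h : IsOpen {z | |F z - F y| < ε / 2} :=
      isOpen_lt (hF.sub continuous_const).abs continuous_const
    exact aux_cyl c hc h (by simp only [Set.mem_ofPred_eq, sub_self, abs_zero]; linarith)
  choose L hL using h1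
  obtain ⟨t, ht⟩ := isCompact_univ.elim_nhds_subcover (fun y => {z | ∀ i < L y, c z i = c y i})
    (fun y _ => (aux_open c hc (L y) (c y)).isOpen.mem_nhds fun i _ => rfl)
  refine ⟨t.sup L, fun y z hyz => ?_⟩
  obtain ⟨w, hw, hyw⟩ : ∃ w ∈ t, ∀ i < L w, c y i = c w i := by
    have := ht.2 (Set.mem_univ y)
    simpa using this
  have e1 := hL w y hyw
  have e2 := hL w z (fun i hi =>
    (hyz i (lt_of_lt_of_le hi (Finset.le_sup hw))).symm.trans (hyw i hi))
  rw [abs_le]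
  rw [abs_lt] at e1 e2
  constructor <;> linarith [e1.1, e1.2, e2.1, e2.2]

theorem aux_lim (a : ℕ → ℝ) (h : ∀ ε : ℝ, 0 < ε → ∃ b : ℕ → ℝ, (∃ d, Tendsto b atTop (𝓝 d)) ∧
    ∀ N, |a N - b N| ≤ ε) : ∃ c, Tendsto a atTop (𝓝 c) := by
  refine cauchySeq_tendsto_of_complete ?_
  rw [Metric.cauchySeq_iff]
  intro ε hε
  obtain ⟨b, ⟨d, hd⟩, hb⟩ := h (ε / 8) (by positivity)
  obtain ⟨M, hM⟩ := Metric.cauchySeq_iff.1 hd.cauchySeq (ε / 2) (by positivity)
  refine ⟨M, fun m hm n hn => ?_⟩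
  have h1 := hM m hm n hn
  rw [Real.dist_eq] at h1 ⊢
  have h2 := hb m
  have h3 := hb n
  rw [abs_le] at h2 h3
  rw [abs_lt] at h1 ⊢
  constructor <;> linarith [h1.1, h1.2, h2.1, h2.2, h3.1, h3.2]

theorem aux_avg (x0 : ℕ → ℕ) (hfreq : ∀ (ℓ : ℕ) (B : Fin ℓ → ℕ), ∃ p : ℝ,
      Tendsto (fun N : ℕ => (cnt (fun n => ∀ i : Fin ℓ, x0 (n + i) = B i) N : ℝ) / N) atTop (𝓝 p))
    (ℓ : ℕ) (β : ℕ → Fin ℓ → Fin 129) (hβ : ∀ n i, (β n i : ℕ) = x0 (n + i))
    (v : (Fin ℓ → Fin 129) → ℝ) :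
    ∃ d, Tendsto (fun N : ℕ => (∑ n ∈ Finset.range N, v (β n)) / (N : ℝ)) atTop (𝓝 d) := by
  classical
  have h1 (N : ℕ) : (∑ n ∈ Finset.range N, v (β n)) / (N : ℝ) =
      ∑ B : Fin ℓ → Fin 129, v B *
        ((cnt (fun n => ∀ i : Fin ℓ, x0 (n + i) = (B i : ℕ)) N : ℝ) / N) := by
    have h2 (B : Fin ℓ → Fin 129) : (cnt (fun n => ∀ i : Fin ℓ, x0 (n + i) = (B i : ℕ)) N : ℝ) =
        ∑ n ∈ Finset.range N, if B = β n then (1 : ℝ) else 0 := by
      unfold cnt
      rw [Finset.card_filter]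
      push_cast
      refine Finset.sum_congr rfl fun n _ => ?_
      have h3 : (∀ i : Fin ℓ, x0 (n + i) = (B i : ℕ)) ↔ B = β n := by
        constructor
        · intro h
          funext i
          exact Fin.ext ((h i).symm.trans (hβ n i).symm)
        · rintro rfl i
          exact (hβ n i).symm
      simp only [h3]
    simp only [h2]
    have h4 (B : Fin ℓ → Fin 129) : v B * ((∑ n ∈ Finset.range N, if B = β n then (1 : ℝ) else 0)
        / (N : ℝ)) = (∑ n ∈ Finset.range N, if B = β n then v B else 0) / (N : ℝ) := by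
      rw [← mul_div_assoc, Finset.mul_sum]
      simp only [mul_ite, mul_one, mul_zero]
    simp only [h4]
    rw [← Finset.sum_div, Finset.sum_comm]
    congr 1
    refine Finset.sum_congr rfl fun n _ => ?_
    rw [Finset.sum_ite_eq' Finset.univ (β n) v]
    simp
  choose p hp using fun B : Fin ℓ → Fin 129 => hfreq ℓ (fun i => (B i : ℕ))
  refine ⟨∑ B, v B * p B, ?_⟩
  simp only [h1]
  exact tendsto_finsetSum _ fun B _ => (hp B).const_mul (v B)

theorem aux_iter {X : Type} (T : X → X) (c : X → ℕ → ℕ) (hT : ∀ y n, c (T y) n = c y (n + 1))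
    (y : X) (n i : ℕ) : c (T^[n] y) i = c y (n + i) := by
  induction n generalizing y with
  | zero => simp
  | succ n ih =>
    rw [Function.iterate_succ_apply, ih, hT]
    congr 1
    ring

theorem aux_gen {X : Type} [t : TopologicalSpace X] (c : X → ℕ → ℕ)
    (h : ∀ (n : ℕ) (S : Set ℕ), IsOpen ((fun y => c y n) ⁻¹' S)) :
    t ≤ TopologicalSpace.induced c inferInstance := by
  rw [← continuous_iff_le_induced]
  exact continuous_pi fun n => continuous_def.2 fun S _ => h n S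

theorem aux_main_j18 (x0 : ℕ → ℕ) (h2 : ∀ n, 2 ≤ x0 n) (h128 : ∀ n, x0 n ≤ 128)
    (hfreq : ∀ (ℓ : ℕ) (B : Fin ℓ → ℕ), ∃ p : ℝ, Tendsto (fun N : ℕ =>
        (cnt (fun n => ∀ i : Fin ℓ, x0 (n + i) = B i) N : ℝ) / N) atTop (𝓝 p) ∧
          ((∃ n, ∀ i : Fin ℓ, x0 (n + i) = B i) → 0 < p))
    (X : Type) [MetricSpace X] [CompactSpace X] [MeasurableSpace X] [BorelSpace X]
    (c : X → ℕ → ℕ) (hc : IsInducing c) (T : X → X) (hT : ∀ y n, c (T y) n = c y (n + 1)) (x : X)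
    (hx : c x = x0) (hocc : ∀ y ℓ, ∃ n, ∀ i < ℓ, c y i = x0 (n + i)) :
    ∃ μ : Measure X, Generates μ T (fun y => c y 0) x x0 ∧
      ∀ (ℓ : ℕ) (B : Fin ℓ → ℕ), Tendsto (fun N : ℕ =>
        (cnt (fun n => ∀ i : Fin ℓ, x0 (n + i) = B i) N : ℝ) / N)
        atTop (𝓝 (μ.real {y | ∀ i : Fin ℓ, c (T^[i] y) 0 = B i})) := by
  classical
  have hit := aux_iter T c hT
  have cT : Continuous T := by
    rw [hc.continuous_iff]
    refine continuous_pi fun n => ?_
    have : (fun y => (c ∘ T) y n) = fun y => c y (n + 1) := funext fun y => hT y n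
    rw [this]
    exact aux_coord c hc (n + 1)
  have hle (y : X) (n : ℕ) : c y n ≤ 128 := by
    obtain ⟨m, hm⟩ := hocc y (n + 1)
    rw [hm n (Nat.lt_succ_self n)]
    exact h128 _
  -- averages converge
  have hav : ∀ F : X → ℝ, Continuous F → ∃ d : ℝ, Tendsto (fun N : ℕ =>
      (∑ n ∈ Finset.range N, F (T^[n] x)) / N) atTop (𝓝 d) := by
    intro F hF
    refine aux_lim _ fun ε hε => ?_
    obtain ⟨ℓ, hℓ⟩ := aux_unif c hc hF hε
    obtain ⟨blk, hblk⟩ : ∃ blk : X → Fin ℓ → Fin 129, ∀ y i, (blk y i : ℕ) = c y i :=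
      ⟨fun y i => ⟨c y i, Nat.lt_succ_of_le (hle y i)⟩, fun y i => rfl⟩
    obtain ⟨v, hv⟩ : ∃ v : (Fin ℓ → Fin 129) → ℝ, ∀ y, |F y - v (blk y)| ≤ ε := by
      refine ⟨fun B => if h : ∃ z, blk z = B then F h.choose else 0, fun y => ?_⟩
      have h : ∃ z, blk z = blk y := ⟨y, rfl⟩
      dsimp only
      rw [dif_pos h]
      refine hℓ _ _ fun i hi => ?_
      have h5 := congrFun h.choose_spec ⟨i, hi⟩
      have h6 := hblk y ⟨i, hi⟩
      have h7 := hblk h.choose ⟨i, hi⟩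
      rw [h5, h6] at h7
      exact h7
    refine ⟨fun N => (∑ n ∈ Finset.range N, v (blk (T^[n] x))) / (N : ℝ),
      aux_avg x0 (fun ℓ B => ⟨(hfreq ℓ B).choose, (hfreq ℓ B).choose_spec.1⟩) ℓ
        (fun n => blk (T^[n] x)) (fun n i => ?_) v, fun N => ?_⟩
    · rw [hblk, hit, hx]
    · rw [← sub_div, ← Finset.sum_sub_distrib, abs_div, Nat.abs_cast]
      rcases Nat.eq_zero_or_pos N with rfl | hN
      · simp [hε.le]
      · have hN' : (0 : ℝ) < N := by exact_mod_cast hN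
        rw [div_le_iff₀ hN']
        refine (Finset.abs_sum_le_sum_abs _ _).trans ?_
        calc ∑ n ∈ Finset.range N, |F (T^[n] x) - v (blk (T^[n] x))|
            ≤ ∑ n ∈ Finset.range N, ε := Finset.sum_le_sum fun n _ => hv _
          _ = ε * N := by
            rw [Finset.sum_const, Finset.card_range, nsmul_eq_mul, mul_comm]
  obtain ⟨μ, hμ1, hμ2, hμ3⟩ := exists_measure X T cT x hav
  -- cylinders
  have hcyl (ℓ : ℕ) (B : Fin ℓ → ℕ) : IsClopen {y | ∀ i : Fin ℓ, c (T^[i] y) 0 = B i} := by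
    have h : {y | ∀ i : Fin ℓ, c (T^[i] y) 0 = B i} = ⋂ i : Fin ℓ, (fun y => c y i) ⁻¹' {B i} := by
      ext z
      simp only [Set.mem_ofPred_eq, Set.mem_iInter, Set.mem_preimage, Set.mem_singleton_iff]
      refine forall_congr' fun i => ?_
      rw [hit, Nat.add_zero]
    rw [h]
    exact isClopen_iInter_of_finite fun i => (isClopen_discrete _).preimage (aux_coord c hc i)
  have hlast : ∀ (ℓ : ℕ) (B : Fin ℓ → ℕ), Tendsto (fun N : ℕ =>
        (cnt (fun n => ∀ i : Fin ℓ, x0 (n + i) = B i) N : ℝ) / N)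
        atTop (𝓝 (μ.real {y | ∀ i : Fin ℓ, c (T^[i] y) 0 = B i})) := by
    intro ℓ B
    have h3 := hμ3 ({y | ∀ i : Fin ℓ, c (T^[i] y) 0 = B i}.indicator fun _ => (1 : ℝ))
      ((hcyl ℓ B).continuous_indicator continuous_const)
    rw [integral_indicator_const _ (hcyl ℓ B).isOpen.measurableSet, smul_eq_mul, mul_one] at h3
    refine h3.congr fun N => ?_
    congr 1
    unfold cnt
    rw [Finset.card_filter]
    push_cast
    refine Finset.sum_congr rfl fun n _ => ?_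
    rw [Set.indicator_apply]
    have h4 : (T^[n] x ∈ {y | ∀ i : Fin ℓ, c (T^[i] y) 0 = B i}) ↔
        ∀ i : Fin ℓ, x0 (n + i) = B i := by
      simp only [Set.mem_ofPred_eq]
      refine forall_congr' fun i => ?_
      rw [hit, hit, hx, Nat.add_zero]
    simp only [h4]
  refine ⟨μ, ?_, hlast⟩
  refine
    { prob := hμ1
      pos := ?_
      contT := cT
      inv := hμ2
      contf := aux_coord c hc 0
      two := ?_
      gen := ?_
      generic := ?_
      eq := ?_ }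
  · intro U hU ⟨y, hy⟩
    obtain ⟨ℓ, hℓ⟩ := aux_cyl c hc hU hy
    obtain ⟨m, hm⟩ := hocc y ℓ
    have h3 : μ.real {z | ∀ i : Fin ℓ, c (T^[i] z) 0 = c y i} > 0 := by
      obtain ⟨p, hp, hp0⟩ := hfreq ℓ (fun i => c y i)
      have h4 := tendsto_nhds_unique hp (hlast ℓ (fun i => c y i))
      rw [← h4]
      exact hp0 ⟨m, fun i => (hm i i.2).symm⟩
    have h5 : 0 < μ {z | ∀ i : Fin ℓ, c (T^[i] z) 0 = c y i} := by
      rw [Measure.real, gt_iff_lt, ENNReal.toReal_pos_iff] at h3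
      exact h3.1
    refine h5.trans_le (measure_mono fun z hz => hℓ z fun i hi => ?_)
    have := hz ⟨i, hi⟩
    rw [hit, Nat.add_zero] at this
    exact this
  · intro y
    obtain ⟨m, hm⟩ := hocc y 1
    show 2 ≤ c y 0
    rw [hm 0 (by norm_num)]
    exact h2 _
  · apply le_antisymm
    · refine le_generateFrom ?_
      rintro U ⟨n, S, rfl⟩
      have h : {y | c (T^[n] y) 0 ∈ S} = (fun y => c y n) ⁻¹' S := by
        ext y
        simp only [Set.mem_ofPred_eq, Set.mem_preimage]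
        rw [hit, Nat.add_zero]
      rw [h]
      exact (isOpen_discrete S).preimage (aux_coord c hc n)
    · have h := hc.eq_induced
      conv_rhs => rw [h]
      refine @aux_gen X (TopologicalSpace.generateFrom _) c fun n S =>
        TopologicalSpace.isOpen_generateFrom_of_mem ⟨n, S, ?_⟩
      ext y
      simp only [Set.mem_ofPred_eq, Set.mem_preimage]
      rw [hit, Nat.add_zero]
  · intro F hF _
    have h3 := hμ3 (fun y => F (T y)) (hF.comp cT)
    have h4 : ∫ y, F (T y) ∂μ = ∫ y, F y ∂μ := by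
      rw [← integral_map cT.measurable.aemeasurable (by
        rw [hμ2.map_eq]; exact hF.aestronglyMeasurable), hμ2.map_eq]
    rw [h4] at h3
    refine h3.congr fun N => ?_
    congr 1
    have h6 : Finset.Icc 1 N = Finset.Ico (0 + 1) (N + 1) := by
      ext n
      simp only [Finset.mem_Icc, Finset.mem_Ico]
      omega
    rw [h6, ← Finset.sum_Ico_add' (fun n => F (T^[n] x)) 0 N 1, ← Finset.range_eq_Ico]
    exact Finset.sum_congr rfl fun n _ => by rw [Function.iterate_succ_apply']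
  · intro n _
    show x0 n = c (T^[n] x) 0
    rw [hit, hx, Nat.add_zero]

theorem exists_system (x0 : ℕ → ℕ) (h2 : ∀ n, 2 ≤ x0 n) (h128 : ∀ n, x0 n ≤ 128)
    (hfreq : ∀ (ℓ : ℕ) (B : Fin ℓ → ℕ), ∃ p : ℝ, Tendsto (fun N : ℕ =>
        (cnt (fun n => ∀ i : Fin ℓ, x0 (n + i) = B i) N : ℝ) / N) atTop (𝓝 p) ∧ ((∃ n, ∀ i : Fin ℓ, x0 (n + i) = B i) → 0 < p)) :
    ∃ (X : Type) (_ : MetricSpace X) (_ : CompleteSpace X)
      (_ : TopologicalSpace.SeparableSpace X) (_ : MeasurableSpace X) (_ : BorelSpace X)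
      (μ : Measure X) (T : X → X) (f : X → ℕ) (x : X),
      Generates μ T f x x0 ∧ (∀ y, f y ≤ 128) ∧ ∀ (ℓ : ℕ) (B : Fin ℓ → ℕ), Tendsto (fun N : ℕ =>
        (cnt (fun n => ∀ i : Fin ℓ, x0 (n + i) = B i) N : ℝ) / N)
        atTop (𝓝 (μ.real {y | ∀ i : Fin ℓ, f (T^[i] y) = B i})) := by
  obtain ⟨X, hXdef⟩ : ∃ X : Set (ℕ → ℕ), X = {z | ∀ ℓ, ∃ n, ∀ i < ℓ, z i = x0 (n + i)} := ⟨_, rfl⟩
  have hXle : X ⊆ Set.pi Set.univ fun _ : ℕ => Set.Iic 128 := by
    intro z hz i _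
    rw [hXdef] at hz
    obtain ⟨n, hn⟩ := hz (i + 1)
    rw [hn i (Nat.lt_succ_self i)]
    exact h128 _
  have hXcl : IsClosed X := by
    have h : X = ⋂ ℓ : ℕ, {z : ℕ → ℕ | ∃ n, ∀ i < ℓ, z i = x0 (n + i)} := by
      rw [hXdef]
      ext z
      simp
    rw [h]
    refine isClosed_iInter fun ℓ => ?_
    -- depends only on the first `ℓ` coordinates
    have h3 : {z : ℕ → ℕ | ∃ n, ∀ i < ℓ, z i = x0 (n + i)} =
        (fun (z : ℕ → ℕ) (i : Fin ℓ) => z i) ⁻¹'
          {b : Fin ℓ → ℕ | ∃ n, ∀ i : Fin ℓ, b i = x0 (n + i)} := by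
      ext z
      simp only [Set.mem_ofPred_eq, Set.mem_preimage]
      exact exists_congr fun n => ⟨fun h i => h i i.2, fun h i hi => h ⟨i, hi⟩⟩
    rw [h3]
    have h4 : Continuous fun (z : ℕ → ℕ) (i : Fin ℓ) => z i :=
      continuous_pi fun i => continuous_apply (i : ℕ)
    exact (isClosed_discrete _).preimage h4
  have hXc : IsCompact X :=
    (isCompact_univ_pi fun _ => (Set.finite_Iic 128).isCompact).of_isClosed_subset hXcl hXle
  have : CompactSpace X := isCompact_iff_compactSpace.1 hXc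
  have : TopologicalSpace.MetrizableSpace X := inferInstance
  let mX : MetricSpace X := TopologicalSpace.metrizableSpaceMetric X
  let _ : MeasurableSpace X := borel X
  have : BorelSpace X := ⟨rfl⟩
  have hmem (z : ℕ → ℕ) : z ∈ X ↔ ∀ ℓ, ∃ n, ∀ i < ℓ, z i = x0 (n + i) := by rw [hXdef]; rfl
  have hx0 : x0 ∈ X := (hmem x0).2 fun ℓ => ⟨0, fun i _ => by rw [Nat.zero_add]⟩
  have hsh (z : ℕ → ℕ) (hz : z ∈ X) : (fun n => z (n + 1)) ∈ X := by
    refine (hmem _).2 fun ℓ => ?_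
    obtain ⟨n, hn⟩ := (hmem z).1 hz (ℓ + 1)
    refine ⟨n + 1, fun i hi => ?_⟩
    rw [hn (i + 1) (by omega)]
    congr 1
    ring
  obtain ⟨μ, hμ1, hμ2⟩ := aux_main_j18 x0 h2 h128 hfreq X (fun y => (y : ℕ → ℕ)) ⟨rfl⟩
    (fun y => ⟨fun n => (y : ℕ → ℕ) (n + 1), hsh y y.2⟩) (fun y n => rfl) ⟨x0, hx0⟩ rfl
    (fun y ℓ => (hmem y).1 y.2 ℓ)
  refine ⟨X, mX, inferInstance, inferInstance, inferInstance, inferInstance, μ, _, _, _, hμ1,
    fun y => hXle y.2 0 trivial, hμ2⟩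

end Pool.Agent.X886.INV
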