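import Pool.Agent.X886.INV.Defs

/-!
# positive entropy
-/

namespace Pool.Agent.X886.INV

open Filter MeasureTheory Topology

theorem inv19_nml (m : ℝ) (hm : 0 ≤ m) (k : ℕ) (h : m ≤ (1 / 2) ^ k) :
    m * (k * Real.log 2) ≤ Real.negMulLog m := by
  rcases hm.eq_or_lt with h0 | h0
  · rw [← h0]; simp
  · have h1 : Real.log m ≤ Real.log ((1 / 2) ^ k) := Real.log_le_log h0 h
    rw [Real.log_pow, one_div, Real.log_inv] at h1
    unfold Real.negMulLog
    nlinarith

theorem entropy_pos {X : Type} [MeasurableSpace X] (μ : Measure X) [IsProbabilityMeasure μ]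
    (T : X → X) (hT : Measurable T) (f : X → ℕ) (hf : Measurable f) (hf' : ∀ y, f y ≤ 128)
    (h : ∀ (ℓ : ℕ) (B : Fin ℓ → ℕ),
      μ.real {y | ∀ i : Fin ℓ, f (T^[i] y) = B i} ≤ (1 / 2) ^ (ℓ / 6 - 1)) :
    0 < ksEntropy μ T := by
  obtain ⟨e, he⟩ : ∃ e : ℕ → Fin 129, ∀ n, n ≤ 128 → (e n : ℕ) = n :=
    ⟨fun n => Fin.ofNat 129 n, fun n hn => by
      rw [Fin.val_ofNat]
      exact Nat.mod_eq_of_lt (by omega)⟩
  have hg : Measurable (fun y => e (f y)) := (measurable_of_countable e).comp hf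
  have hset : ∀ (n : ℕ) (w : Fin n → Fin 129), {x | ∀ i : Fin n, (fun y => e (f y)) (T^[i] x) = w i}
      = {y | ∀ i : Fin n, f (T^[i] y) = (fun i => (w i : ℕ)) i} := by
    intro n w
    ext y
    simp only [Set.mem_ofPred_eq]
    refine forall_congr' fun i => ?_
    rw [Fin.ext_iff, he _ (hf' _)]
  have hHn : ∀ n : ℕ, ((n / 6 - 1 : ℕ) : ℝ) * Real.log 2 ≤ Hn μ T (fun y => e (f y)) n := by
    intro n
    have hΦ : Measurable (fun (y : X) (i : Fin n) => e (f (T^[i] y))) :=
      measurable_pi_lambda _ fun i => hg.comp (hT.iterate i)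
    have hsum : ∑ w : Fin n → Fin 129,
        μ.real {x | ∀ i : Fin n, (fun y => e (f y)) (T^[i] x) = w i} = 1 := by
      have h1 := sum_measureReal_preimage_singleton (μ := μ) (Finset.univ : Finset (Fin n → Fin 129))
        (f := fun (y : X) (i : Fin n) => e (f (T^[i] y)))
        (fun w _ => hΦ (measurableSet_singleton w))
      rw [Finset.coe_univ, Set.preimage_univ, probReal_univ] at h1
      rw [← h1]
      refine Finset.sum_congr rfl fun w _ => ?_
      congr 1
      ext y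
      simp only [Set.mem_ofPred_eq, Set.mem_preimage, Set.mem_singleton_iff]
      exact funext_iff.symm
    unfold Hn
    calc ((n / 6 - 1 : ℕ) : ℝ) * Real.log 2 =
          ∑ w : Fin n → Fin 129, μ.real {x | ∀ i : Fin n, (fun y => e (f y)) (T^[i] x) = w i} *
            (((n / 6 - 1 : ℕ) : ℝ) * Real.log 2) := by
          rw [← Finset.sum_mul, hsum, one_mul]
      _ ≤ _ := by
          refine Finset.sum_le_sum fun w _ => ?_
          refine inv19_nml _ measureReal_nonneg _ ?_
          rw [hset]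
          exact h n _
  have hlog : 0 < Real.log 2 := Real.log_pos (by norm_num)
  have hev : ∀ n : ℕ, 77 ≤ n → ((Real.log 2 / 7 : ℝ) : EReal) ≤
      ((Hn μ T (fun y => e (f y)) n / n : ℝ) : EReal) := by
    intro n hn
    rw [EReal.coe_le_coe_iff]
    have hn0 : (0 : ℝ) < n := by exact_mod_cast (by omega : 0 < n)
    rw [le_div_iff₀ hn0]
    refine le_trans ?_ (hHn n)
    have h1 : (n : ℝ) ≤ 7 * ((n / 6 - 1 : ℕ) : ℝ) := by exact_mod_cast (by omega : n ≤ 7 * (n / 6 - 1))
    nlinarith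
  have hlim : ((Real.log 2 / 7 : ℝ) : EReal) ≤
      limsup (fun n : ℕ => ((Hn μ T (fun y => e (f y)) n / n : ℝ) : EReal)) atTop := by
    refine le_limsup_of_frequently_le ?_
    exact (eventually_atTop.2 ⟨77, hev⟩).frequently
  refine lt_of_lt_of_le ?_ (le_iSup_of_le 129 (le_iSup_of_le (fun y => e (f y))
    (le_iSup_of_le hg hlim)))
  exact_mod_cast (by positivity : (0 : ℝ) < Real.log 2 / 7)

end Pool.Agent.X886.INV
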