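import Pool.Agent.X886.INV.Core
import Pool.Agent.X886.INV.Cdet
import Pool.Agent.X886.INV.J1
import Pool.Agent.X886.INV.J2

/-!
# decoding in an aligned block
-/

namespace Pool.Agent.X886.INV

open Filter MeasureTheory Topology

theorem h775_bool_cancel (a b : Bool) (S : ℕ)
    (h : ((a.toNat + S) % 2 = 1) ↔ ((b.toNat + S) % 2 = 1)) : a = b := by
  cases a <;> cases b <;> simp only [Bool.toNat_false, Bool.toNat_true] at h ⊢ <;>
    first
    | rfl
    | (exfalso; omega)

theorem h775_xs_congr (n : ℕ) (g g' : ℕ → Bool) (h : ∀ i < n, g i = g' i) : xs n g = xs n g' := by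
  unfold xs
  rw [Finset.sum_congr rfl (fun i hi => by rw [h i (Finset.mem_range.mp hi)])]

theorem h775_vis_det (ω ω' : ℕ → Bool) (e : ℕ → ℕ) (i i' : ℕ) (hlo : lo i' = lo i)
    (hv : vis ω e i) (hc : e (2 * i + (bt ω i).toNat) < Qf ω' (2 * i' + (bt ω i).toNat)) :
    bt ω' i' = bt ω i := by
  have ht : (bt ω i).toNat < 2 := Bool.toNat_lt _
  have h1 : (2 * i' + (bt ω i).toNat) / 2 = i' := by omega
  have h2 : (2 * i' + (bt ω i).toNat) % 2 = (bt ω i).toNat := by omega
  unfold Qf at hc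
  rw [h1, h2] at hc
  unfold vis at hv
  split_ifs at hc with hh
  · revert hh
    cases bt ω' i' <;> cases bt ω i <;> simp
  · exfalso
    rw [hlo] at hc
    omega

theorem h775_bt_one (ω : ℕ → Bool) (a : ℕ) : bt ω (3 * a + 1) = ω a := by
  unfold bt
  have h1 : (3 * a + 1) % 3 = 1 := by omega
  have h2 : (3 * a + 1) / 3 = a := by omega
  rw [h1, h2]; simp

theorem h775_bt_two (ω : ℕ → Bool) (a : ℕ) : bt ω (3 * a + 2) = pb ω a := by
  unfold bt
  have h1 : (3 * a + 2) % 3 = 2 := by omega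
  have h2 : (3 * a + 2) / 3 = a := by omega
  rw [h1, h2]; simp

theorem h775_bt_zero (ω : ℕ → Bool) (a : ℕ) : bt ω (3 * a) = tb a := by
  unfold bt
  have h1 : (3 * a) % 3 = 0 := by omega
  have h2 : (3 * a) / 3 = a := by omega
  rw [h1, h2]; simp

/-- transfer of a visible pair -/
theorem h775_vis_shift (ω ω' : ℕ → Bool) (e : ℕ → ℕ) (M j j' p r : ℕ) (hr : r < 3) (_hr0 : r ≠ 0)
    (hp : p < M)
    (hc : ∀ s < 6 * M, e (6 * M * j + s) < Qf ω' (6 * M * j' + s))
    (hv : vis ω e (3 * (M * j + p) + r)) :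
    bt ω' (3 * (M * j' + p) + r) = bt ω (3 * (M * j + p) + r) := by
  have ht : (bt ω (3 * (M * j + p) + r)).toNat < 2 := Bool.toNat_lt _
  apply h775_vis_det ω ω' e (3 * (M * j + p) + r) (3 * (M * j' + p) + r)
  · unfold lo
    have h1 : (3 * (M * j' + p) + r) % 3 = r := by omega
    have h2 : (3 * (M * j + p) + r) % 3 = r := by omega
    rw [h1, h2]
  · exact hv
  · have h := hc (6 * p + 2 * r + (bt ω (3 * (M * j + p) + r)).toNat) (by omega)
    have e1 : 6 * M * j + (6 * p + 2 * r + (bt ω (3 * (M * j + p) + r)).toNat) =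
        2 * (3 * (M * j + p) + r) + (bt ω (3 * (M * j + p) + r)).toNat := by ring
    have e2 : 6 * M * j' + (6 * p + 2 * r + (bt ω (3 * (M * j + p) + r)).toNat) =
        2 * (3 * (M * j' + p) + r) + (bt ω (3 * (M * j + p) + r)).toNat := by ring
    rw [e1, e2] at h
    exact h

theorem xs_cancel (n : ℕ) (g g' : ℕ → Bool) (i₀ : ℕ) (hi₀ : i₀ < n)
    (h : ∀ i < n, i ≠ i₀ → g i = g' i) (hx : xs n g = xs n g') : g i₀ = g' i₀ := by
  unfold xs at hx
  have hm : i₀ ∈ Finset.range n := Finset.mem_range.mpr hi₀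
  rw [← Finset.add_sum_erase _ _ hm, ← Finset.add_sum_erase (Finset.range n) (fun i => (g' i).toNat) hm] at hx
  have hS : ∑ i ∈ (Finset.range n).erase i₀, (g i).toNat =
      ∑ i ∈ (Finset.range n).erase i₀, (g' i).toNat := by
    apply Finset.sum_congr rfl
    intro i hi
    rw [h i (Finset.mem_range.mp (Finset.mem_of_mem_erase hi)) (Finset.ne_of_mem_erase hi)]
  rw [hS] at hx
  exact h775_bool_cancel _ _ _ (by simpa using hx)

theorem det_known (ω ω' : ℕ → Bool) (e : ℕ → ℕ) (K j j' : ℕ)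
    (hc : ∀ s < 6 * MM K, e (6 * MM K * j + s) < Qf ω' (6 * MM K * j' + s)) :
    ∀ k ≤ K, ∀ α < MM K, known ω e k (MM K * j + α) → ω' (MM K * j' + α) = ω (MM K * j + α) := by
  intro k
  induction k with
  | zero =>
    intro _ α hα hk
    have hv : vis ω e (3 * (MM K * j + α) + 1) := hk
    have h := h775_vis_shift ω ω' e (MM K) j j' α 1 (by norm_num) (by norm_num) hα hc hv
    rw [h775_bt_one, h775_bt_one] at h
    exact h
  | succ k ih =>
    intro hkK α hα hk
    have hkK' : k < K := hkK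
    rcases hk with hk | ⟨hv, hall⟩
    · exact ih hkK'.le α hα hk
    · obtain ⟨hp1, hp2⟩ := pc_shift k K j α hkK' hα
      obtain ⟨hp1', _⟩ := pc_shift k K j' α hkK' hα
      rw [hp1] at hv
      have h := h775_vis_shift ω ω' e (MM K) j j' (pc k α) 2 (by norm_num) (by norm_num) hp2 hc hv
      rw [h775_bt_two, h775_bt_two, ← hp1, ← hp1', pb_pc, pb_pc] at h
      have hpos : 0 < 2 ^ (k + 1) := by positivity
      have hi₀ : α / MM k % 2 ^ (k + 1) < 2 ^ (k + 1) := Nat.mod_lt _ hpos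
      have hself : gm k (gb k α) (α / MM k % 2 ^ (k + 1)) = α := gm_self k α
      have hcan := xs_cancel (2 ^ (k + 1)) (fun i => ω' (gm k (gb k (MM K * j' + α)) i))
        (fun i => ω (gm k (gb k (MM K * j + α)) i)) (α / MM k % 2 ^ (k + 1)) hi₀ ?_ h
      · rw [(gm_shift k K j' α _ hkK' hα hi₀).1, (gm_shift k K j α _ hkK' hα hi₀).1, hself] at hcan
        exact hcan
      · intro i hi hne
        obtain ⟨g1, g2⟩ := gm_shift k K j α i hkK' hα hi
        obtain ⟨g1', _⟩ := gm_shift k K j' α i hkK' hα hi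
        have hne2 : gm k (gb k (MM K * j + α)) i ≠ MM K * j + α := by
          rw [g1]
          intro hh
          have hh2 : gm k (gb k α) i = α := by omega
          apply hne
          apply gm_inj k α i _ hi hi₀
          rw [hh2, hself]
        have hkn := hall i hi hne2
        rw [g1] at hkn
        rw [g1, g1']
        exact ih hkK'.le _ g2 hkn

theorem det_center (ω ω' : ℕ → Bool) (e : ℕ → ℕ) (K j j' : ℕ)
    (hc : ∀ s < 6 * MM K, e (6 * MM K * j + s) < Qf ω' (6 * MM K * j' + s)) (s : ℕ)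
    (hs : s < 6 * MM K) (h : ¬ 2 ^ K ∣ s / 6) (hd : cdet ω e K (6 * MM K * j + s)) :
    Qf ω' (6 * MM K * j' + s) = Qf ω (6 * MM K * j + s) := by
  have hα : s / 6 < MM K := by omega
  have m1 : (6 * MM K * j + s) = 6 * (MM K * j) + s := by ring
  have m2 : (6 * MM K * j' + s) = 6 * (MM K * j') + s := by ring
  rw [m1] at hd
  rw [m1, m2]
  obtain ⟨v1, v2, v3⟩ := v2_shift K j (s / 6) h
  obtain ⟨v1', v2', v3'⟩ := v2_shift K j' (s / 6) h
  have q6 : (6 * (MM K * j) + s) / 6 = MM K * j + s / 6 := by omega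
  have q6' : (6 * (MM K * j') + s) / 6 = MM K * j' + s / 6 := by omega
  have q2 : (6 * (MM K * j) + s) / 2 = 3 * (MM K * j + s / 6) + s / 2 % 3 := by omega
  have q2' : (6 * (MM K * j') + s) / 2 = 3 * (MM K * j' + s / 6) + s / 2 % 3 := by omega
  have r2 : (6 * (MM K * j) + s) % 2 = s % 2 := by omega
  have r2' : (6 * (MM K * j') + s) % 2 = s % 2 := by omega
  unfold cdet at hd
  rw [q6, q2] at hd
  obtain ⟨hd1, hd2⟩ := hd
  have hbt : bt ω' (3 * (MM K * j' + s / 6) + s / 2 % 3) =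
      bt ω (3 * (MM K * j + s / 6) + s / 2 % 3) := by
    have hr : s / 2 % 3 < 3 := Nat.mod_lt _ (by norm_num)
    generalize s / 2 % 3 = r at hr hd1 hd2 ⊢
    interval_cases r
    · rw [Nat.add_zero, Nat.add_zero, h775_bt_zero, h775_bt_zero]
      unfold tb
      rw [v1, v1']
    · rw [h775_bt_one, h775_bt_one]
      exact det_known ω ω' e K j j' hc K le_rfl _ hα (hd1 (by omega))
    · rw [h775_bt_two, h775_bt_two]
      have hd3 := hd2 (by omega)
      unfold pb
      rw [v1] at hd3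
      rw [v1, v1']
      apply h775_xs_congr
      intro i hi
      obtain ⟨g1, g2⟩ := gm_par_shift K j (s / 6) i hα h hi
      obtain ⟨g1', _⟩ := gm_par_shift K j' (s / 6) i hα h hi
      have hkn := hd3 i hi
      rw [g1] at hkn
      rw [g1, g1']
      exact det_known ω ω' e K j j' hc K le_rfl _ g2 hkn
  unfold Qf
  rw [q2, q2', r2, r2', hbt]
  have hlo : lo (3 * (MM K * j' + s / 6) + s / 2 % 3) = lo (3 * (MM K * j + s / 6) + s / 2 % 3) := by
    unfold lo
    have h1 : (3 * (MM K * j' + s / 6) + s / 2 % 3) % 3 = s / 2 % 3 := by omega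
    have h2 : (3 * (MM K * j + s / 6) + s / 2 % 3) % 3 = s / 2 % 3 := by omega
    rw [h1, h2]
  have hhi : hi (3 * (MM K * j' + s / 6) + s / 2 % 3) = hi (3 * (MM K * j + s / 6) + s / 2 % 3) := by
    unfold hi
    have h1 : (3 * (MM K * j' + s / 6) + s / 2 % 3) % 3 = s / 2 % 3 := by omega
    have h2 : (3 * (MM K * j + s / 6) + s / 2 % 3) % 3 = s / 2 % 3 := by omega
    rw [h1, h2]
  rw [hlo, hhi]

end Pool.Agent.X886.INV
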