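import Pool.Agent.X886.INV.Core
import Pool.Agent.X886.INV.Cdet
import Pool.Agent.X886.INV.J1
import Pool.Agent.X886.INV.J2
import Pool.Agent.X886.INV.J3

/-!
# alignment and decoding of a window
-/

namespace Pool.Agent.X886.INV

open Filter MeasureTheory Topology

theorem align_aux (ω' : ℕ → Bool) {m x : ℕ} (hx : 64 ≤ x) (h : x < Qf ω' m) :
    m = 6 * (m / 6) + (tb (m / 6)).toNat := by
  unfold Qf at h
  by_cases h3 : m / 2 % 3 = 0
  · have hbt : bt ω' (m / 2) = tb (m / 6) := by
      unfold bt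
      rw [if_pos h3, Nat.div_div_eq_div_mul]
    rw [hbt] at h
    unfold hi lo at h
    rw [if_pos h3, if_pos h3] at h
    by_cases ht : (tb (m / 6)).toNat = m % 2
    · rw [ht]; omega
    · rw [if_neg ht] at h; omega
  · exfalso
    unfold hi lo at h
    rw [if_neg h3, if_neg h3] at h
    split_ifs at h <;> omega

theorem align_tb (a : ℕ) : (tb a).toNat = padicValNat 2 a % 2 := by
  unfold tb
  rcases Nat.mod_two_eq_zero_or_one (padicValNat 2 a) with h | h
  · rw [h]; rfl
  · rw [h]; rfl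

theorem align (ω' : ℕ → Bool) (e : ℕ → ℕ) (n n' L R : ℕ) (hR : 2 ≤ R)
    (hc : ∀ s < L, e (n + s) < Qf ω' (n' + s))
    (hA : ∀ j < R, ∃ a, n ≤ 6 * a ∧ 6 * a + 1 < n + L ∧ padicValNat 2 a = j + 1 ∧
      64 ≤ e (6 * a + (tb a).toNat)) :
    n' ≡ n [MOD 6 * 2 ^ R] := by
  have key : ∀ j < R, ∃ a b : ℕ, padicValNat 2 a = j + 1 ∧
      (n' : ℤ) + 6 * a + (j + 1) % 2 - n = 6 * b + (padicValNat 2 b % 2 : ℕ) := by
    intro j hj
    obtain ⟨a, h1, h2, h3, h4⟩ := hA j hj
    have ht : (tb a).toNat = (j + 1) % 2 := by rw [align_tb, h3]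
    have ht1 : (tb a).toNat ≤ 1 := by rw [ht]; omega
    have h5 := hc (6 * a + (tb a).toNat - n) (by omega)
    rw [show n + (6 * a + (tb a).toNat - n) = 6 * a + (tb a).toNat by omega] at h5
    have h6 := align_aux ω' h4 h5
    rw [ht, align_tb] at h6
    refine ⟨a, (n' + (6 * a + (j + 1) % 2 - n)) / 6, h3, ?_⟩
    have h7 : ((n' + (6 * a + (j + 1) % 2 - n) : ℕ) : ℤ) = (n' : ℤ) + 6 * a + (j + 1) % 2 - n := by
      push_cast [show n ≤ 6 * a + (j + 1) % 2 by omega]
      ring
    rw [← h7]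
    exact_mod_cast h6
  -- divisibility by 6
  have h6 : (6 : ℤ) ∣ (n' : ℤ) - n := by
    obtain ⟨a, b, _, e1⟩ := key 0 (by omega)
    obtain ⟨a', b', _, e2⟩ := key 1 (by omega)
    have p1 := Nat.mod_lt (padicValNat 2 b) (show 0 < 2 by norm_num)
    have p2 := Nat.mod_lt (padicValNat 2 b') (show 0 < 2 by norm_num)
    generalize padicValNat 2 b % 2 = x at *
    generalize padicValNat 2 b' % 2 = y at *
    push_cast at e1 e2
    norm_num at e1 e2
    omega
  obtain ⟨u, hu⟩ := h6
  have hdiv : ∀ j ≤ R, (2 : ℤ) ^ j ∣ u := by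
    intro j
    induction j with
    | zero => intro _; simp
    | succ j ih =>
      intro hj
      have h2 := ih (by omega)
      by_contra hnot
      obtain ⟨a, b, ha, e1⟩ := key j (by omega)
      have p1 := Nat.mod_lt (padicValNat 2 b) (show 0 < 2 by norm_num)
      have hab : (b : ℤ) = a + u ∧ padicValNat 2 b % 2 = (j + 1) % 2 := by
        have q1 : (j + 1) % 2 < 2 := Nat.mod_lt _ (by norm_num)
        have q2 : (((j + 1) % 2 : ℕ) : ℤ) = ((j : ℤ) + 1) % 2 := by push_cast; rfl
        rw [← q2] at e1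
        generalize padicValNat 2 b % 2 = x at *
        generalize (j + 1) % 2 = y at *
        constructor <;> omega
      obtain ⟨hb, hpar⟩ := hab
      have ha0 : a ≠ 0 := by
        rintro rfl
        simp at ha
      have hda : (2 : ℤ) ^ (j + 1) ∣ (a : ℤ) := by
        have : 2 ^ (j + 1) ∣ a := by rw [← ha]; exact pow_padicValNat_dvd
        exact_mod_cast this
      have hb1 : (2 : ℤ) ^ j ∣ (b : ℤ) := by
        rw [hb]
        exact dvd_add ((pow_dvd_pow 2 (Nat.le_succ j)).trans hda) h2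
      have hb2 : ¬ (2 : ℤ) ^ (j + 1) ∣ (b : ℤ) := by
        rw [hb]
        intro hcon
        exact hnot ((dvd_add_right hda).mp hcon)
      have hb1' : 2 ^ j ∣ b := by exact_mod_cast hb1
      have hb2' : ¬ 2 ^ (j + 1) ∣ b := by
        intro h; exact hb2 (by exact_mod_cast h)
      have hb0 : b ≠ 0 := by rintro rfl; exact hb2' (dvd_zero _)
      have hv : padicValNat 2 b = j := by
        apply le_antisymm
        · by_contra hcon
          push Not at hcon
          exact hb2' ((padicValNat_dvd_iff_le hb0).mpr hcon)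
        · exact (padicValNat_dvd_iff_le hb0).mp hb1'
      rw [hv] at hpar
      omega
  obtain ⟨c, hc'⟩ := hdiv R le_rfl
  apply Nat.ModEq.symm
  rw [Nat.modEq_iff_dvd]
  refine ⟨c, ?_⟩
  push_cast
  rw [hu, hc']; ring

theorem decode (ω ω' : ℕ → Bool) (e : ℕ → ℕ) (n n' L K r : ℕ) (hK : 2 ≤ K) (hr : 6 * MM K ≤ r)
    (hr' : r + 6 * MM K ≤ L)
    (hc : ∀ s < L, e (n + s) < Qf ω' (n' + s))
    (hA : ∀ j, 2 ^ j < MM K → ∃ a, n ≤ 6 * a ∧ 6 * a + 1 < n + L ∧ padicValNat 2 a = j + 1 ∧
      64 ≤ e (6 * a + (tb a).toNat))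
    (h : ¬ 2 ^ K ∣ (n + r) / 6) (hd : cdet ω e K (n + r)) :
    Qf ω' (n' + r) = Qf ω (n + r) := by
  obtain ⟨R, hM, hKR⟩ := MM_pow K
  have hal : n' ≡ n [MOD 6 * 2 ^ R] := align ω' e n n' L R (by omega) hc (fun j hj =>
    hA j (by rw [hM]; exact Nat.pow_lt_pow_right (by norm_num) hj))
  rw [← hM] at hal
  have hMpos := MM_pos K
  set M := 6 * MM K with hMdef
  have hM0 : 0 < M := by omega
  have hal' : (n' + r) % M = (n + r) % M := hal.add_right r
  set s := (n + r) % M with hs
  have hsM : s < M := Nat.mod_lt _ hM0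
  have e1 : M * ((n + r) / M) + s = n + r := Nat.div_add_mod _ _
  have e2 : M * ((n' + r) / M) + s = n' + r := by
    rw [← hal']; exact Nat.div_add_mod _ _
  have hdet := det_center ω ω' e K ((n + r) / M) ((n' + r) / M) (by
    intro s' hs'
    have h1 := hc (r - s + s') (by omega)
    have f1 : n + (r - s + s') = M * ((n + r) / M) + s' := by
      generalize M * ((n + r) / M) = A at *
      omega
    have f2 : n' + (r - s + s') = M * ((n' + r) / M) + s' := by
      generalize M * ((n' + r) / M) = A at *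
      omega
    rw [f1, f2] at h1
    exact h1) s hsM (by
    intro hcon
    apply h
    rw [← e1, hMdef, show 6 * MM K * ((n + r) / (6 * MM K)) + s
      = s + 6 * (MM K * ((n + r) / (6 * MM K))) by ring, Nat.add_mul_div_left _ _ (by norm_num)]
    apply dvd_add hcon
    apply Dvd.dvd.mul_right
    rw [hM]
    exact pow_dvd_pow 2 hKR) (by rw [show 6 * MM K * ((n + r) / M) + s = n + r from e1]; exact hd)
  rw [show 6 * MM K * ((n' + r) / M) + s = n' + r from e2,
    show 6 * MM K * ((n + r) / M) + s = n + r from e1] at hdet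
  exact hdet

end Pool.Agent.X886.INV
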