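import Pool.Agent.X886.INV.Core

/-!
# product measure: cylinders, markers
-/

namespace Pool.Agent.X886.INV

open Filter MeasureTheory Topology

theorem x360_prob (m : ℕ) (hm : 2 ≤ m) :
    IsProbabilityMeasure (ProbabilityTheory.uniformOn (Set.Iio m)) :=
  ProbabilityTheory.isProbabilityMeasure_uniformOn (Set.finite_Iio m) ⟨0, by
    rw [Set.mem_Iio]; omega⟩

theorem x360_lt (m k : ℕ) (hk : k ≤ m) :
    (ProbabilityTheory.uniformOn (Set.Iio m)).real (Set.Iio k) = (k : ℝ) / m := by
  have h := ProbabilityTheory.uniformOn_apply_finset (s := Finset.range m) (t := Finset.range k)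
  rw [Finset.coe_range, Finset.coe_range] at h
  have h2 : Finset.range m ∩ Finset.range k = Finset.range k := by
    rw [Finset.inter_eq_right]
    exact Finset.range_subset_range.2 hk
  rw [h2, Finset.card_range, Finset.card_range] at h
  rw [Measure.real, h]
  simp

theorem x360_one (m v : ℕ) :
    (ProbabilityTheory.uniformOn (Set.Iio m)).real {v} = if v < m then ((m : ℕ) : ℝ)⁻¹ else 0 := by
  have h := ProbabilityTheory.uniformOn_apply_finset (s := Finset.range m) (t := {v})
  rw [Finset.coe_range, Finset.coe_singleton] at h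
  rw [Measure.real, h]
  by_cases hv : v < m
  · rw [if_pos hv, Finset.inter_singleton_of_mem (Finset.mem_range.2 hv)]
    simp
  · rw [if_neg hv, Finset.inter_singleton_of_notMem (by rw [Finset.mem_range]; exact hv)]
    simp

theorem x360_gen (q : ℕ → ℕ) (hq : ∀ n, 2 ≤ q n) {C : ℕ} (pos : Fin C → ℕ)
    (hpos : Function.Injective pos) (A : Fin C → Set ℕ) :
    (dm q).real {e | ∀ c, e (pos c) ∈ A c} =
      ∏ c, (ProbabilityTheory.uniformOn (Set.Iio (q (pos c)))).real (A c) := by
  classical
  have hP : ∀ n, IsProbabilityMeasure (ProbabilityTheory.uniformOn (Set.Iio (q n))) :=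
    fun n => x360_prob _ (hq n)
  have he : {e : ℕ → ℕ | ∀ c, e (pos c) ∈ A c} =
      Set.pi (↑(Finset.univ.image pos) : Set ℕ) (fun j => {v | ∀ c, pos c = j → v ∈ A c}) := by
    ext e
    simp only [Set.mem_ofPred_eq, Set.mem_pi, Finset.coe_image, Finset.coe_univ, Set.image_univ,
      Set.mem_range, forall_exists_index, forall_apply_eq_imp_iff]
    constructor
    · intro h a c hc
      rw [← hc]
      exact h c
    · intro h c
      exact h c c rfl
  rw [he, Measure.real, dm, Measure.infinitePi_pi _ (fun i _ => MeasurableSet.of_discrete),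
    Finset.prod_image (fun a _ b _ h => hpos h), ENNReal.toReal_prod]
  refine Finset.prod_congr rfl fun c _ => ?_
  rw [Measure.real]
  congr 2
  ext v
  simp only [Set.mem_ofPred_eq]
  constructor
  · intro h
    exact h c rfl
  · intro h c' hc'
    rw [hpos hc']
    exact h

theorem dm_prob (q : ℕ → ℕ) (hq : ∀ n, 2 ≤ q n) : IsProbabilityMeasure (dm q) := by
  have hP : ∀ n, IsProbabilityMeasure (ProbabilityTheory.uniformOn (Set.Iio (q n))) :=
    fun n => x360_prob _ (hq n)
  unfold dm
  infer_instance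

theorem dm_cyl (q : ℕ → ℕ) (hq : ∀ n, 2 ≤ q n) {L : ℕ} (V : Fin L → ℕ) (n : ℕ) :
    (dm q).real {e | ∀ i : Fin L, e (n + i) = V i} = w8 q V n := by
  have h := x360_gen q hq (fun i : Fin L => n + (i : ℕ))
    (fun a b h => Fin.ext (by simpa using h)) (fun i => {V i})
  simp only [Set.mem_singleton_iff] at h
  rw [h]
  unfold w8
  exact Finset.prod_congr rfl fun i _ => x360_one _ _

theorem dm_lt (q : ℕ → ℕ) (hq : ∀ n, 2 ≤ q n) (n m : ℕ) (hm : m ≤ q n) :
    (dm q).real {e | e n < m} = m / q n := by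
  have h := x360_gen q hq (C := 1) (fun _ => n) (fun a b _ => Subsingleton.elim a b)
    (fun _ => Set.Iio m)
  rw [Fin.prod_univ_one, x360_lt _ _ hm] at h
  rw [← h]
  congr 1
  ext e
  simp

theorem dm_markers (q : ℕ → ℕ) (hq : ∀ n, 2 ≤ q n) (C : ℕ) (pos : Fin C → ℕ)
    (hpos : Function.Injective pos) (h : ∀ c, q (pos c) = 128) :
    (dm q).real {e | ∀ c, e (pos c) < 64} = (1 / 2) ^ C := by
  have h1 := x360_gen q hq pos hpos (fun _ => Set.Iio 64)
  simp only [Set.mem_Iio] at h1
  rw [h1]
  have h2 : ∀ c : Fin C, (ProbabilityTheory.uniformOn (Set.Iio (q (pos c)))).real (Set.Iio 64) =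
      1 / 2 := by
    intro c
    rw [h c, x360_lt 128 64 (by norm_num)]
    norm_num
  rw [Finset.prod_congr rfl fun c _ => h2 c, Finset.prod_const, Finset.card_univ, Fintype.card_fin]

end Pool.Agent.X886.INV
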