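import Pool.Agent.X886.INV.Core
import Pool.Agent.X886.INV.J5

/-!
# independence
-/

namespace Pool.Agent.X886.INV

open Filter MeasureTheory Topology

theorem dm_indep (q : ℕ → ℕ) (hq : ∀ n, 2 ≤ q n) (A B : Set (ℕ → ℕ)) (S T : Set ℕ)
    (hS : S.Finite) (hT : T.Finite) (hST : Disjoint S T)
    (hA : ∀ x y : ℕ → ℕ, (∀ i ∈ S, x i = y i) → (x ∈ A ↔ y ∈ A))
    (hB : ∀ x y : ℕ → ℕ, (∀ i ∈ T, x i = y i) → (x ∈ B ↔ y ∈ B)) :
    (dm q).real (A ∩ B) = (dm q).real A * (dm q).real B := by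
  classical
  have hp : ∀ n, IsProbabilityMeasure (ProbabilityTheory.uniformOn (Set.Iio (q n))) := by
    intro n
    exact ProbabilityTheory.isProbabilityMeasure_uniformOn (Set.finite_Iio _)
      ⟨0, by have := hq n; simp only [Set.mem_Iio]; omega⟩
  have hind : ProbabilityTheory.iIndepFun (fun (i : ℕ) (ω : ℕ → ℕ) => ω i) (dm q) := by
    unfold dm
    exact ProbabilityTheory.iIndepFun_infinitePi (X := fun _ x => x) (fun _ => measurable_id)
  lift S to Finset ℕ using hS
  lift T to Finset ℕ using hT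
  have h2 := hind.indepFun_finset S T (by exact_mod_cast hST) (fun i => measurable_pi_apply i)
  have h3 := (ProbabilityTheory.indepFun_iff_measure_inter_preimage_eq_mul.mp h2)
    ((fun (a : ℕ → ℕ) (i : S) => a i) '' A) ((fun (a : ℕ → ℕ) (i : T) => a i) '' B)
    (Set.to_countable _).measurableSet (Set.to_countable _).measurableSet
  have eA : (fun (a : ℕ → ℕ) (i : S) => a i) ⁻¹' ((fun (a : ℕ → ℕ) (i : S) => a i) '' A) = A := by
    ext x
    constructor
    · rintro ⟨y, hy, hxy⟩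
      refine (hA y x fun i hi => ?_).mp hy
      exact congrFun hxy ⟨i, by simpa using hi⟩
    · intro hx
      exact ⟨x, hx, rfl⟩
  have eB : (fun (a : ℕ → ℕ) (i : T) => a i) ⁻¹' ((fun (a : ℕ → ℕ) (i : T) => a i) '' B) = B := by
    ext x
    constructor
    · rintro ⟨y, hy, hxy⟩
      refine (hB y x fun i hi => ?_).mp hy
      exact congrFun hxy ⟨i, by simpa using hi⟩
    · intro hx
      exact ⟨x, hx, rfl⟩
  rw [eA, eB] at h3
  simp only [Measure.real, h3, ENNReal.toReal_mul]

end Pool.Agent.X886.INV
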