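import Pool.Agent.X886.INV.Core
import Pool.Agent.X886.INV.J2
import Pool.Agent.X886.INV.J5

/-!
# probability of alignment
-/

namespace Pool.Agent.X886.INV

open Filter MeasureTheory Topology

theorem align_prob (ω : ℕ → Bool) (n L j C : ℕ) (hL : 6 * 2 ^ (j + 2) * (C + 1) + 2 ≤ L) :
    (dm (Qf ω)).real {e | ¬ ∃ a, n ≤ 6 * a ∧ 6 * a + 1 < n + L ∧ padicValNat 2 a = j + 1 ∧
      64 ≤ e (6 * a + (tb a).toNat)} ≤ (1 / 2) ^ C := by
  haveI : IsProbabilityMeasure (dm (Qf ω)) := dm_prob _ (Qf_two ω)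
  set b := n / (6 * 2 ^ (j + 2)) with hb
  have hDpos : 0 < 6 * 2 ^ (j + 2) := by positivity
  have hb1 : 6 * 2 ^ (j + 2) * b ≤ n := Nat.mul_div_le n _
  have hb2 : n < 6 * 2 ^ (j + 2) * (b + 1) := by
    have := Nat.lt_div_mul_add (a := n) hDpos
    rw [← hb] at this
    nlinarith
  let A : Fin C → ℕ := fun c => 2 ^ (j + 1) * (2 * (b + 1 + c) + 1)
  have hval : ∀ c, padicValNat 2 (A c) = j + 1 := by
    intro c
    show padicValNat 2 (2 ^ (j + 1) * (2 * (b + 1 + c) + 1)) = j + 1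
    rw [padicValNat.mul (by positivity) (by omega), padicValNat.prime_pow,
      padicValNat.eq_zero_of_not_dvd (by omega)]
  let P : Fin C → ℕ := fun c => 6 * A c + (tb (A c)).toNat
  have htb : ∀ x : Bool, x.toNat ≤ 1 := by intro x; cases x <;> simp
  have hAinj : Function.Injective A := by
    intro c c' hcc
    have h1 : 2 ^ (j + 1) * (2 * (b + 1 + (c : ℕ)) + 1) = 2 ^ (j + 1) * (2 * (b + 1 + (c' : ℕ)) + 1) := hcc
    have h2 := Nat.eq_of_mul_eq_mul_left (by positivity) h1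
    exact Fin.ext (by omega)
  have hPinj : Function.Injective P := by
    intro c c' hcc
    have h1 : 6 * A c + (tb (A c)).toNat = 6 * A c' + (tb (A c')).toNat := hcc
    have h2 := htb (tb (A c))
    have h3 := htb (tb (A c'))
    exact hAinj (by omega)
  have hQ : ∀ c, Qf ω (P c) = 128 := by
    intro c
    have h2 := htb (tb (A c))
    have hd : P c / 2 = 3 * A c := by
      show (6 * A c + (tb (A c)).toNat) / 2 = 3 * A c
      omega
    have hm : P c % 2 = (tb (A c)).toNat := by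
      show (6 * A c + (tb (A c)).toNat) % 2 = (tb (A c)).toNat
      omega
    have h3 : 3 * A c % 3 = 0 := by omega
    have h4 : 3 * A c / 3 = A c := by omega
    unfold Qf
    rw [hd, hm]
    unfold bt hi
    simp [h3, h4]
  have hmain := dm_markers (Qf ω) (Qf_two ω) C P hPinj hQ
  rw [← hmain]
  apply measureReal_mono
  · intro e he c
    by_contra hlt
    apply he
    refine ⟨A c, ?_, ?_, hval c, ?_⟩
    · have h1 : A c = 2 ^ (j + 1) * (2 * (b + 1 + c) + 1) := rfl
      have h2 : 6 * A c = 6 * 2 ^ (j + 2) * (b + 1) + 6 * 2 ^ (j + 2) * c + 6 * 2 ^ (j + 1) := by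
        rw [h1]; ring
      have h3 : 0 ≤ 6 * 2 ^ (j + 2) * (c : ℕ) := Nat.zero_le _
      omega
    · have h1 : A c = 2 ^ (j + 1) * (2 * (b + 1 + c) + 1) := rfl
      have h2 : 6 * A c + 6 * 2 ^ (j + 1) = 6 * 2 ^ (j + 2) * b + 6 * 2 ^ (j + 2) * (c + 2) := by
        rw [h1]; ring
      have h3 : 6 * 2 ^ (j + 2) * ((c : ℕ) + 2) ≤ 6 * 2 ^ (j + 2) * (C + 1) :=
        Nat.mul_le_mul_left _ (by have := c.isLt; omega)
      have h4 : 0 < 6 * 2 ^ (j + 1) := by positivity
      omega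
    · have : P c = 6 * A c + (tb (A c)).toNat := rfl
      rw [this] at hlt
      omega
  · exact measure_ne_top _ _

end Pool.Agent.X886.INV
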