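import Pool.Agent.X886.INV.Core
import Pool.Agent.X886.INV.Cdet
import Pool.Agent.X886.INV.J1
import Pool.Agent.X886.INV.J2
import Pool.Agent.X886.INV.J5
import Pool.Agent.X886.INV.J6

/-!
# probability of unknown bits
-/

namespace Pool.Agent.X886.INV

open Filter MeasureTheory Topology

/-- coordinates of level `k` of the cell `a` -/
def aSk (k a : ℕ) : Set ℕ :=
  {n | n / 6 / MM k = a / MM k ∧ (n / 2 % 3 = 1 ∨ (n / 2 % 3 = 2 ∧ padicValNat 2 (n / 6) < k))}

theorem aSk_fin (k a : ℕ) : (aSk k a).Finite := by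
  refine Set.Finite.subset (Set.finite_Iio (6 * ((a / MM k + 1) * MM k))) ?_
  rintro n ⟨h, -⟩
  have h1 : n / 6 < (a / MM k + 1) * MM k := by
    rw [← Nat.div_lt_iff_lt_mul (MM_pos k), h]; omega
  simp only [Set.mem_Iio]; omega

theorem aMM_succ (k x y : ℕ) (h : x / MM k = y / MM k) : x / MM (k + 1) = y / MM (k + 1) := by
  have e : MM (k + 1) = MM k * 2 ^ (k + 1) := by rw [MM]; ring
  rw [e, ← Nat.div_div_eq_div_mul, ← Nat.div_div_eq_div_mul, h]

theorem avis_dep (ω : ℕ → Bool) (i : ℕ) (x y : ℕ → ℕ)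
    (h : x (2 * i + (bt ω i).toNat) = y (2 * i + (bt ω i).toNat)) : vis ω x i ↔ vis ω y i := by
  unfold vis; rw [h]

theorem aToNat (b : Bool) : b.toNat = 0 ∨ b.toNat = 1 := by cases b <;> simp

theorem aknown_dep (ω : ℕ → Bool) (k : ℕ) : ∀ (a : ℕ) (x y : ℕ → ℕ),
    (∀ n ∈ aSk k a, x n = y n) → (known ω x k a ↔ known ω y k a) := by
  induction k with
  | zero =>
    intro a x y h
    refine avis_dep ω _ x y (h _ ?_)
    have := aToNat (bt ω (3 * a + 1))
    refine ⟨?_, Or.inl ?_⟩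
    · have : (2 * (3 * a + 1) + (bt ω (3 * a + 1)).toNat) / 6 = a := by omega
      rw [this]
    · omega
  | succ k ih =>
    intro a x y h
    have h1 : known ω x k a ↔ known ω y k a := by
      apply ih
      rintro n ⟨hn, hn2⟩
      refine h n ⟨aMM_succ k _ _ hn, ?_⟩
      rcases hn2 with h2 | h2
      · exact Or.inl h2
      · exact Or.inr ⟨h2.1, by omega⟩
    have h2 : vis ω x (3 * pc k a + 2) ↔ vis ω y (3 * pc k a + 2) := by
      refine avis_dep ω _ x y (h _ ?_)
      have := aToNat (bt ω (3 * pc k a + 2))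
      have e : (2 * (3 * pc k a + 2) + (bt ω (3 * pc k a + 2)).toNat) / 6 = pc k a := by omega
      refine ⟨?_, Or.inr ⟨?_, ?_⟩⟩
      · rw [e]; exact pc_block k a
      · omega
      · rw [e, pc_val]; omega
    have h3 : ∀ i < 2 ^ (k + 1), known ω x k (gm k (gb k a) i) ↔ known ω y k (gm k (gb k a) i) := by
      intro i hi
      apply ih
      rintro n ⟨hn, hn2⟩
      refine h n ⟨?_, ?_⟩
      · rw [← gm_block k a i hi]; exact aMM_succ k _ _ hn
      rcases hn2 with h2 | h2
      · exact Or.inl h2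
      · exact Or.inr ⟨h2.1, by omega⟩
    rw [known, known, h1, h2]
    constructor
    · rintro (h4 | ⟨h4, h5⟩)
      · exact Or.inl h4
      · exact Or.inr ⟨h4, fun i hi hne => (h3 i hi).1 (h5 i hi hne)⟩
    · rintro (h4 | ⟨h4, h5⟩)
      · exact Or.inl h4
      · exact Or.inr ⟨h4, fun i hi hne => (h3 i hi).2 (h5 i hi hne)⟩

theorem anotvis_prob (ω : ℕ → Bool) (i : ℕ) (h : i % 3 ≠ 0) :
    (dm (Qf ω)).real {e | ¬ vis ω e i} = 1 / 16 := by
  have hlo : lo i = 2 := by simp [lo, h]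
  have hhi : hi i = 32 := by simp [hi, h]
  have hb := aToNat (bt ω i)
  have e1 : (2 * i + (bt ω i).toNat) / 2 = i := by omega
  have e2 : (2 * i + (bt ω i).toNat) % 2 = (bt ω i).toNat := by omega
  have hQ : Qf ω (2 * i + (bt ω i).toNat) = 32 := by
    rw [Qf, e1, e2, if_pos rfl, hhi]
  have : {e | ¬ vis ω e i} = {e : ℕ → ℕ | e (2 * i + (bt ω i).toNat) < 2} := by
    ext e; simp only [vis, hlo, Set.mem_ofPred_eq, not_le]
  rw [this, dm_lt (Qf ω) (Qf_two ω) _ 2 (by rw [hQ]; norm_num), hQ]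
  norm_num

theorem known_prob (ω : ℕ → Bool) (k a : ℕ) :
    (dm (Qf ω)).real {e | ¬ known ω e k a} ≤ (1 / 4) ^ k / 16 := by
  have : IsProbabilityMeasure (dm (Qf ω)) := dm_prob _ (Qf_two ω)
  induction k generalizing a with
  | zero =>
    have := anotvis_prob ω (3 * a + 1) (by omega)
    simp only [known]
    rw [this]; norm_num
  | succ k ih =>
    set F : Set (ℕ → ℕ) := {e | ¬ vis ω e (3 * pc k a + 2)} with hF
    set U : ℕ → Set (ℕ → ℕ) := fun b => {e | ¬ known ω e k b} with hU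
    have hF16 : (dm (Qf ω)).real F = 1 / 16 := anotvis_prob ω _ (by omega)
    have hUb : ∀ b, (dm (Qf ω)).real (U b) ≤ (1 / 4) ^ k / 16 := fun b => ih b
    have hU0 : ∀ b, 0 ≤ (dm (Qf ω)).real (U b) := fun b => measureReal_nonneg
    set I : Finset ℕ := (Finset.range (2 ^ (k + 1))).filter (fun i => gm k (gb k a) i ≠ a) with hI
    have hsub : {e | ¬ known ω e (k + 1) a} ⊆
        (U a ∩ F) ∪ ⋃ i ∈ I, (U a ∩ U (gm k (gb k a) i)) := by
      intro e he
      simp only [Set.mem_ofPred_eq, known, not_or, not_and_or, not_forall] at he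
      obtain ⟨h1, h2 | ⟨i, hi, hne, h3⟩⟩ := he
      · exact Or.inl ⟨h1, h2⟩
      · refine Or.inr ?_
        simp only [Set.mem_iUnion]
        exact ⟨i, by simp [hI, hi, hne], h1, h3⟩
    have hUF : (dm (Qf ω)).real (U a ∩ F) = (dm (Qf ω)).real (U a) * (dm (Qf ω)).real F := by
      refine dm_indep (Qf ω) (Qf_two ω) (U a) F (aSk k a)
        {2 * (3 * pc k a + 2) + (bt ω (3 * pc k a + 2)).toNat} (aSk_fin k a)
        (Set.finite_singleton _) ?_ ?_ ?_
      · rw [Set.disjoint_singleton_right]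
        rintro ⟨-, h1 | ⟨-, h1⟩⟩
        · have := aToNat (bt ω (3 * pc k a + 2)); omega
        · have := aToNat (bt ω (3 * pc k a + 2))
          have e : (2 * (3 * pc k a + 2) + (bt ω (3 * pc k a + 2)).toNat) / 6 = pc k a := by omega
          rw [e, pc_val] at h1
          omega
      · intro x y h
        exact not_congr (aknown_dep ω k a x y h)
      · intro x y h
        exact not_congr (avis_dep ω _ x y (h _ rfl))
    have hUU : ∀ i ∈ I, (dm (Qf ω)).real (U a ∩ U (gm k (gb k a) i)) =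
        (dm (Qf ω)).real (U a) * (dm (Qf ω)).real (U (gm k (gb k a) i)) := by
      intro i hi
      simp only [hI, Finset.mem_filter, Finset.mem_range] at hi
      refine dm_indep (Qf ω) (Qf_two ω) (U a) _ (aSk k a) (aSk k (gm k (gb k a) i))
        (aSk_fin k a) (aSk_fin k _) ?_ ?_ ?_
      · rw [Set.disjoint_left]
        rintro n ⟨h1, -⟩ ⟨h2, -⟩
        have h3 := h1.symm.trans h2
        rw [← gm_self k a] at h3
        have h4 : gm k (gb k a) (a / MM k % 2 ^ (k + 1)) / MM k = gm k (gb k a) i / MM k := by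
          have := gm_self k a
          rw [gm_self k a] at h3
          rw [gm_self k a]
          exact h1.symm.trans h2
        have h5 := gm_inj k a _ i (Nat.mod_lt _ (by positivity)) hi.1 h4
        apply hi.2
        rw [← h5, gm_self]
      · intro x y h
        exact not_congr (aknown_dep ω k a x y h)
      · intro x y h
        exact not_congr (aknown_dep ω k _ x y h)
    have hδ : (0 : ℝ) ≤ (1 / 4) ^ k / 16 := by positivity
    have hcard : (I.card : ℝ) ≤ 2 ^ (k + 1) := by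
      have : I.card ≤ 2 ^ (k + 1) := by
        refine (Finset.card_filter_le _ _).trans ?_
        simp
      exact_mod_cast this
    have hsum : ∑ i ∈ I, (dm (Qf ω)).real (U a ∩ U (gm k (gb k a) i)) ≤
        2 ^ (k + 1) * (((1 / 4) ^ k / 16) * ((1 / 4) ^ k / 16)) := by
      calc ∑ i ∈ I, (dm (Qf ω)).real (U a ∩ U (gm k (gb k a) i))
          ≤ ∑ i ∈ I, (((1 : ℝ) / 4) ^ k / 16) * ((1 / 4) ^ k / 16) := by
            refine Finset.sum_le_sum fun i hi => ?_
            rw [hUU i hi]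
            exact mul_le_mul (hUb _) (hUb _) (hU0 _) hδ
        _ = I.card * ((((1 : ℝ) / 4) ^ k / 16) * ((1 / 4) ^ k / 16)) := by
            rw [Finset.sum_const, nsmul_eq_mul]
        _ ≤ _ := by
            refine mul_le_mul_of_nonneg_right hcard (by positivity)
    have h1 : (dm (Qf ω)).real {e | ¬ known ω e (k + 1) a} ≤
        ((1 / 4) ^ k / 16) * (1 / 16) + 2 ^ (k + 1) * (((1 / 4) ^ k / 16) * ((1 / 4) ^ k / 16)) := by
      refine (measureReal_mono hsub (measure_ne_top _ _)).trans ((measureReal_union_le _ _).trans ?_)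
      refine add_le_add ?_ ((measureReal_biUnion_finset_le _ _).trans hsum)
      rw [hUF, hF16]
      exact mul_le_mul_of_nonneg_right (hUb a) (by norm_num)
    refine h1.trans ?_
    have h2 : (2 : ℝ) ^ (k + 1) * ((1 / 4) ^ k / 16) ≤ 1 / 8 := by
      have : (2 : ℝ) ^ (k + 1) * ((1 / 4) ^ k / 16) = (1 / 2) ^ k / 8 := by
        rw [pow_succ]
        have h3 : (2 : ℝ) ^ k * (1 / 4) ^ k = (1 / 2) ^ k := by
          rw [← mul_pow]; norm_num
        calc (2 : ℝ) ^ k * 2 * ((1 / 4) ^ k / 16) = (2 ^ k * (1 / 4) ^ k) / 8 := by ring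
          _ = _ := by rw [h3]
      rw [this]
      have : ((1 : ℝ) / 2) ^ k ≤ 1 := pow_le_one₀ (by norm_num) (by norm_num)
      linarith
    have h4 : (2 : ℝ) ^ (k + 1) * (((1 / 4) ^ k / 16) * ((1 / 4) ^ k / 16)) ≤
        1 / 8 * ((1 / 4) ^ k / 16) := by
      rw [← mul_assoc]
      exact mul_le_mul_of_nonneg_right h2 hδ
    have e5 : ((1 : ℝ) / 4) ^ (k + 1) = (1 / 4) ^ k * (1 / 4) := pow_succ _ _
    rw [e5]
    linarith

theorem cdet_prob (ω : ℕ → Bool) (K n : ℕ) (h : ¬ 2 ^ K ∣ n / 6) :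
    (dm (Qf ω)).real {e | ¬ cdet ω e K n} ≤ (1 / 2) ^ K := by
  have : IsProbabilityMeasure (dm (Qf ω)) := dm_prob _ (Qf_two ω)
  have hK4 : ((1 : ℝ) / 4) ^ K / 16 ≤ (1 / 2) ^ K := by
    have h1 : ((1 : ℝ) / 4) ^ K ≤ (1 / 2) ^ K :=
      pow_le_pow_left₀ (by norm_num) (by norm_num) K
    have h2 : (0 : ℝ) ≤ (1 / 4) ^ K := by positivity
    linarith
  have hv : padicValNat 2 (n / 6) < K := by
    by_contra hc
    push Not at hc
    exact h ((pow_dvd_pow 2 hc).trans pow_padicValNat_dvd)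
  rcases (by omega : n / 2 % 3 = 0 ∨ n / 2 % 3 = 1 ∨ n / 2 % 3 = 2) with h3 | h3 | h3
  · have : {e | ¬ cdet ω e K n} = ∅ := by
      ext e
      simp [cdet, h3]
    rw [this]
    simp
  · have : {e | ¬ cdet ω e K n} = {e | ¬ known ω e K (n / 6)} := by
      ext e
      simp [cdet, h3]
    rw [this]
    exact (known_prob ω K _).trans hK4
  · set v := padicValNat 2 (n / 6) with hvdef
    have hsub : {e | ¬ cdet ω e K n} ⊆ ⋃ i ∈ Finset.range (2 ^ (v + 1)),
        {e | ¬ known ω e K (gm v (n / 6 / 2 ^ (v + 1)) i)} := by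
      intro e he
      simp only [Set.mem_ofPred_eq, cdet, h3, ← hvdef] at he
      simp only [Set.mem_iUnion, Finset.mem_range, Set.mem_ofPred_eq]
      by_contra hc
      push Not at hc
      apply he
      exact ⟨fun hh => by omega, fun _ i hi => hc i hi⟩
    refine (measureReal_mono hsub (measure_ne_top _ _)).trans ((measureReal_biUnion_finset_le _ _).trans ?_)
    calc ∑ i ∈ Finset.range (2 ^ (v + 1)),
          (dm (Qf ω)).real {e | ¬ known ω e K (gm v (n / 6 / 2 ^ (v + 1)) i)}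
        ≤ ∑ i ∈ Finset.range (2 ^ (v + 1)), ((1 : ℝ) / 4) ^ K / 16 :=
          Finset.sum_le_sum fun i _ => known_prob ω K _
      _ = 2 ^ (v + 1) * (((1 : ℝ) / 4) ^ K / 16) := by
          rw [Finset.sum_const, nsmul_eq_mul, Finset.card_range]; push_cast; ring
      _ ≤ 2 ^ K * (((1 : ℝ) / 4) ^ K / 16) := by
          refine mul_le_mul_of_nonneg_right ?_ (by positivity)
          exact pow_le_pow_right₀ (by norm_num) hv
      _ = (1 / 2) ^ K / 16 := by
          have : (2 : ℝ) ^ K * (1 / 4) ^ K = (1 / 2) ^ K := by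
            rw [← mul_pow]; norm_num
          rw [← this]; ring
      _ ≤ (1 / 2) ^ K := by
          have : (0 : ℝ) ≤ (1 / 2) ^ K := by positivity
          linarith

end Pool.Agent.X886.INV
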