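import Pool.Agent.X886.INV.Core
import Pool.Agent.X886.INV.Cdet
import Pool.Agent.X886.INV.J1
import Pool.Agent.X886.INV.J2
import Pool.Agent.X886.INV.J4
import Pool.Agent.X886.INV.J5
import Pool.Agent.X886.INV.J7
import Pool.Agent.X886.INV.J8

/-!
# recovery of the bases
-/

namespace Pool.Agent.X886.INV

open Filter MeasureTheory Topology

theorem aux886_cnt (K c N : ℕ) :
    (((Finset.range N).filter (fun n => 2 ^ K ∣ (n + c) / 6)).card : ℝ) ≤ N / 2 ^ K + 12 := by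
  have hD : 0 < 6 * 2 ^ K := by positivity
  have h1 : ((Finset.range N).filter (fun n => 2 ^ K ∣ (n + c) / 6)).card ≤
      ((Finset.Icc (c / (6 * 2 ^ K)) ((N + c) / (6 * 2 ^ K))) ×ˢ Finset.range 6).card := by
    apply Finset.card_le_card_of_injOn (fun n => ((n + c) / 6 / 2 ^ K, (n + c) % 6))
    · intro n hn
      simp only [Finset.coe_filter, Set.mem_ofPred_eq, Finset.mem_range] at hn
      simp only [Finset.coe_product, Set.mem_prod, Finset.coe_Icc, Set.mem_Icc, Finset.coe_range,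
        Set.mem_Iio]
      rw [Nat.div_div_eq_div_mul]
      exact ⟨⟨Nat.div_le_div_right (by omega), Nat.div_le_div_right (by omega)⟩,
        Nat.mod_lt _ (by norm_num)⟩
    · intro n hn n' hn' h
      simp only [Finset.coe_filter, Set.mem_ofPred_eq, Finset.mem_range] at hn hn'
      simp only [Prod.mk.injEq] at h
      have e1 : (n + c) / 6 = (n' + c) / 6 := by
        rw [← Nat.div_mul_cancel hn.2, ← Nat.div_mul_cancel hn'.2, h.1]
      have := Nat.div_add_mod (n + c) 6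
      have := Nat.div_add_mod (n' + c) 6
      omega
  have h2 : ((Finset.Icc (c / (6 * 2 ^ K)) ((N + c) / (6 * 2 ^ K))) ×ˢ Finset.range 6).card =
      ((N + c) / (6 * 2 ^ K) + 1 - c / (6 * 2 ^ K)) * 6 := by
    rw [Finset.card_product, Nat.card_Icc, Finset.card_range]
  have h3 : c / (6 * 2 ^ K) ≤ (N + c) / (6 * 2 ^ K) := Nat.div_le_div_right (by omega)
  have h4 : (((N + c) / (6 * 2 ^ K) + 1 - c / (6 * 2 ^ K) : ℕ) : ℝ) =
      (((N + c) / (6 * 2 ^ K) : ℕ) : ℝ) + 1 - ((c / (6 * 2 ^ K) : ℕ) : ℝ) := by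
    rw [Nat.cast_sub (by omega)]; push_cast; ring
  have h5 : (((N + c) / (6 * 2 ^ K) : ℕ) : ℝ) ≤ ((N : ℝ) + c) / (6 * 2 ^ K) := by
    have := @Nat.cast_div_le ℝ _ _ _ (N + c) (6 * 2 ^ K)
    push_cast at this
    exact this
  have h6 : (c : ℝ) / (6 * 2 ^ K) - 1 ≤ ((c / (6 * 2 ^ K) : ℕ) : ℝ) := by
    have h7 := Nat.lt_div_mul_add (a := c) hD
    have h8 : (c : ℝ) < ((c / (6 * 2 ^ K) : ℕ) : ℝ) * (6 * 2 ^ K) + (6 * 2 ^ K) := by
      exact_mod_cast h7
    have hD' : (0 : ℝ) < 6 * 2 ^ K := by positivity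
    rw [sub_le_iff_le_add, div_le_iff₀ hD']
    linarith
  have h9 : (((Finset.range N).filter (fun n => 2 ^ K ∣ (n + c) / 6)).card : ℝ) ≤
      (((N + c) / (6 * 2 ^ K) : ℕ) + 1 - ((c / (6 * 2 ^ K) : ℕ) : ℝ)) * 6 := by
    rw [← h4]
    have : ((Finset.range N).filter (fun n => 2 ^ K ∣ (n + c) / 6)).card ≤
      ((N + c) / (6 * 2 ^ K) + 1 - c / (6 * 2 ^ K)) * 6 := by rw [← h2]; exact h1
    exact_mod_cast this
  have h10 : ((N : ℝ) + c) / (6 * 2 ^ K) - (c : ℝ) / (6 * 2 ^ K) = N / 2 ^ K / 6 := by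
    field_simp
    ring
  linarith

theorem aux886_null (q : ℕ → ℕ) (hq : ∀ n, 2 ≤ q n) (k : ℕ) : dm q {e | ¬ e k < q k} = 0 := by
  have := dm_prob q hq
  have h1 : {e : ℕ → ℕ | ¬ e k < q k} ⊆ ⋃ v : ℕ, {e | ¬ v < q k ∧ ∀ i : Fin 1, e (k + i) = v} := by
    intro e he
    simp only [Set.mem_iUnion, Set.mem_ofPred_eq]
    exact ⟨e k, he, fun i => by simp⟩
  refine measure_mono_null h1 (measure_iUnion_null fun v => ?_)
  by_cases hv : v < q k
  · simp [hv]
  · have h2 := dm_cyl q hq (L := 1) (fun _ => v) k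
    have h3 : w8 q (fun _ : Fin 1 => v) k = 0 := by
      simp [w8, hv]
    rw [h3, measureReal_eq_zero_iff] at h2
    refine measure_mono_null ?_ h2
    intro e he
    exact he.2

theorem aux886_meas (L m : ℕ) (V : Fin L → ℕ) :
    MeasurableSet {e : ℕ → ℕ | ∀ i : Fin L, e (m + i) = V i} := by
  have : {e : ℕ → ℕ | ∀ i : Fin L, e (m + i) = V i} =
      ⋂ i : Fin L, (fun e : ℕ → ℕ => e (m + i)) ⁻¹' {V i} := by
    ext e; simp
  rw [this]
  exact MeasurableSet.iInter fun i => (measurable_pi_apply _) (measurableSet_singleton _)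

theorem aux886_blocks (q : ℕ → ℕ) (hq : ∀ n, 2 ≤ q n) (L m : ℕ) (G : Finset (Fin L → ℕ)) :
    1 - ∑ V ∈ G, w8 q V m = (dm q).real {e | (fun i : Fin L => e (m + i)) ∉ G} := by
  have := dm_prob q hq
  have h1 : {e : ℕ → ℕ | (fun i : Fin L => e (m + i)) ∈ G} =
      ⋃ V ∈ G, {e : ℕ → ℕ | ∀ i : Fin L, e (m + i) = V i} := by
    ext e
    simp only [Set.mem_ofPred_eq, Set.mem_iUnion, exists_prop]
    constructor
    · intro h
      exact ⟨_, h, fun i => rfl⟩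
    · rintro ⟨V, hV, h⟩
      have : (fun i : Fin L => e (m + i)) = V := funext h
      rw [this]; exact hV
  have hm : MeasurableSet {e : ℕ → ℕ | (fun i : Fin L => e (m + i)) ∈ G} := by
    rw [h1]
    exact Finset.measurableSet_biUnion _ fun V _ => aux886_meas L m V
  have h2 : (dm q).real {e : ℕ → ℕ | (fun i : Fin L => e (m + i)) ∈ G} = ∑ V ∈ G, w8 q V m := by
    rw [h1, measureReal_biUnion_finset]
    · exact Finset.sum_congr rfl fun V _ => dm_cyl q hq V m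
    · intro V _ V' _ hVV'
      refine Set.disjoint_left.2 fun e he he' => hVV' (funext fun i => ?_)
      rw [← he i, ← he' i]
    · exact fun V _ => aux886_meas L m V
  have h3 : {e : ℕ → ℕ | (fun i : Fin L => e (m + i)) ∉ G} =
      {e : ℕ → ℕ | (fun i : Fin L => e (m + i)) ∈ G}ᶜ := rfl
  rw [h3, measureReal_compl hm, h2]
  simp

open Classical in
/-- the good blocks -/
noncomputable def G886 (W L ℓ : ℕ) : Finset (Fin L → ℕ) :=
  (Fintype.piFinset (fun _ : Fin L => Finset.range 128)).filter (fun V =>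
    ∀ (ω₁ : ℕ → Bool) (n₁ : ℕ) (ω₂ : ℕ → Bool) (n₂ : ℕ), (∀ i : Fin L, V i < Qf ω₁ (n₁ + i)) →
      (∀ i : Fin L, V i < Qf ω₂ (n₂ + i)) → ∀ i : Fin ℓ, Qf ω₁ (n₁ + W + i) = Qf ω₂ (n₂ + W + i))

theorem aux886_step (ω : ℕ → Bool) (K C ℓ W L m : ℕ) (hK : 2 ≤ K) (hW : W = 6 * MM K)
    (hL : L = W + ℓ + 6 * MM K + 24 * MM K * (C + 1) + 2) :
    1 - ∑ V ∈ G886 W L ℓ, w8 (Qf ω) V m ≤
      ∑ i ∈ Finset.range ℓ, ((if 2 ^ K ∣ (m + (W + i)) / 6 then (1 : ℝ) else 0) + (1 / 2) ^ K) +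
        MM K * (1 / 2) ^ C := by
  classical
  have := dm_prob (Qf ω) (Qf_two ω)
  rw [aux886_blocks (Qf ω) (Qf_two ω)]
  set μ := dm (Qf ω) with hμ
  set B0 : Set (ℕ → ℕ) := ⋃ k : ℕ, {e | ¬ e k < Qf ω k} with hB0
  set B1 : ℕ → Set (ℕ → ℕ) := fun i => {e | 2 ^ K ∣ (m + (W + i)) / 6 ∨ ¬ cdet ω e K (m + (W + i))}
    with hB1
  set B2 : ℕ → Set (ℕ → ℕ) := fun j => {e | 2 ^ j < MM K ∧ ¬ ∃ a, m ≤ 6 * a ∧ 6 * a + 1 < m + L ∧
    padicValNat 2 a = j + 1 ∧ 64 ≤ e (6 * a + (tb a).toNat)} with hB2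
  have hsub : {e : ℕ → ℕ | (fun i : Fin L => e (m + i)) ∉ G886 W L ℓ} ⊆
      B0 ∪ ((⋃ i ∈ Finset.range ℓ, B1 i) ∪ ⋃ j ∈ Finset.range (MM K), B2 j) := by
    intro e he
    by_contra hne
    apply he
    have h0 : ∀ k, e k < Qf ω k := by
      intro k
      by_contra hc
      exact hne (Or.inl (Set.mem_iUnion.2 ⟨k, hc⟩))
    have h1 : ∀ i < ℓ, ¬ 2 ^ K ∣ (m + (W + i)) / 6 ∧ cdet ω e K (m + (W + i)) := by
      intro i hi
      by_contra hc
      apply hne
      refine Or.inr (Or.inl (Set.mem_iUnion₂.2 ⟨i, Finset.mem_range.2 hi, ?_⟩))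
      rw [not_and_or, not_not] at hc
      exact hc
    have h2 : ∀ j, 2 ^ j < MM K → ∃ a, m ≤ 6 * a ∧ 6 * a + 1 < m + L ∧
        padicValNat 2 a = j + 1 ∧ 64 ≤ e (6 * a + (tb a).toNat) := by
      intro j hj
      have hjM : j < MM K := lt_of_le_of_lt (Nat.lt_two_pow_self).le hj
      by_contra hc
      apply hne
      exact Or.inr (Or.inr (Set.mem_iUnion₂.2 ⟨j, Finset.mem_range.2 hjM, hj, hc⟩))
    have key : ∀ (ω' : ℕ → Bool) (n' : ℕ), (∀ i : Fin L, e (m + i) < Qf ω' (n' + i)) →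
        ∀ i : Fin ℓ, Qf ω' (n' + W + i) = Qf ω (m + (W + i)) := by
      intro ω' n' hc i
      have hi := h1 i i.2
      have := decode ω ω' e m n' L K (W + i) hK (by omega) (by have := i.2; omega)
        (fun s hs => hc ⟨s, hs⟩) h2 hi.1 hi.2
      rw [add_assoc]; exact this
    rw [G886, Finset.mem_filter, Fintype.mem_piFinset]
    refine ⟨fun i => Finset.mem_range.2 (lt_of_lt_of_le (h0 _) (Qf_le ω _)), ?_⟩
    intro ω₁ n₁ ω₂ n₂ hc1 hc2 i
    rw [key ω₁ n₁ hc1 i, key ω₂ n₂ hc2 i]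
  have hB0' : μ.real B0 = 0 := by
    rw [measureReal_eq_zero_iff, hB0]
    exact measure_iUnion_null fun k => aux886_null (Qf ω) (Qf_two ω) k
  have hB1' : ∀ i, μ.real (B1 i) ≤
      (if 2 ^ K ∣ (m + (W + i)) / 6 then (1 : ℝ) else 0) + (1 / 2) ^ K := by
    intro i
    by_cases hd : 2 ^ K ∣ (m + (W + i)) / 6
    · rw [if_pos hd]
      have := measureReal_le_one (μ := μ) (s := B1 i)
      have h2 : (0 : ℝ) ≤ (1 / 2) ^ K := by positivity
      linarith
    · rw [if_neg hd, zero_add]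
      refine le_trans (measureReal_mono ?_) (cdet_prob ω K (m + (W + i)) hd)
      intro e he
      exact he.resolve_left hd
  have hB2' : ∀ j ∈ Finset.range (MM K), μ.real (B2 j) ≤ (1 / 2) ^ C := by
    intro j _
    by_cases hj : 2 ^ j < MM K
    · refine le_trans (measureReal_mono ?_) (align_prob ω m L j C ?_)
      · intro e he
        exact he.2
      · have h1 : 6 * 2 ^ (j + 2) * (C + 1) = 24 * 2 ^ j * (C + 1) := by rw [pow_add]; ring
        have h2 : 24 * 2 ^ j * (C + 1) ≤ 24 * MM K * (C + 1) := by gcongr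
        omega
    · have : B2 j = ∅ := by
        ext e
        simp [hB2, hj]
      rw [this, measureReal_empty]
      positivity
  refine le_trans (measureReal_mono hsub) (le_trans (measureReal_union_le _ _) ?_)
  rw [hB0', zero_add]
  refine le_trans (measureReal_union_le _ _) (add_le_add ?_ ?_)
  · exact le_trans (measureReal_biUnion_finset_le _ _) (Finset.sum_le_sum fun i _ => hB1' i)
  · refine le_trans (measureReal_biUnion_finset_le _ _) (le_trans (Finset.sum_le_sum hB2') ?_)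
    rw [Finset.sum_const, Finset.card_range, nsmul_eq_mul]

theorem recover (ω : ℕ → Bool) (s₀ : ℕ) (ε : ℝ) (hε : 0 < ε) (ℓ : ℕ) :
    ∃ (W L : ℕ) (G : Finset (Fin L → ℕ)) (out : (Fin L → ℕ) → Fin ℓ → ℕ), W + ℓ ≤ L ∧
      (∀ n, ∀ V ∈ G, (∀ i : Fin L, V i < Qf ω (n + i + s₀)) →
        ∀ i : Fin ℓ, Qf ω (n + W + i + s₀) = out V i) ∧
      ∀ᶠ N : ℕ in atTop, ∑ n ∈ Finset.range N, (1 - ∑ V ∈ G, w8 (fun m => Qf ω (m + s₀)) V n) ≤
        ε * N := by
  classical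
  -- choice of the constants
  obtain ⟨K, hK2, hK⟩ : ∃ K : ℕ, 2 ≤ K ∧ 2 * (ℓ : ℝ) * (1 / 2) ^ K < ε / 3 := by
    have ht : Tendsto (fun K : ℕ => 2 * (ℓ : ℝ) * (1 / 2 : ℝ) ^ K) atTop (𝓝 (2 * (ℓ : ℝ) * 0)) :=
      (tendsto_pow_atTop_nhds_zero_of_lt_one (by norm_num) (by norm_num)).const_mul _
    rw [mul_zero] at ht
    obtain ⟨K, hK⟩ := ((ht.eventually (gt_mem_nhds (by positivity : (0 : ℝ) < ε / 3))).and
      (eventually_ge_atTop 2)).exists
    exact ⟨K, hK.2, hK.1⟩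
  obtain ⟨C, hC⟩ : ∃ C : ℕ, (MM K : ℝ) * (1 / 2) ^ C < ε / 3 := by
    have ht : Tendsto (fun C : ℕ => (MM K : ℝ) * (1 / 2 : ℝ) ^ C) atTop (𝓝 ((MM K : ℝ) * 0)) :=
      (tendsto_pow_atTop_nhds_zero_of_lt_one (by norm_num) (by norm_num)).const_mul _
    rw [mul_zero] at ht
    exact (ht.eventually (gt_mem_nhds (by positivity : (0 : ℝ) < ε / 3))).exists
  obtain ⟨W, hW⟩ : ∃ W, W = 6 * MM K := ⟨_, rfl⟩
  obtain ⟨L, hL⟩ : ∃ L, L = W + ℓ + 6 * MM K + 24 * MM K * (C + 1) + 2 := ⟨_, rfl⟩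
  refine ⟨W, L, G886 W L ℓ, fun V i => if h : ∃ p : (ℕ → Bool) × ℕ,
    ∀ i : Fin L, V i < Qf p.1 (p.2 + i) then Qf h.choose.1 (h.choose.2 + W + i) else 0, by omega,
    ?_, ?_⟩
  · intro n V hV hc i
    have hc' : ∀ i : Fin L, V i < Qf ω (n + s₀ + i) := by
      intro i
      have := hc i
      rwa [add_right_comm] at this
    have hex : ∃ p : (ℕ → Bool) × ℕ, ∀ i : Fin L, V i < Qf p.1 (p.2 + i) := ⟨(ω, n + s₀), hc'⟩
    simp only [dif_pos hex]
    rw [G886, Finset.mem_filter] at hV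
    have := hV.2 ω (n + s₀) hex.choose.1 hex.choose.2 hc' hex.choose_spec i
    rw [← this]
    congr 1
    ring
  · have hw : ∀ n (V : Fin L → ℕ), w8 (fun m => Qf ω (m + s₀)) V n = w8 (Qf ω) V (n + s₀) := by
      intro n V
      simp only [w8]
      refine Finset.prod_congr rfl fun i _ => ?_
      rw [add_right_comm n s₀]
    have hN : ∀ᶠ N : ℕ in atTop, 12 * (ℓ : ℝ) ≤ ε / 3 * N := by
      have := (tendsto_natCast_atTop_atTop (R := ℝ)).const_mul_atTop
        (by positivity : (0 : ℝ) < ε / 3)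
      exact this.eventually (eventually_ge_atTop _)
    filter_upwards [hN] with N hN
    have hstep : ∀ n ∈ Finset.range N,
        (1 - ∑ V ∈ G886 W L ℓ, w8 (fun m => Qf ω (m + s₀)) V n) ≤
          ∑ i ∈ Finset.range ℓ, ((if 2 ^ K ∣ (n + s₀ + (W + i)) / 6 then (1 : ℝ) else 0) +
            (1 / 2) ^ K) + MM K * (1 / 2) ^ C := by
      intro n _
      have := aux886_step ω K C ℓ W L (n + s₀) hK2 hW hL
      simp only [hw]
      exact this
    refine le_trans (Finset.sum_le_sum hstep) ?_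
    rw [Finset.sum_add_distrib, Finset.sum_comm, Finset.sum_const, Finset.card_range, nsmul_eq_mul]
    have h1 : ∀ i ∈ Finset.range ℓ, ∑ n ∈ Finset.range N,
        ((if 2 ^ K ∣ (n + s₀ + (W + i)) / 6 then (1 : ℝ) else 0) + (1 / 2) ^ K) ≤
          N / 2 ^ K + 12 + N * (1 / 2) ^ K := by
      intro i _
      rw [Finset.sum_add_distrib, Finset.sum_const, Finset.card_range, nsmul_eq_mul,
        ← Finset.sum_filter, Finset.sum_const, nsmul_eq_mul, mul_one]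
      have := aux886_cnt K (s₀ + (W + i)) N
      simp only [← add_assoc] at this ⊢
      linarith
    have h2 := Finset.sum_le_sum h1
    rw [Finset.sum_const, Finset.card_range, nsmul_eq_mul] at h2
    have h3 : (N : ℝ) / 2 ^ K = N * (1 / 2) ^ K := by
      rw [one_div, inv_pow, div_eq_mul_inv]
    have hN0 : (0 : ℝ) ≤ N := Nat.cast_nonneg N
    have h4 : (N : ℝ) * (2 * (ℓ : ℝ) * (1 / 2) ^ K) ≤ N * (ε / 3) :=
      mul_le_mul_of_nonneg_left hK.le hN0
    have h5 : (N : ℝ) * ((MM K : ℝ) * (1 / 2) ^ C) ≤ N * (ε / 3) :=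
      mul_le_mul_of_nonneg_left hC.le hN0
    rw [h3] at h2
    nlinarith [h2, h4, h5, hN]

end Pool.Agent.X886.INV
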