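import Pool.Agent.X886.INV.J4
import Pool.Agent.X886.INV.J9
import Pool.Agent.X886.INV.J10
import Pool.Agent.X886.INV.J11
import Pool.Agent.X886.INV.J12
import Pool.Agent.X886.INV.J13
import Pool.Agent.X886.INV.J14
import Pool.Agent.X886.INV.J15
import Pool.Agent.X886.INV.J16
import Pool.Agent.X886.INV.J18
import Pool.Agent.X886.INV.J19

/-!
# A basic sequence of positive entropy whose normal numbers are distribution normal and uniformly
normal
-/

namespace Pool.Agent.X886.INV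

open Filter MeasureTheory Topology

theorem main : ∃ Q : ℕ → ℕ, IsBasic Q ∧ NonDet Q ∧ NormalSet Q ⊆ DistNormalSet Q ∧
    NormalSet Q ⊆ UniformNormalSet Q := by
  obtain ⟨ω, hω⟩ := exists_bits
  obtain ⟨Q, hQdef⟩ : ∃ Q : ℕ → ℕ, Q = fun n => Qf ω (n + 6) := ⟨_, rfl⟩
  have hQ2 : ∀ n, 2 ≤ Q n := fun n => by rw [hQdef]; exact Qf_two ω _
  have hQ128 : ∀ n, Q n ≤ 128 := fun n => by rw [hQdef]; exact Qf_le ω _
  have hcongr : ∀ (ℓ : ℕ) (B : Fin ℓ → ℕ) (k k' : ℕ) (g : ℕ → ℕ), (∀ n, g n = Qf ω (n + k)) → 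
      k = k' → (fun n => ∀ i : Fin ℓ, g (n + i) = B i) =
        fun n => ∀ i : Fin ℓ, Qf ω (n + k' + i) = B i := by
    intro ℓ B k k' g hg hk
    subst hk
    funext n
    refine propext ⟨fun h i => ?_, fun h i => ?_⟩
    · rw [← h i, hg]; congr 1; ring
    · rw [← h i, hg]; congr 1; ring
  have hQ0 : ∀ (ℓ : ℕ) (B : Fin ℓ → ℕ), (fun n => ∀ i : Fin ℓ, Q (n + i) = B i) =
      fun n => ∀ i : Fin ℓ, Qf ω (n + 6 + i) = B i := fun ℓ B =>
    hcongr ℓ B 6 6 Q (fun n => by rw [hQdef]) rfl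
  have hfreq : ∀ (ℓ : ℕ) (B : Fin ℓ → ℕ), ∃ p : ℝ, Tendsto (fun N : ℕ =>
        (cnt (fun n => ∀ i : Fin ℓ, Q (n + i) = B i) N : ℝ) / N)
        atTop (𝓝 p) ∧ ((∃ n, ∀ i : Fin ℓ, Q (n + i) = B i) → 0 < p) := by
    intro ℓ B
    obtain ⟨p, hp, hp'⟩ := freq_exists ω hω ℓ B
    refine ⟨p, ?_, ?_⟩
    · rw [hQ0]
      exact tendsto_shift_freq (fun n => ∀ i : Fin ℓ, Qf ω (n + i) = B i) p 6 hp
    · rintro ⟨n, hn⟩
      apply hp'
      refine ⟨n + 6, by omega, fun i => ?_⟩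
      rw [← hn i, hQdef]
      show Qf ω _ = Qf ω _
      congr 1; ring
  have hjoint : ∀ x ∈ NormalSet Q, ∀ (ℓ : ℕ) (B D : Fin ℓ → ℕ), Tendsto (fun N : ℕ =>
      ((cnt (fun n => (∀ i : Fin ℓ, Q (n + i + 1) = B i) ∧
          ∀ i : Fin ℓ, dig Q x (n + i + 1) = D i) N : ℝ) -
        sm (fun n => ∀ i : Fin ℓ, Q (n + i + 1) = B i) (w8 (fun m => Q (m + 1)) D) N) / N)
      atTop (𝓝 0) := by
    intro x hx ℓ B D
    refine transfer (fun m => Q (m + 1)) (fun m => dig Q x (m + 1)) (fun n => hQ2 _)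
      (fun n => hQ128 _) (fun n => dig_lt Q hQ2 x n) (fun L V => counts_of_normal Q hQ2 hQ128 x hx L V)
      ?_ ℓ B D
    intro ε hε ℓ
    obtain ⟨W, L, G, out, h1, h2, h3⟩ := recover ω 7 ε hε ℓ
    refine ⟨W, L, G, out, h1, ?_, ?_⟩
    · intro n V hV hVi i
      have := h2 n V hV (fun i => ?_) i
      · rw [← this, hQdef]
      · have := hVi i
        rw [hQdef] at this
        exact this
    · have : (fun m => Qf ω (m + 7)) = fun m => Q (m + 1) := by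
        rw [hQdef]
      rw [this] at h3
      exact h3
  refine ⟨Q, fun n _ => hQ2 n, ?_, ?_, ?_⟩
  · obtain ⟨X, i1, i2, i3, i4, i5, μ, T, f, x, hG, hf, hfr⟩ := exists_system Q hQ2 hQ128 hfreq
    refine ⟨X, i1, i2, i3, i4, i5, μ, T, f, x, hG, ?_⟩
    have := hG.prob
    refine entropy_pos μ T hG.contT.measurable f hG.contf.measurable hf fun ℓ B => ?_
    refine freq_le ω hω ℓ B _ ?_
    obtain ⟨p, hp, _⟩ := freq_exists ω hω ℓ B
    have h6 := tendsto_shift_freq (fun n => ∀ i : Fin ℓ, Qf ω (n + i) = B i) p 6 hp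
    have h7 := hfr ℓ B
    rw [hQ0] at h7
    have h8 : p = μ.real {y | ∀ i : Fin ℓ, f (T^[i] y) = B i} := tendsto_nhds_unique h6 h7
    rw [← h8]
    exact hp
  · intro x hx
    refine ⟨hx.1, fun a b ha hab hb => ?_⟩
    have h := dn_of_joint (fun m => Q (m + 1)) (fun m => dig Q x (m + 1)) (fun n => hQ2 _)
      (fun n => hQ128 _) (fun n => dig_lt Q hQ2 x n) (hjoint x hx) (orb Q x) (fun n => orb_mem Q x n)
      (fun n => orb_eq Q hQ2 x n) a b ha hab hb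
    have h' := tendsto_shift_freq (fun n => orb Q x n ∈ Set.Ico a b) _ 1 h
    refine h'.congr fun N => ?_
    rw [cnt_Icc]
  · intro x hx
    refine ⟨hx.1, fun ℓ D B hDB => ?_⟩
    refine un_of_joint Q x hQ2 (hjoint x hx) (fun ℓ B hB => ?_) ℓ D B hDB
    obtain ⟨p, hp, hp'⟩ := hfreq ℓ B
    refine ⟨p, ?_, ?_⟩
    · obtain ⟨n, hn⟩ := hB
      exact hp' ⟨n + 1, fun i => by rw [← hn i]; congr 1; ring⟩
    · have := tendsto_shift_freq (fun n => ∀ i : Fin ℓ, Q (n + i) = B i) p 1 hp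
      have h9 : (fun n => ∀ i : Fin ℓ, Q (n + 1 + i) = B i) =
          fun n => ∀ i : Fin ℓ, Q (n + i + 1) = B i := by
        funext n
        refine propext ⟨fun h i => ?_, fun h i => ?_⟩
        · rw [← h i]; congr 1; ring
        · rw [← h i]; congr 1; ring
      rw [← h9]
      exact this

end Pool.Agent.X886.INV
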